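import Pool.Agent.H46.BrouwerSpec

/-!
# Sharper projection inequalities

For a real symmetric idempotent matrix `P` with diagonal `p`, `T = ∑ p (1 - p)` and a graph `G`
with signless Laplacian `Q`, we keep the slack in the pairwise inequalities.
-/

set_option autoImplicit false

namespace Pool.Agent.H46.Brouwer

open Finset Matrix

variable {V : Type*} [Fintype V] [DecidableEq V]

/-- The pairwise inequality for an edge, with slack. -/
theorem pair_edge' {p p' x : ℝ} (hp : 0 ≤ p) (hq : p < 1) (hq' : p' < 1) :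
    p + p' + 2 * x - 1 + (p * (1 - p)) * (p' * (1 - p')) ≤ p * p' + 2 * (p * p') * x
      + ((1 / (1 - p) - 1 / 2) + (1 / (1 - p') - 1 / 2)) * x ^ 2 := by
  have h1 : 0 < 1 - p := by linarith
  have h2 : 0 < 1 - p' := by linarith
  have h3 : 0 ≤ 1 - p * p' := by nlinarith
  have e : p * p' + 2 * (p * p') * x
      + ((1 / (1 - p) - 1 / 2) + (1 / (1 - p') - 1 / 2)) * x ^ 2
        - (p + p' + 2 * x - 1 + (p * (1 - p)) * (p' * (1 - p')))
      = ((1 - p * p') * (x - (1 - p) * (1 - p')) ^ 2) / ((1 - p) * (1 - p')) := by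
    field_simp
    ring
  have : 0 ≤ ((1 - p * p') * (x - (1 - p) * (1 - p')) ^ 2) / ((1 - p) * (1 - p')) := by
    positivity
  linarith

/-- The pairwise inequality for a non-edge, with slack. -/
theorem pair_non' {p p' x : ℝ} (hp : 0 ≤ p) (hp' : 0 ≤ p') (hq : p < 1) (hq' : p' < 1) :
    (p * (1 - p)) * (p' * (1 - p')) + p ^ 2 * p' ^ 2 ≤ p * p' + 2 * (p * p') * x
      + ((1 / (1 - p) - 1 / 2) + (1 / (1 - p') - 1 / 2)) * x ^ 2 := by
  have h1 : 0 < 1 - p := by linarith
  have h2 : 0 < 1 - p' := by linarith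
  have hb : 0 ≤ p * p' := mul_nonneg hp hp'
  have hb1 : p * p' < 1 := by nlinarith
  have hg : 0 < (1 - p) * (1 - p') := mul_pos h1 h2
  have h3 : 0 < 1 - p * p' := by linarith
  have e : ((1 / (1 - p) - 1 / 2) + (1 / (1 - p') - 1 / 2))
      = (1 - p * p') / ((1 - p) * (1 - p')) := by
    field_simp
    ring
  rw [e]
  -- the key inequality `ξ ≥ pp'(1-pp')`
  have hkey : p * p' * (1 - p * p') ≤ p + p' - 2 * (p * p') := by
    set t := Real.sqrt (p * p') with ht
    have ht2 : t ^ 2 = p * p' := Real.sq_sqrt hb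
    have ht0 : 0 ≤ t := Real.sqrt_nonneg _
    have ht1 : t ≤ 1 := by nlinarith
    have hsum : 2 * t ≤ p + p' := by
      have : (2 * t) ^ 2 ≤ (p + p') ^ 2 := by nlinarith [sq_nonneg (p - p')]
      exact (pow_le_pow_iff_left₀ (by linarith) (by linarith) two_ne_zero).1 this
    rw [← ht2]
    nlinarith [mul_nonneg ht0 (mul_nonneg (sq_nonneg (1 - t)) (by linarith : 0 ≤ t + 2))]
  have e2 : p * p' + 2 * (p * p') * x + (1 - p * p') / ((1 - p) * (1 - p')) * x ^ 2
      - ((p * (1 - p)) * (p' * (1 - p')) + p ^ 2 * p' ^ 2)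
      = ((1 - p * p') * x + (p * p') * ((1 - p) * (1 - p'))) ^ 2
          / ((1 - p * p') * ((1 - p) * (1 - p')))
        + (p * p') * ((p + p' - 2 * (p * p')) - p * p' * (1 - p * p')) / (1 - p * p') := by
    field_simp
    ring
  have h4 : 0 ≤ ((1 - p * p') * x + (p * p') * ((1 - p) * (1 - p'))) ^ 2
          / ((1 - p * p') * ((1 - p) * (1 - p'))) := by positivity
  have h5 : 0 ≤ (p * p') * ((p + p' - 2 * (p * p')) - p * p' * (1 - p * p')) / (1 - p * p') := by
    apply div_nonneg _ h3.le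
    exact mul_nonneg hb (by linarith)
  linarith

section proj

variable {P : Matrix V V ℝ}

/-- The pairwise inequality for all ordered pairs, with slack `g g' + b ψ ψ'`, where `b = 1` is only
allowed for non-edges. -/
theorem pair_all' (hs : P.transpose = P) (hi : P * P = P) {u v : V} (huv : v ≠ u)
    {c b : ℝ} (hc : (c = 0 ∧ b = 1) ∨ (c = 1 ∧ b = 0)) :
    c * (P u u + P v v + 2 * P u v - 1)
        + ((P u u * (1 - P u u)) * (P v v * (1 - P v v)) + b * (P u u ^ 2 * P v v ^ 2))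
      ≤ P u u * P v v + 2 * (P u u * P v v) * P u v
      + ((1 / (1 - P u u) - 1 / 2) * P u v ^ 2 + (1 / (1 - P v v) - 1 / 2) * P u v ^ 2) := by
  have hp := diag_nonneg hs hi u
  have hp' := diag_nonneg hs hi v
  have hq := diag_le_one hs hi u
  have hq' := diag_le_one hs hi v
  have hsym : P v u = P u v := congrFun (congrFun hs u) v
  rcases eq_or_lt_of_le hq with h | h
  · have hz := off_zero hs hi huv h
    rw [hz, h]
    rcases hc with ⟨rfl, rfl⟩ | ⟨rfl, rfl⟩
    · simp; nlinarith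
    · simp
  rcases eq_or_lt_of_le hq' with h' | h'
  · have hz : P u v = 0 := by rw [← hsym]; exact off_zero hs hi huv.symm h'
    rw [hz, h']
    rcases hc with ⟨rfl, rfl⟩ | ⟨rfl, rfl⟩
    · simp; nlinarith
    · simp
  rw [← add_mul]
  rcases hc with ⟨rfl, rfl⟩ | ⟨rfl, rfl⟩
  · rw [zero_mul, zero_add, one_mul]; exact pair_non' hp hp' h h'
  · rw [one_mul, zero_mul, add_zero]; exact pair_edge' hp h h'

/-- The basic inequality with a general slack matrix. -/
theorem core_slack (hs : P.transpose = P) (hi : P * P = P) (G : SimpleGraph V) [DecidableRel G.Adj]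
    (S : V → V → ℝ)
    (hS : ∀ u v, v ≠ u → (if G.Adj u v then (1 : ℝ) else 0) * (P u u + P v v + 2 * P u v - 1)
        + S u v ≤ P u u * P v v + 2 * (P u u * P v v) * P u v
      + ((1 / (1 - P u u) - 1 / 2) * P u v ^ 2 + (1 / (1 - P v v) - 1 / 2) * P u v ^ 2)) :
    ∑ u, ∑ v, P u v * (G.degMatrix ℝ + G.adjMatrix ℝ) v u
      ≤ (G.edgeFinset.card : ℝ) + (∑ u, P u u) * ((∑ u, P u u) + 1) / 2
        + ∑ u, P u u ^ 2 * (1 - P u u) - (∑ u, ∑ v ∈ univ.erase u, S u v) / 2 := by
  set κ : ℝ := ∑ u, P u u with hκ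
  set c : V → V → ℝ := fun u v => if G.Adj u v then 1 else 0 with hc
  have hcsym : ∀ u v, c u v = c v u := by
    intro u v; simp only [hc, G.adj_comm u v]
  have hcdiag : ∀ u, c u u = 0 := by intro u; simp [hc]
  have hsym : ∀ u v, P v u = P u v := fun u v => congrFun (congrFun hs u) v
  have hdeg : ∀ u, (G.degree u : ℝ) = ∑ v, c u v := by
    intro u
    simp only [hc]
    rw [Finset.sum_boole, ← G.card_neighborFinset_eq_degree, G.neighborFinset_eq_filter]
  have h2m : 2 * (G.edgeFinset.card : ℝ) = ∑ u, ∑ v, c u v := by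
    have := G.sum_degrees_eq_twice_card_edges
    have h' : (∑ u, (G.degree u : ℝ)) = 2 * (G.edgeFinset.card : ℝ) := by exact_mod_cast this
    rw [← h']
    exact Finset.sum_congr rfl fun u _ => hdeg u
  -- the trace
  have htr : ∑ u, ∑ v, P u v * (G.degMatrix ℝ + G.adjMatrix ℝ) v u
      = ∑ u, ∑ v, c u v * (P u u + P u v) := by
    refine Finset.sum_congr rfl fun u _ => ?_
    have : ∀ v, P u v * (G.degMatrix ℝ + G.adjMatrix ℝ) v u
        = (if v = u then P u v * (G.degree v : ℝ) else 0) + c u v * P u v := by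
      intro v
      simp only [Matrix.add_apply, SimpleGraph.degMatrix, Matrix.diagonal_apply,
        SimpleGraph.adjMatrix_apply, hc, G.adj_comm v u]
      split_ifs <;> ring
    rw [Finset.sum_congr rfl fun v _ => this v, Finset.sum_add_distrib,
      Finset.sum_ite_eq' univ u, if_pos (mem_univ u), hdeg u, Finset.mul_sum,
      ← Finset.sum_add_distrib]
    exact Finset.sum_congr rfl fun v _ => by ring
  have htr2 : 2 * (∑ u, ∑ v, P u v * (G.degMatrix ℝ + G.adjMatrix ℝ) v u)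
      = ∑ u, ∑ v, c u v * (P u u + P v v + 2 * P u v) := by
    have hsw : ∑ u, ∑ v, c u v * P u u = ∑ u, ∑ v, c u v * P v v := by
      rw [Finset.sum_comm]
      exact Finset.sum_congr rfl fun u _ => Finset.sum_congr rfl fun v _ => by rw [hcsym u v]
    rw [htr]
    have e1 : ∑ u, ∑ v, c u v * (P u u + P u v)
        = ∑ u, ∑ v, c u v * P u u + ∑ u, ∑ v, c u v * P u v := by
      rw [← Finset.sum_add_distrib]
      refine Finset.sum_congr rfl fun u _ => ?_
      rw [← Finset.sum_add_distrib]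
      exact Finset.sum_congr rfl fun v _ => by ring
    have e2 : ∑ u, ∑ v, c u v * (P u u + P v v + 2 * P u v)
        = ∑ u, ∑ v, c u v * P u u + ∑ u, ∑ v, c u v * P v v + 2 * ∑ u, ∑ v, c u v * P u v := by
      rw [Finset.mul_sum, ← Finset.sum_add_distrib, ← Finset.sum_add_distrib]
      refine Finset.sum_congr rfl fun u _ => ?_
      rw [Finset.mul_sum, ← Finset.sum_add_distrib, ← Finset.sum_add_distrib]
      exact Finset.sum_congr rfl fun v _ => by ring
    rw [e1, e2, ← hsw]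
    ring
  have hmain : ∑ u, ∑ v, c u v * (P u u + P v v + 2 * P u v) - ∑ u, ∑ v, c u v
      = ∑ u, ∑ v ∈ univ.erase u, c u v * (P u u + P v v + 2 * P u v - 1) := by
    rw [← Finset.sum_sub_distrib]
    refine Finset.sum_congr rfl fun u _ => ?_
    rw [Finset.sum_erase_eq_sub (mem_univ u), hcdiag u, ← Finset.sum_sub_distrib]
    rw [zero_mul, sub_zero]
    exact Finset.sum_congr rfl fun v _ => by ring
  set A : V → ℝ := fun u => 1 / (1 - P u u) - 1 / 2 with hA
  have hle : ∑ u, ∑ v ∈ univ.erase u, c u v * (P u u + P v v + 2 * P u v - 1)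
        + ∑ u, ∑ v ∈ univ.erase u, S u v
      ≤ ∑ u, ∑ v ∈ univ.erase u, (P u u * P v v + 2 * (P u u * P v v) * P u v
        + (A u * P u v ^ 2 + A v * P u v ^ 2)) := by
    rw [← Finset.sum_add_distrib]
    refine Finset.sum_le_sum fun u _ => ?_
    rw [← Finset.sum_add_distrib]
    exact Finset.sum_le_sum fun v hv => hS u v (Finset.ne_of_mem_erase hv)
  have hsplit : ∑ u, ∑ v ∈ univ.erase u, (P u u * P v v + 2 * (P u u * P v v) * P u v
        + (A u * P u v ^ 2 + A v * P u v ^ 2))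
      = ∑ u, ∑ v ∈ univ.erase u, P u u * P v v
        + 2 * ∑ u, ∑ v ∈ univ.erase u, P u u * P v v * P u v
        + (∑ u, ∑ v ∈ univ.erase u, A u * P u v ^ 2
          + ∑ u, ∑ v ∈ univ.erase u, A v * P u v ^ 2) := by
    rw [Finset.mul_sum, ← Finset.sum_add_distrib, ← Finset.sum_add_distrib,
      ← Finset.sum_add_distrib]
    refine Finset.sum_congr rfl fun u _ => ?_
    rw [Finset.mul_sum, ← Finset.sum_add_distrib, ← Finset.sum_add_distrib,
      ← Finset.sum_add_distrib]
    exact Finset.sum_congr rfl fun v _ => by ring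
  have hS1 : ∑ u, ∑ v ∈ univ.erase u, P u u * P v v = κ ^ 2 - ∑ u, P u u ^ 2 := by
    have : ∀ u, ∑ v ∈ univ.erase u, P u u * P v v = P u u * κ - P u u ^ 2 := by
      intro u
      rw [Finset.sum_erase_eq_sub (mem_univ u), ← Finset.mul_sum, sq]
    rw [Finset.sum_congr rfl fun u _ => this u, Finset.sum_sub_distrib, ← Finset.sum_mul, sq]
  have hS2 : ∑ u, ∑ v ∈ univ.erase u, P u u * P v v * P u v ≤ ∑ u, P u u ^ 2 * (1 - P u u) := by
    have h1 := quad_le hs hi (fun u => P u u)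
    have h2 : ∑ u, ∑ v ∈ univ.erase u, P u u * P v v * P u v
        = ∑ u, ∑ v, P u u * P v v * P u v - ∑ u, P u u ^ 2 * P u u := by
      rw [← Finset.sum_sub_distrib]
      refine Finset.sum_congr rfl fun u _ => ?_
      rw [Finset.sum_erase_eq_sub (mem_univ u), sq]
    have h3 : ∑ u, P u u ^ 2 * (1 - P u u) = ∑ u, P u u ^ 2 - ∑ u, P u u ^ 2 * P u u := by
      rw [← Finset.sum_sub_distrib]
      exact Finset.sum_congr rfl fun u _ => by ring
    rw [h2, h3]
    linarith
  have hS3 : ∑ u, ∑ v ∈ univ.erase u, A u * P u v ^ 2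
      ≤ ∑ u, (P u u - P u u * (1 - P u u) / 2) := by
    refine Finset.sum_le_sum fun u _ => ?_
    rw [← Finset.mul_sum, off_sq hs hi u]
    have hq := diag_le_one hs hi u
    simp only [hA]
    rcases eq_or_lt_of_le hq with h | h
    · rw [h]; norm_num
    · have : 0 < 1 - P u u := by linarith
      apply le_of_eq
      field_simp
  have hS4 : ∑ u, ∑ v ∈ univ.erase u, A v * P u v ^ 2
      = ∑ u, ∑ v ∈ univ.erase u, A u * P u v ^ 2 := by
    rw [sum_erase_swap]
    exact Finset.sum_congr rfl fun u _ => Finset.sum_congr rfl fun v _ => by rw [hsym u v]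
  have hS5 : ∑ u, (P u u - P u u * (1 - P u u) / 2) = κ / 2 + (∑ u, P u u ^ 2) / 2 := by
    have : ∀ u, P u u - P u u * (1 - P u u) / 2 = P u u / 2 + P u u ^ 2 / 2 := fun u => by ring
    rw [Finset.sum_congr rfl fun u _ => this u, Finset.sum_add_distrib, ← Finset.sum_div,
      ← Finset.sum_div]
  rw [hsplit, hS1, hS4] at hle
  rw [← hmain, ← htr2, ← h2m] at hle
  nlinarith [hle, hS2, hS3, hS5]

/-- Sum over ordered pairs of distinct vertices of a product. -/
theorem sum_erase_mul (a : V → ℝ) :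
    ∑ u, ∑ v ∈ univ.erase u, a u * a v = (∑ u, a u) ^ 2 - ∑ u, a u ^ 2 := by
  have : ∀ u, ∑ v ∈ univ.erase u, a u * a v = a u * (∑ v, a v) - a u ^ 2 := by
    intro u
    rw [Finset.sum_erase_eq_sub (mem_univ u), ← Finset.mul_sum, sq]
  rw [Finset.sum_congr rfl fun u _ => this u, Finset.sum_sub_distrib, ← Finset.sum_mul, sq]

/-- The error is at most one half. -/
theorem core_half (hs : P.transpose = P) (hi : P * P = P) (G : SimpleGraph V)
    [DecidableRel G.Adj] :
    ∑ u, ∑ v, P u v * (G.degMatrix ℝ + G.adjMatrix ℝ) v u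
      ≤ (G.edgeFinset.card : ℝ) + (∑ u, P u u) * ((∑ u, P u u) + 1) / 2
        - ((∑ u, P u u * (1 - P u u)) ^ 2 / 2 - ∑ u, P u u * (1 - P u u)) := by
  set S : V → V → ℝ := fun u v => (P u u * (1 - P u u)) * (P v v * (1 - P v v)) with hSdef
  have h := core_slack hs hi G S (by
    intro u v huv
    have hp := diag_nonneg hs hi u
    have hp' := diag_nonneg hs hi v
    by_cases hadj : G.Adj u v
    · have := pair_all' hs hi huv (c := 1) (b := 0) (Or.inr ⟨rfl, rfl⟩)
      simp only [hadj, if_true, hSdef]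
      linarith
    · have := pair_all' hs hi huv (c := 0) (b := 1) (Or.inl ⟨rfl, rfl⟩)
      have h0 : 0 ≤ P u u ^ 2 * P v v ^ 2 := by positivity
      simp only [hadj, if_false, hSdef]
      linarith)
  have h1 : ∑ u, ∑ v ∈ univ.erase u, S u v
      = (∑ u, P u u * (1 - P u u)) ^ 2 - ∑ u, (P u u * (1 - P u u)) ^ 2 :=
    sum_erase_mul (fun u => P u u * (1 - P u u))
  have h2 : ∑ u, P u u ^ 2 * (1 - P u u) + (∑ u, (P u u * (1 - P u u)) ^ 2) / 2
      ≤ ∑ u, P u u * (1 - P u u) := by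
    rw [Finset.sum_div, ← Finset.sum_add_distrib]
    refine Finset.sum_le_sum fun u _ => ?_
    have hp := diag_nonneg hs hi u
    have hq := diag_le_one hs hi u
    have h3 : 0 ≤ P u u * (1 - P u u) := mul_nonneg hp (by linarith)
    nlinarith [mul_nonneg h3 (by linarith : (0 : ℝ) ≤ 1 - P u u), mul_nonneg h3 h3,
      mul_nonneg (mul_nonneg h3 hp) (by linarith : (0 : ℝ) ≤ 1 - P u u)]
  rw [h1] at h
  linarith

/-- The estimate with the non-edge slack. -/
theorem core_non (hs : P.transpose = P) (hi : P * P = P) (G : SimpleGraph V)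
    [DecidableRel G.Adj] :
    ∑ u, ∑ v, P u v * (G.degMatrix ℝ + G.adjMatrix ℝ) v u
      ≤ (G.edgeFinset.card : ℝ) + (∑ u, P u u) * ((∑ u, P u u) + 1) / 2
        - ((∑ u, P u u * (1 - P u u)) ^ 2 + (∑ u, P u u * (1 - P u u)) / 2 - (∑ u, P u u)
          + ((∑ u, P u u ^ 2) ^ 2
            - ∑ u, ∑ v, P u u ^ 2 * G.adjMatrix ℝ u v * P v v ^ 2)) / 2 := by
  set g : V → ℝ := fun u => P u u * (1 - P u u) with hg
  set ψ : V → ℝ := fun u => P u u ^ 2 with hψ
  set S : V → V → ℝ := fun u v => g u * g v + (1 - G.adjMatrix ℝ u v) * (ψ u * ψ v) with hSdef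
  have h := core_slack hs hi G S (by
    intro u v huv
    by_cases hadj : G.Adj u v
    · have := pair_all' hs hi huv (c := 1) (b := 0) (Or.inr ⟨rfl, rfl⟩)
      simp only [hadj, if_true, hSdef, hg, hψ, SimpleGraph.adjMatrix_apply]
      linarith
    · have := pair_all' hs hi huv (c := 0) (b := 1) (Or.inl ⟨rfl, rfl⟩)
      simp only [hadj, if_false, hSdef, hg, hψ, SimpleGraph.adjMatrix_apply]
      linarith)
  have h1 : ∑ u, ∑ v ∈ univ.erase u, S u v
      = (∑ u, g u) ^ 2 - ∑ u, g u ^ 2 + ((∑ u, ψ u) ^ 2 - ∑ u, ψ u ^ 2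
        - ∑ u, ∑ v, ψ u * G.adjMatrix ℝ u v * ψ v) := by
    rw [← sum_erase_mul g, ← sum_erase_mul ψ]
    have e : ∑ u, ∑ v, ψ u * G.adjMatrix ℝ u v * ψ v
        = ∑ u, ∑ v ∈ univ.erase u, ψ u * G.adjMatrix ℝ u v * ψ v := by
      refine Finset.sum_congr rfl fun u _ => ?_
      rw [Finset.sum_erase_eq_sub (mem_univ u)]
      simp
    rw [e, ← Finset.sum_sub_distrib, ← Finset.sum_add_distrib]
    refine Finset.sum_congr rfl fun u _ => ?_
    rw [← Finset.sum_sub_distrib, ← Finset.sum_add_distrib]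
    exact Finset.sum_congr rfl fun v _ => by simp only [hSdef]; ring
  have h2 : ∑ u, P u u ^ 2 * (1 - P u u) + (∑ u, g u ^ 2) / 2 + (∑ u, ψ u ^ 2) / 2
      ≤ (∑ u, P u u) / 2 - (∑ u, g u) / 4 := by
    rw [Finset.sum_div, Finset.sum_div, Finset.sum_div, Finset.sum_div, ← Finset.sum_add_distrib,
      ← Finset.sum_add_distrib, ← Finset.sum_sub_distrib]
    refine Finset.sum_le_sum fun u _ => ?_
    simp only [hg, hψ]
    have hp := diag_nonneg hs hi u
    have hq := diag_le_one hs hi u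
    have h3 : 0 ≤ P u u * (1 - P u u) := mul_nonneg hp (by linarith)
    have e : P u u / 2 - P u u * (1 - P u u) / 4 - (P u u ^ 2 * (1 - P u u)
        + (P u u * (1 - P u u)) ^ 2 / 2 + (P u u ^ 2) ^ 2 / 2)
        = P u u * (1 - P u u) * (1 - 2 * P u u) ^ 2 / 4 := by ring
    have : 0 ≤ P u u * (1 - P u u) * (1 - 2 * P u u) ^ 2 / 4 := by positivity
    linarith
  rw [h1] at h
  linarith

/-- Passing to the complement: a bound with error `ε` for `Gᶜ` and `1 - P` gives a bound with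
error `ε - (3κ - 2n)` for `G` and `P`. -/
theorem compl_gen (hs : P.transpose = P) (hi : P * P = P)
    (G : SimpleGraph V) [DecidableRel G.Adj] [DecidableRel Gᶜ.Adj] {κ ε : ℝ}
    (hκ : ∑ u, P u u = κ)
    (hc : ∑ u, ∑ v, (1 - P) u v * (Gᶜ.degMatrix ℝ + Gᶜ.adjMatrix ℝ) v u
      ≤ (Gᶜ.edgeFinset.card : ℝ)
        + ((Fintype.card V : ℝ) - κ) * (((Fintype.card V : ℝ) - κ) + 1) / 2 + ε) :
    ∑ u, ∑ v, P u v * (G.degMatrix ℝ + G.adjMatrix ℝ) v u
      ≤ (G.edgeFinset.card : ℝ) + κ * (κ + 1) / 2 + ε - (3 * κ - 2 * (Fintype.card V : ℝ)) := by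
  set n : ℝ := (Fintype.card V : ℝ) with hn
  set R : Matrix V V ℝ := 1 - P with hR
  -- entries
  have hsum : ∀ u v, (G.degMatrix ℝ + G.adjMatrix ℝ) v u + (Gᶜ.degMatrix ℝ + Gᶜ.adjMatrix ℝ) v u
      = (if v = u then (n - 2) else 0) + 1 := by
    intro u v
    simp only [Matrix.add_apply, SimpleGraph.degMatrix, Matrix.diagonal_apply,
      SimpleGraph.adjMatrix_apply, SimpleGraph.compl_adj]
    by_cases h : v = u
    · subst h
      have hd := G.degree_compl v
      have hlt := G.degree_lt_card_verts v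
      have : ((Gᶜ.degree v : ℕ) : ℝ) = n - 1 - (G.degree v : ℝ) := by
        rw [hd, hn, Nat.cast_sub (by omega), Nat.cast_sub (by omega)]
        norm_num
      simp [this]
      ring
    · by_cases h' : G.Adj v u <;> simp [h, h']
  have hedge : (Gᶜ.edgeFinset.card : ℝ) = n * (n - 1) / 2 - (G.edgeFinset.card : ℝ) := by
    have h1 := G.sum_degrees_eq_twice_card_edges
    have h2 := Gᶜ.sum_degrees_eq_twice_card_edges
    have h1' : (∑ u, (G.degree u : ℝ)) = 2 * (G.edgeFinset.card : ℝ) := by exact_mod_cast h1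
    have h2' : (∑ u, (Gᶜ.degree u : ℝ)) = 2 * (Gᶜ.edgeFinset.card : ℝ) := by exact_mod_cast h2
    have h3 : ∀ v, ((Gᶜ.degree v : ℕ) : ℝ) = n - 1 - (G.degree v : ℝ) := by
      intro v
      have hd := G.degree_compl v
      have hlt := G.degree_lt_card_verts v
      rw [hd, hn, Nat.cast_sub (by omega), Nat.cast_sub (by omega)]
      norm_num
    rw [Finset.sum_congr rfl fun v _ => h3 v, Finset.sum_sub_distrib, h1'] at h2'
    simp only [Finset.sum_const, Finset.card_univ, nsmul_eq_mul] at h2'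
    rw [← hn] at h2'
    linarith
  have hRQ : ∑ u, ∑ v, R u v * (Gᶜ.degMatrix ℝ + Gᶜ.adjMatrix ℝ) v u
      = 2 * (Gᶜ.edgeFinset.card : ℝ)
        - ∑ u, ∑ v, P u v * (Gᶜ.degMatrix ℝ + Gᶜ.adjMatrix ℝ) v u := by
    have h2 := Gᶜ.sum_degrees_eq_twice_card_edges
    have h2' : (∑ u, (Gᶜ.degree u : ℝ)) = 2 * (Gᶜ.edgeFinset.card : ℝ) := by exact_mod_cast h2
    rw [← h2', ← Finset.sum_sub_distrib]
    refine Finset.sum_congr rfl fun u _ => ?_
    have : ∀ v, R u v * (Gᶜ.degMatrix ℝ + Gᶜ.adjMatrix ℝ) v u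
        = (if u = v then (Gᶜ.degMatrix ℝ + Gᶜ.adjMatrix ℝ) v u else 0)
          - P u v * (Gᶜ.degMatrix ℝ + Gᶜ.adjMatrix ℝ) v u := by
      intro v
      simp only [hR, Matrix.sub_apply, Matrix.one_apply]
      split_ifs <;> ring
    rw [Finset.sum_congr rfl fun v _ => this v, Finset.sum_sub_distrib, Finset.sum_ite_eq,
      if_pos (mem_univ u)]
    simp [Matrix.add_apply, SimpleGraph.degMatrix]
  have hPQ : ∑ u, ∑ v, P u v * (G.degMatrix ℝ + G.adjMatrix ℝ) v u
      = (n - 2) * κ + ∑ u, ∑ v, P u v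
        - ∑ u, ∑ v, P u v * (Gᶜ.degMatrix ℝ + Gᶜ.adjMatrix ℝ) v u := by
    rw [← hκ, Finset.mul_sum, ← Finset.sum_add_distrib, ← Finset.sum_sub_distrib]
    refine Finset.sum_congr rfl fun u _ => ?_
    have : ∀ v, P u v * (G.degMatrix ℝ + G.adjMatrix ℝ) v u
        = (if v = u then (n - 2) * P u v else 0) + P u v
          - P u v * (Gᶜ.degMatrix ℝ + Gᶜ.adjMatrix ℝ) v u := by
      intro v
      have h := hsum u v
      have h' : (G.degMatrix ℝ + G.adjMatrix ℝ) v u
        = (if v = u then (n - 2) else 0) + 1 - (Gᶜ.degMatrix ℝ + Gᶜ.adjMatrix ℝ) v u := by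
        linarith
      rw [h']
      split_ifs <;> ring
    rw [Finset.sum_congr rfl fun v _ => this v, Finset.sum_sub_distrib, Finset.sum_add_distrib,
      Finset.sum_ite_eq', if_pos (mem_univ u)]
  have hJ : ∑ u, ∑ v, P u v ≤ n := by
    have := quad_le hs hi (fun _ => (1 : ℝ))
    simpa [hn] using this
  rw [hRQ, hedge] at hc
  rw [hPQ]
  nlinarith [hc, hJ]

end proj

end Pool.Agent.H46.Brouwer
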