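import Pool.Agent.H46.BrouwerLocal

/-!
# The certificate for an induced four-cycle
-/

set_option autoImplicit false

namespace Pool.Agent.H46.Brouwer

open Finset Matrix

/-- The lower bound for the extra term of a non-edge. -/
theorem Xn_ge {a c : ℝ} (ha : 0 ≤ a) (ha1 : a ≤ 1) (hc : 0 ≤ c) (hc1 : c < 1) :
    a ^ 2 * c + a * c ^ 2 * (1 - a) ^ 2 ≤ Xn a c := by
  have hac : a * c < 1 := by nlinarith
  have h1 : 0 < 1 - a * c := by linarith
  have e : Xn a c - (a ^ 2 * c + a * c ^ 2 * (1 - a) ^ 2)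
      = a * c ^ 2 * (1 - a) ^ 2 * (a * c) / (1 - a * c) := by
    unfold Xn
    field_simp
    ring
  have : 0 ≤ a * c ^ 2 * (1 - a) ^ 2 * (a * c) / (1 - a * c) := by positivity
  linarith

/-- Lowering the larger vertex of a non-edge. -/
theorem lower {a c : ℝ} (hc : 0 ≤ c) (hca : c ≤ a) (ha1 : a ≤ 1) :
    ee c + (c ^ 2 * c + c * c ^ 2 * (1 - c) ^ 2) ≤ ee a + (a ^ 2 * c + a * c ^ 2 * (1 - a) ^ 2) := by
  obtain ⟨q, rfl⟩ : ∃ q, a = 1 - q := ⟨1 - a, by ring⟩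
  have hq : 0 ≤ q := by linarith
  have hcq : c + q ≤ 1 := by linarith
  set K : ℝ := 1 / 2 * (q - 2 * c) ^ 2 + 1 / 2 * c ^ 2 - 3 / 2 * c ^ 3
    + 1 / 2 * q * (q ^ 2 - c * q + c ^ 2) + c ^ 2 * (q ^ 2 - c * q + c ^ 2) with hK
  have hid : ee (1 - q) + ((1 - q) ^ 2 * c + (1 - q) * c ^ 2 * (1 - (1 - q)) ^ 2)
      - (ee c + (c ^ 2 * c + c * c ^ 2 * (1 - c) ^ 2)) = (1 - q - c) * K := by
    rw [hK]; unfold ee; ring
  have h1 : 3 / 4 * c ^ 2 ≤ q ^ 2 - c * q + c ^ 2 := by nlinarith [sq_nonneg (q - c / 2)]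
  have h2 : 3 / 4 * c ^ 4 ≤ c ^ 2 * (q ^ 2 - c * q + c ^ 2) := by
    have := mul_le_mul_of_nonneg_left h1 (sq_nonneg c)
    nlinarith [this]
  have h3 : 0 ≤ 1 / 2 * q * (q ^ 2 - c * q + c ^ 2) := by
    have : 0 ≤ q ^ 2 - c * q + c ^ 2 := by nlinarith [sq_nonneg c]
    positivity
  have hKn : 0 ≤ K := by
    rcases le_total c (1 / 3) with h | h
    · have : 0 ≤ 1 / 2 * c ^ 2 - 3 / 2 * c ^ 3 := by
        have : 0 ≤ c ^ 2 * (1 - 3 * c) := mul_nonneg (sq_nonneg c) (by linarith)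
        nlinarith [this]
      have h4 : 0 ≤ c ^ 4 := by positivity
      have h5 : 0 ≤ (q - 2 * c) ^ 2 := sq_nonneg _
      rw [hK]; linarith
    · have h5 : (3 * c - 1) ^ 2 ≤ (q - 2 * c) ^ 2 := by nlinarith
      have h6 : 0 ≤ 1 / 2 * (3 * c - 1) ^ 2 + 1 / 2 * c ^ 2 - 3 / 2 * c ^ 3 + 3 / 4 * c ^ 4 := by
        nlinarith [sq_nonneg (c ^ 2 - c), sq_nonneg (3 * c - 1), sq_nonneg (c - 1 / 3),
          sq_nonneg (c ^ 2 - 1 / 6), sq_nonneg (c * (c - 1 / 3))]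
      rw [hK]; linarith
  have : 0 ≤ (1 - q - c) * K := mul_nonneg (by linarith) hKn
  linarith

/-- Twice the vertex term with the lower bound of a non-edge between two equal values. -/
noncomputable def phi (p : ℝ) : ℝ := 2 * p - 5 * p ^ 2 + 6 * p ^ 3 - 3 * p ^ 4 + p ^ 5

theorem phi_eq (p : ℝ) : phi p = ee p + (ee p + (p ^ 2 * p + p * p ^ 2 * (1 - p) ^ 2)) := by
  unfold phi ee; ring

/-- The two opposite vertices of a non-edge. -/
theorem nonedge_ge {a c : ℝ} (hc : 0 ≤ c) (hca : c ≤ a) (ha1 : a ≤ 1) (hc1 : c < 1) :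
    phi c ≤ ee a + ee c + Xn a c := by
  have h1 := Xn_ge (hc.trans hca) ha1 hc hc1
  have h2 := lower hc hca ha1
  rw [phi_eq]
  linarith

theorem phi_quarter {p : ℝ} (h : 1 / 4 ≤ p) (h' : p ≤ 3 / 4) : 1 / 4 ≤ phi p := by
  unfold phi
  nlinarith [mul_nonneg (sub_nonneg.2 h) (sub_nonneg.2 h'), sq_nonneg (p - 1 / 2),
    sq_nonneg (p ^ 2 - p), sq_nonneg (p * (p - 1 / 2)), mul_nonneg (sub_nonneg.2 h) (sq_nonneg (p - 1 / 2)),
    mul_nonneg (sub_nonneg.2 h) (sq_nonneg (p * (p - 1 / 2)))]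

/-- The linear lower bound for the extra term of an edge. -/
theorem Xe_ge {b c x : ℝ} (hb : 0 ≤ b) (hb1 : b < 1) (hc : 0 ≤ c) (hc1 : c < 1)
    (hx : x ^ 2 ≤ c * b) :
    (1 - b * c) * (16 / 25 * ((1 - b) * (1 - c)) - 2 / 5 * (3 / 7 * b + 7 / 3 * c)) ≤ Xe c b x := by
  set g : ℝ := (1 - c) * (1 - b) with hg
  have hgpos : 0 < g := mul_pos (by linarith) (by linarith)
  have h1 : 0 ≤ 1 - b * c := by nlinarith
  have h2 : 2 * x ≤ 3 / 7 * b + 7 / 3 * c := by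
    by_contra hcon
    push Not at hcon
    have h3 : 0 ≤ 3 / 7 * b + 7 / 3 * c := by positivity
    nlinarith [sq_nonneg (3 / 7 * b - 7 / 3 * c)]
  have h3 : 16 / 25 * g - 2 / 5 * (2 * x) ≤ (x - g) ^ 2 / g := by
    rw [le_div_iff₀ hgpos]
    nlinarith [sq_nonneg (g - x - 2 / 5 * g)]
  have h4 : Xe c b x = (1 - b * c) * ((x - g) ^ 2 / g) := by
    unfold Xe
    rw [hg, mul_comm b c, mul_div_assoc]
  rw [h4]
  refine mul_le_mul_of_nonneg_left ?_ h1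
  have h5 : (1 - b) * (1 - c) = g := by rw [hg]; ring
  rw [h5]
  linarith

theorem poly_zero {b : ℝ} (h : 0 ≤ b) (h' : b ≤ 3 / 4) :
    1 / 2 ≤ (2 * b - 5 * b ^ 2 + 6 * b ^ 3 - 3 * b ^ 4 + b ^ 5)
      + 16 / 25 * (1 - b) - 6 / 35 * b := by
  nlinarith [mul_nonneg h (sq_nonneg (b ^ 2 - 13 / 10 * b + 42 / 100)),
    sq_nonneg (b * (b - 2 / 3)), sq_nonneg (b - 2 / 3), mul_nonneg h (sq_nonneg (b - 2 / 3)),
    mul_nonneg h (sq_nonneg (b * (b - 2 / 3))), mul_nonneg h (sub_nonneg.2 h'),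
    mul_nonneg (mul_nonneg h (sub_nonneg.2 h')) (sq_nonneg (b - 2 / 3))]

theorem poly_quarter {b : ℝ} (h : 0 ≤ b) (h' : b ≤ 3 / 4) :
    1 / 2 ≤ (2 * (1 / 4) - 5 * (1 / 4 : ℝ) ^ 2 + 6 * (1 / 4) ^ 3 - 3 * (1 / 4) ^ 4 + (1 / 4) ^ 5)
      + (2 * b - 5 * b ^ 2 + 6 * b ^ 3 - 3 * b ^ 4 + b ^ 5)
      + (1 - b / 4) * (16 / 25 * (3 / 4 * (1 - b)) - 2 / 5 * (3 / 7 * b + 7 / 12)) := by
  nlinarith [mul_nonneg h (sq_nonneg (b ^ 2 - 13 / 10 * b + 42 / 100)),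
    sq_nonneg (b * (b - 2 / 3)), sq_nonneg (b - 2 / 3), mul_nonneg h (sq_nonneg (b - 2 / 3)),
    mul_nonneg h (sq_nonneg (b * (b - 2 / 3))), mul_nonneg h (sub_nonneg.2 h'),
    mul_nonneg (mul_nonneg h (sub_nonneg.2 h')) (sq_nonneg (b - 2 / 3)),
    sq_nonneg (b - 1 / 2), mul_nonneg h (sq_nonneg (b - 1 / 2))]

/-- The inequality in two variables. -/
theorem poly_two {b c : ℝ} (hb : 0 ≤ b) (hb' : b ≤ 3 / 4) (hc : 0 ≤ c) (hc' : c ≤ 1 / 4) :
    1 / 2 ≤ phi c + phi b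
      + (1 - b * c) * (16 / 25 * ((1 - b) * (1 - c)) - 2 / 5 * (3 / 7 * b + 7 / 3 * c)) := by
  have h0 := poly_zero hb hb'
  have h1 := poly_quarter hb hb'
  set K : ℝ := 5 - 6 * (c + 1 / 4) + 3 * (c ^ 2 + c / 4 + 1 / 16)
    - (c ^ 3 + c ^ 2 / 4 + c / 16 + 1 / 64) - b * (16 / 25 * (1 - b) + 14 / 15) with hK
  have hKn : 0 ≤ K := by
    have e1 : c ^ 3 ≤ c ^ 2 := by nlinarith [sq_nonneg c]
    have e2 : b * (16 / 25 * (1 - b) + 14 / 15) ≤ 3 / 4 * (16 / 25 + 14 / 15) := by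
      nlinarith
    have e3 : 0 ≤ c ^ 2 := sq_nonneg c
    rw [hK]
    linarith
  have h2 : 0 ≤ c * (1 / 4 - c) * K := mul_nonneg (mul_nonneg hc (by linarith)) hKn
  have h3 := mul_nonneg (show (0 : ℝ) ≤ 1 - 4 * c by linarith) (sub_nonneg.2 h0)
  have h4 := mul_nonneg (show (0 : ℝ) ≤ 4 * c by linarith) (sub_nonneg.2 h1)
  have e : phi c + phi b
      + (1 - b * c) * (16 / 25 * ((1 - b) * (1 - c)) - 2 / 5 * (3 / 7 * b + 7 / 3 * c)) - 1 / 2
      = (1 - 4 * c) * (((2 * b - 5 * b ^ 2 + 6 * b ^ 3 - 3 * b ^ 4 + b ^ 5)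
        + 16 / 25 * (1 - b) - 6 / 35 * b) - 1 / 2)
      + 4 * c * (((2 * (1 / 4) - 5 * (1 / 4 : ℝ) ^ 2 + 6 * (1 / 4) ^ 3 - 3 * (1 / 4) ^ 4
        + (1 / 4) ^ 5) + (2 * b - 5 * b ^ 2 + 6 * b ^ 3 - 3 * b ^ 4 + b ^ 5)
        + (1 - b / 4) * (16 / 25 * (3 / 4 * (1 - b)) - 2 / 5 * (3 / 7 * b + 7 / 12))) - 1 / 2)
      + c * (1 / 4 - c) * K := by
    rw [hK]; unfold phi; ring
  linarith

/-- The certificate with sorted values: `c` is the lowest of the four, `a` its opposite and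
`b ≤ d` the other two. -/
theorem cert {a b c d x : ℝ} (hc : 0 ≤ c) (hca : c ≤ a) (hcb : c ≤ b) (hbd : b ≤ d)
    (ha1 : a ≤ 1) (hd1 : d ≤ 1) (hb' : b ≤ 3 / 4) (hx : x ^ 2 ≤ c * b) :
    1 / 2 ≤ ee a + ee b + ee c + ee d + Xn a c + Xn d b + Xe c b x := by
  have h1 : phi c ≤ ee a + ee c + Xn a c := nonedge_ge hc hca ha1 (by linarith)
  have h2 : phi b ≤ ee d + ee b + Xn d b := nonedge_ge (hc.trans hcb) hbd hd1 (by linarith)
  rcases le_total c (1 / 4) with h | h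
  · have h3 := Xe_ge (hc.trans hcb) (by linarith) hc (by linarith) hx
    have h4 := poly_two (hc.trans hcb) hb' hc h
    linarith
  · have h3 : 0 ≤ Xe c b x := Xe_nonneg hc (by linarith) (hc.trans hcb) (by linarith)
    have h4 := phi_quarter h (by linarith)
    have h5 := phi_quarter (h.trans hcb) hb'
    linarith

variable {V : Type} [Fintype V] [DecidableEq V]

/-- One of two non-adjacent vertices has value at most `3/4`. -/
theorem le_three_quarters {P : Matrix V V ℝ} (hs : P.transpose = P) (hi : P * P = P) {u v : V}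
    (huv : u ≠ v) (hf : P u u + P v v + 2 * P u v - 1 ≤ 0) (hle : P u u ≤ P v v) :
    P u u ≤ 3 / 4 := by
  by_contra hcon
  push Not at hcon
  have h1 := entry_sq_le' hs hi huv
  have h2 := diag_le_one hs hi u
  have h3 := diag_le_one hs hi v
  have h4 : (1 - P u u) * (1 - P v v) ≤ 1 / 16 := by nlinarith
  have h5 : 2 * P u v < -(1 / 2) := by linarith
  nlinarith

/-- The sorted case. -/
theorem four_sorted {P : Matrix V V ℝ} (hs : P.transpose = P) (hi : P * P = P)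
    (G : SimpleGraph V) [DecidableRel G.Adj]
    (hN : ∀ u v, u ≠ v → ¬ G.Adj u v → P u u + P v v + 2 * P u v - 1 ≤ 0)
    {a b c d : V} (hab : G.Adj a b) (hbc : G.Adj b c) (hcd : G.Adj c d) (hda : G.Adj d a)
    (hac : a ≠ c) (hbd : b ≠ d) (hac' : ¬ G.Adj a c) (hbd' : ¬ G.Adj b d)
    (h1 : P c c ≤ P a a) (h2 : P c c ≤ P b b) (h3 : P b b ≤ P d d) : Bound P G := by
  refine bound_of_four hs hi G (G.ne_of_adj hab) hac (G.ne_of_adj hda).symm (G.ne_of_adj hbc)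
    hbd (G.ne_of_adj hcd) ?_
  have hb34 := le_three_quarters hs hi hbd (hN b d hbd hbd') h3
  have hx : P c b ^ 2 ≤ P c c * P b b := entry_sq_le hs hi c b
  have h := cert (diag_nonneg hs hi c) h1 h2 h3 (diag_le_one hs hi a) (diag_le_one hs hi d) hb34 hx
  have e1 : XX P G a c = Xn (P a a) (P c c) := XX_not hac'
  have e2 : XX P G b d = Xn (P d d) (P b b) := by rw [XX_not hbd', Xn_comm]
  have e3 : XX P G b c = Xe (P c c) (P b b) (P c b) := by
    rw [XX_comm hs G b c, XX_adj hbc.symm]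
  have p1 := XX_nonneg hs hi G a b
  have p2 := XX_nonneg hs hi G a d
  have p3 := XX_nonneg hs hi G c d
  rw [e1, e2, e3]
  linarith

/-- The minimum at `c`. -/
theorem four_min {P : Matrix V V ℝ} (hs : P.transpose = P) (hi : P * P = P)
    (G : SimpleGraph V) [DecidableRel G.Adj]
    (hN : ∀ u v, u ≠ v → ¬ G.Adj u v → P u u + P v v + 2 * P u v - 1 ≤ 0)
    {a b c d : V} (hab : G.Adj a b) (hbc : G.Adj b c) (hcd : G.Adj c d) (hda : G.Adj d a)
    (hac : a ≠ c) (hbd : b ≠ d) (hac' : ¬ G.Adj a c) (hbd' : ¬ G.Adj b d)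
    (h1 : P c c ≤ P a a) (h2 : P c c ≤ P b b) (h3 : P c c ≤ P d d) : Bound P G := by
  rcases le_total (P b b) (P d d) with h | h
  · exact four_sorted hs hi G hN hab hbc hcd hda hac hbd hac' hbd' h1 h2 h
  · exact four_sorted hs hi G hN hda.symm hcd.symm hbc.symm hab.symm hac hbd.symm hac'
      (fun h' => hbd' h'.symm) h1 h3 h

/-- The inequality for a reduced pair with an induced four-cycle. -/
theorem bound_C4 (V : Type) [Fintype V] [DecidableEq V] (P : Matrix V V ℝ)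
    (hs : P.transpose = P) (hi : P * P = P) (G : SimpleGraph V) [DecidableRel G.Adj]
    (_hE : ∀ u v, G.Adj u v → 0 ≤ P u u + P v v + 2 * P u v - 1)
    (hN : ∀ u v, u ≠ v → ¬ G.Adj u v → P u u + P v v + 2 * P u v - 1 ≤ 0)
    (a b c d : V) (hab : G.Adj a b) (hbc : G.Adj b c) (hcd : G.Adj c d) (hda : G.Adj d a)
    (hac : a ≠ c) (hbd : b ≠ d) (hac' : ¬ G.Adj a c) (hbd' : ¬ G.Adj b d) : Bound P G := by
  have hca' : ¬ G.Adj c a := fun h' => hac' h'.symm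
  have hdb' : ¬ G.Adj d b := fun h' => hbd' h'.symm
  rcases le_total (P a a) (P c c) with h1 | h1 <;> rcases le_total (P b b) (P d d) with h2 | h2
  · rcases le_total (P a a) (P b b) with h3 | h3
    · exact four_min hs hi G hN hcd hda hab hbc hac.symm hbd.symm hca' hdb' h1 (h3.trans h2) h3
    · exact four_min hs hi G hN hda hab hbc hcd hbd.symm hac hdb' hac' h2 h3 (h3.trans h1)
  · rcases le_total (P a a) (P d d) with h3 | h3
    · exact four_min hs hi G hN hcd hda hab hbc hac.symm hbd.symm hca' hdb' h1 h3 (h3.trans h2)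
    · exact four_min hs hi G hN hbc hcd hda hab hbd hac.symm hbd' hca' h2 (h3.trans h1) h3
  · rcases le_total (P c c) (P b b) with h3 | h3
    · exact four_min hs hi G hN hab hbc hcd hda hac hbd hac' hbd' h1 h3 (h3.trans h2)
    · exact four_min hs hi G hN hda hab hbc hcd hbd.symm hac hdb' hac' h2 (h3.trans h1) h3
  · rcases le_total (P c c) (P d d) with h3 | h3
    · exact four_min hs hi G hN hab hbc hcd hda hac hbd hac' hbd' h1 (h3.trans h2) h3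
    · exact four_min hs hi G hN hbc hcd hda hab hbd hac.symm hbd' hca' h2 h3 (h3.trans h1)

end Pool.Agent.H46.Brouwer
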