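import Mathlib

/-!
# Sums of signless Laplacian eigenvalues: the basic projection inequality

For a real symmetric idempotent matrix `P` with diagonal `p` and a graph `G` with signless
Laplacian `Q`, `tr (P Q) ≤ m + κ(κ+1)/2 + ∑ p² (1 - p)`, where `κ = tr P`.
-/

set_option autoImplicit false

namespace Pool.Agent.H46.Brouwer

open Finset Matrix

variable {V : Type*} [Fintype V] [DecidableEq V]

/-- The pairwise inequality for an edge. -/
theorem pair_edge {p p' x : ℝ} (hp : 0 ≤ p) (hp' : 0 ≤ p') (hq : p < 1) (hq' : p' < 1) :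
    p + p' + 2 * x - 1 ≤ p * p' + 2 * (p * p') * x
      + ((1 / (1 - p) - 1 / 2) + (1 / (1 - p') - 1 / 2)) * x ^ 2 := by
  have h1 : 0 < 1 - p := by linarith
  have h2 : 0 < 1 - p' := by linarith
  have key : 0 ≤ (1 - p * p') * (x - (1 - p) * (1 - p')) ^ 2
      + (p * p') * ((1 - p) * (1 - p')) ^ 2 := by
    have : 0 ≤ 1 - p * p' := by nlinarith
    positivity
  have e : p * p' + 2 * (p * p') * x
      + ((1 / (1 - p) - 1 / 2) + (1 / (1 - p') - 1 / 2)) * x ^ 2 - (p + p' + 2 * x - 1)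
      = ((1 - p * p') * (x - (1 - p) * (1 - p')) ^ 2
      + (p * p') * ((1 - p) * (1 - p')) ^ 2) / ((1 - p) * (1 - p')) := by
    field_simp
    ring
  have : 0 ≤ ((1 - p * p') * (x - (1 - p) * (1 - p')) ^ 2
      + (p * p') * ((1 - p) * (1 - p')) ^ 2) / ((1 - p) * (1 - p')) := by positivity
  linarith

/-- The pairwise inequality for a non-edge. -/
theorem pair_non {p p' x : ℝ} (hp : 0 ≤ p) (hp' : 0 ≤ p') (hq : p < 1) (hq' : p' < 1) :
    0 ≤ p * p' + 2 * (p * p') * x
      + ((1 / (1 - p) - 1 / 2) + (1 / (1 - p') - 1 / 2)) * x ^ 2 := by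
  have h1 : 0 < 1 - p := by linarith
  have h2 : 0 < 1 - p' := by linarith
  have hb : 0 ≤ p * p' := mul_nonneg hp hp'
  have e : ((1 / (1 - p) - 1 / 2) + (1 / (1 - p') - 1 / 2))
      = (1 - p * p') / ((1 - p) * (1 - p')) := by
    field_simp
    ring
  have hx : 0 < (1 - p) * (1 - p') := mul_pos h1 h2
  have hle : p * p' ≤ (1 - p * p') / ((1 - p) * (1 - p')) := by
    rw [le_div_iff₀ hx]
    nlinarith [mul_nonneg hp h1.le, mul_nonneg hp' h2.le, mul_nonneg hb hx.le, sq_nonneg (p - p')]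
  rw [e]
  nlinarith [mul_nonneg hb (sq_nonneg (1 + x)), mul_nonneg (sub_nonneg.2 hle) (sq_nonneg x)]

section proj

variable {P : Matrix V V ℝ}

omit [DecidableEq V] in
theorem row_sq (hs : P.transpose = P) (hi : P * P = P) (u : V) :
    ∑ v, P u v ^ 2 = P u u := by
  have h := congrFun (congrFun hi u) u
  rw [Matrix.mul_apply] at h
  rw [← h]
  refine Finset.sum_congr rfl fun v _ => ?_
  have : P v u = P u v := congrFun (congrFun hs u) v
  rw [this, sq]

omit [DecidableEq V] in
theorem diag_nonneg (hs : P.transpose = P) (hi : P * P = P) (u : V) : 0 ≤ P u u := by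
  rw [← row_sq hs hi u]
  exact Finset.sum_nonneg fun v _ => sq_nonneg _

theorem off_sq (hs : P.transpose = P) (hi : P * P = P) (u : V) :
    ∑ v ∈ univ.erase u, P u v ^ 2 = P u u * (1 - P u u) := by
  rw [Finset.sum_erase_eq_sub (mem_univ u), row_sq hs hi u]
  ring

theorem diag_le_one (hs : P.transpose = P) (hi : P * P = P) (u : V) : P u u ≤ 1 := by
  have h := off_sq hs hi u
  have h0 : 0 ≤ ∑ v ∈ univ.erase u, P u v ^ 2 := Finset.sum_nonneg fun v _ => sq_nonneg _
  have h1 := diag_nonneg hs hi u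
  by_contra hc
  push Not at hc
  nlinarith

theorem off_zero (hs : P.transpose = P) (hi : P * P = P) {u v : V} (huv : v ≠ u)
    (h : P u u = 1) : P u v = 0 := by
  have h1 := off_sq hs hi u
  rw [h] at h1
  have h2 : ∑ v ∈ univ.erase u, P u v ^ 2 = 0 := by rw [h1]; ring
  have := (Finset.sum_eq_zero_iff_of_nonneg (fun v _ => sq_nonneg (P u v))).1 h2 v
    (mem_erase.2 ⟨huv, mem_univ v⟩)
  exact pow_eq_zero_iff (two_ne_zero) |>.1 this

omit [DecidableEq V] in
theorem quad_le (hs : P.transpose = P) (hi : P * P = P) (w : V → ℝ) :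
    ∑ u, ∑ v, w u * w v * P u v ≤ ∑ u, w u ^ 2 := by
  have h0 : 0 ≤ (w - P *ᵥ w) ⬝ᵥ (w - P *ᵥ w) := by
    simp only [dotProduct]
    exact Finset.sum_nonneg fun i _ => mul_self_nonneg _
  have h1 : (P *ᵥ w) ⬝ᵥ (P *ᵥ w) = w ⬝ᵥ (P *ᵥ w) := by
    rw [Matrix.dotProduct_mulVec, Matrix.vecMul_mulVec, ← Matrix.mulVec_transpose, hs]
    rw [dotProduct_comm]
    congr 1
    rw [Matrix.transpose_mul, hs, hi]
  have h2 : (w - P *ᵥ w) ⬝ᵥ (w - P *ᵥ w) = w ⬝ᵥ w - w ⬝ᵥ (P *ᵥ w) := by
    rw [sub_dotProduct, dotProduct_sub, dotProduct_sub, h1, dotProduct_comm (P *ᵥ w) w]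
    ring
  rw [h2] at h0
  have h3 : w ⬝ᵥ (P *ᵥ w) = ∑ u, ∑ v, w u * w v * P u v := by
    simp only [dotProduct, mulVec, Finset.mul_sum]
    refine Finset.sum_congr rfl fun u _ => Finset.sum_congr rfl fun v _ => ?_
    ring
  have h4 : w ⬝ᵥ w = ∑ u, w u ^ 2 := by
    simp only [dotProduct, sq]
  rw [← h3, ← h4]
  linarith

/-- The pairwise inequality, in the form used for the sum over ordered pairs. -/
theorem pair_all (hs : P.transpose = P) (hi : P * P = P) {u v : V} (huv : v ≠ u)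
    {c : ℝ} (hc : c = 0 ∨ c = 1) :
    c * (P u u + P v v + 2 * P u v - 1) ≤ P u u * P v v + 2 * (P u u * P v v) * P u v
      + ((1 / (1 - P u u) - 1 / 2) * P u v ^ 2 + (1 / (1 - P v v) - 1 / 2) * P u v ^ 2) := by
  have hp := diag_nonneg hs hi u
  have hp' := diag_nonneg hs hi v
  have hq := diag_le_one hs hi u
  have hq' := diag_le_one hs hi v
  have hsym : P v u = P u v := congrFun (congrFun hs u) v
  rcases eq_or_lt_of_le hq with h | h
  · have hz := off_zero hs hi huv h
    rw [hz, h]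
    rcases hc with rfl | rfl
    · simp; exact hp'
    · simp
  rcases eq_or_lt_of_le hq' with h' | h'
  · have hz : P u v = 0 := by rw [← hsym]; exact off_zero hs hi huv.symm h'
    rw [hz, h']
    rcases hc with rfl | rfl
    · simp; exact hp
    · simp
  rw [← add_mul]
  rcases hc with rfl | rfl
  · rw [zero_mul]; exact pair_non hp hp' h h'
  · rw [one_mul]; exact pair_edge hp hp' h h'

theorem sum_erase_swap (f : V → V → ℝ) :
    ∑ u, ∑ v ∈ univ.erase u, f u v = ∑ u, ∑ v ∈ univ.erase u, f v u := by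
  have h : ∀ g : V → V → ℝ, ∑ u, ∑ v ∈ univ.erase u, g u v
      = ∑ u, ∑ v, g u v - ∑ u, g u u := by
    intro g
    rw [← Finset.sum_sub_distrib]
    exact Finset.sum_congr rfl fun u _ => Finset.sum_erase_eq_sub (mem_univ u)
  rw [h f, h fun u v => f v u, Finset.sum_comm]

/-- The basic inequality: `tr (P Q) ≤ m + κ(κ+1)/2 + ∑ p² (1 - p)`. -/
theorem core (hs : P.transpose = P) (hi : P * P = P) (G : SimpleGraph V) [DecidableRel G.Adj] :
    ∑ u, ∑ v, P u v * (G.degMatrix ℝ + G.adjMatrix ℝ) v u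
      ≤ (G.edgeFinset.card : ℝ) + (∑ u, P u u) * ((∑ u, P u u) + 1) / 2
        + ∑ u, P u u ^ 2 * (1 - P u u) := by
  set κ : ℝ := ∑ u, P u u with hκ
  set c : V → V → ℝ := fun u v => if G.Adj u v then 1 else 0 with hc
  have hcsym : ∀ u v, c u v = c v u := by
    intro u v; simp only [hc, G.adj_comm u v]
  have hcdiag : ∀ u, c u u = 0 := by intro u; simp [hc]
  have hsym : ∀ u v, P v u = P u v := fun u v => congrFun (congrFun hs u) v
  have hdeg : ∀ u, (G.degree u : ℝ) = ∑ v, c u v := by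
    intro u
    simp only [hc]
    rw [Finset.sum_boole, ← G.card_neighborFinset_eq_degree, G.neighborFinset_eq_filter]
  have h2m : 2 * (G.edgeFinset.card : ℝ) = ∑ u, ∑ v, c u v := by
    have := G.sum_degrees_eq_twice_card_edges
    have h' : (∑ u, (G.degree u : ℝ)) = 2 * (G.edgeFinset.card : ℝ) := by exact_mod_cast this
    rw [← h']
    exact Finset.sum_congr rfl fun u _ => hdeg u
  -- the trace
  have htr : ∑ u, ∑ v, P u v * (G.degMatrix ℝ + G.adjMatrix ℝ) v u
      = ∑ u, ∑ v, c u v * (P u u + P u v) := by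
    refine Finset.sum_congr rfl fun u _ => ?_
    have : ∀ v, P u v * (G.degMatrix ℝ + G.adjMatrix ℝ) v u
        = (if v = u then P u v * (G.degree v : ℝ) else 0) + c u v * P u v := by
      intro v
      simp only [Matrix.add_apply, SimpleGraph.degMatrix, Matrix.diagonal_apply,
        SimpleGraph.adjMatrix_apply, hc, G.adj_comm v u]
      split_ifs <;> ring
    rw [Finset.sum_congr rfl fun v _ => this v, Finset.sum_add_distrib,
      Finset.sum_ite_eq' univ u, if_pos (mem_univ u), hdeg u, Finset.mul_sum,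
      ← Finset.sum_add_distrib]
    exact Finset.sum_congr rfl fun v _ => by ring
  have htr2 : 2 * (∑ u, ∑ v, P u v * (G.degMatrix ℝ + G.adjMatrix ℝ) v u)
      = ∑ u, ∑ v, c u v * (P u u + P v v + 2 * P u v) := by
    have hsw : ∑ u, ∑ v, c u v * P u u = ∑ u, ∑ v, c u v * P v v := by
      rw [Finset.sum_comm]
      exact Finset.sum_congr rfl fun u _ => Finset.sum_congr rfl fun v _ => by rw [hcsym u v]
    rw [htr]
    have e1 : ∑ u, ∑ v, c u v * (P u u + P u v)
        = ∑ u, ∑ v, c u v * P u u + ∑ u, ∑ v, c u v * P u v := by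
      rw [← Finset.sum_add_distrib]
      refine Finset.sum_congr rfl fun u _ => ?_
      rw [← Finset.sum_add_distrib]
      exact Finset.sum_congr rfl fun v _ => by ring
    have e2 : ∑ u, ∑ v, c u v * (P u u + P v v + 2 * P u v)
        = ∑ u, ∑ v, c u v * P u u + ∑ u, ∑ v, c u v * P v v + 2 * ∑ u, ∑ v, c u v * P u v := by
      rw [Finset.mul_sum, ← Finset.sum_add_distrib, ← Finset.sum_add_distrib]
      refine Finset.sum_congr rfl fun u _ => ?_
      rw [Finset.mul_sum, ← Finset.sum_add_distrib, ← Finset.sum_add_distrib]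
      exact Finset.sum_congr rfl fun v _ => by ring
    rw [e1, e2, ← hsw]
    ring
  have hmain : ∑ u, ∑ v, c u v * (P u u + P v v + 2 * P u v) - ∑ u, ∑ v, c u v
      = ∑ u, ∑ v ∈ univ.erase u, c u v * (P u u + P v v + 2 * P u v - 1) := by
    rw [← Finset.sum_sub_distrib]
    refine Finset.sum_congr rfl fun u _ => ?_
    rw [Finset.sum_erase_eq_sub (mem_univ u), hcdiag u, ← Finset.sum_sub_distrib]
    rw [zero_mul, sub_zero]
    exact Finset.sum_congr rfl fun v _ => by ring
  set A : V → ℝ := fun u => 1 / (1 - P u u) - 1 / 2 with hA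
  have hle : ∑ u, ∑ v ∈ univ.erase u, c u v * (P u u + P v v + 2 * P u v - 1)
      ≤ ∑ u, ∑ v ∈ univ.erase u, (P u u * P v v + 2 * (P u u * P v v) * P u v
        + (A u * P u v ^ 2 + A v * P u v ^ 2)) := by
    refine Finset.sum_le_sum fun u _ => Finset.sum_le_sum fun v hv => ?_
    refine pair_all hs hi (Finset.ne_of_mem_erase hv) ?_
    simp only [hc]
    split_ifs
    · exact Or.inr rfl
    · exact Or.inl rfl
  have hsplit : ∑ u, ∑ v ∈ univ.erase u, (P u u * P v v + 2 * (P u u * P v v) * P u v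
        + (A u * P u v ^ 2 + A v * P u v ^ 2))
      = ∑ u, ∑ v ∈ univ.erase u, P u u * P v v
        + 2 * ∑ u, ∑ v ∈ univ.erase u, P u u * P v v * P u v
        + (∑ u, ∑ v ∈ univ.erase u, A u * P u v ^ 2
          + ∑ u, ∑ v ∈ univ.erase u, A v * P u v ^ 2) := by
    rw [Finset.mul_sum, ← Finset.sum_add_distrib, ← Finset.sum_add_distrib,
      ← Finset.sum_add_distrib]
    refine Finset.sum_congr rfl fun u _ => ?_
    rw [Finset.mul_sum, ← Finset.sum_add_distrib, ← Finset.sum_add_distrib,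
      ← Finset.sum_add_distrib]
    exact Finset.sum_congr rfl fun v _ => by ring
  have hS1 : ∑ u, ∑ v ∈ univ.erase u, P u u * P v v = κ ^ 2 - ∑ u, P u u ^ 2 := by
    have : ∀ u, ∑ v ∈ univ.erase u, P u u * P v v = P u u * κ - P u u ^ 2 := by
      intro u
      rw [Finset.sum_erase_eq_sub (mem_univ u), ← Finset.mul_sum, sq]
    rw [Finset.sum_congr rfl fun u _ => this u, Finset.sum_sub_distrib, ← Finset.sum_mul, sq]
  have hS2 : ∑ u, ∑ v ∈ univ.erase u, P u u * P v v * P u v ≤ ∑ u, P u u ^ 2 * (1 - P u u) := by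
    have h1 := quad_le hs hi (fun u => P u u)
    have h2 : ∑ u, ∑ v ∈ univ.erase u, P u u * P v v * P u v
        = ∑ u, ∑ v, P u u * P v v * P u v - ∑ u, P u u ^ 2 * P u u := by
      rw [← Finset.sum_sub_distrib]
      refine Finset.sum_congr rfl fun u _ => ?_
      rw [Finset.sum_erase_eq_sub (mem_univ u), sq]
    have h3 : ∑ u, P u u ^ 2 * (1 - P u u) = ∑ u, P u u ^ 2 - ∑ u, P u u ^ 2 * P u u := by
      rw [← Finset.sum_sub_distrib]
      exact Finset.sum_congr rfl fun u _ => by ring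
    rw [h2, h3]
    linarith
  have hS3 : ∑ u, ∑ v ∈ univ.erase u, A u * P u v ^ 2
      ≤ ∑ u, (P u u - P u u * (1 - P u u) / 2) := by
    refine Finset.sum_le_sum fun u _ => ?_
    rw [← Finset.mul_sum, off_sq hs hi u]
    have hp := diag_nonneg hs hi u
    have hq := diag_le_one hs hi u
    simp only [hA]
    rcases eq_or_lt_of_le hq with h | h
    · rw [h]; norm_num
    · have : 0 < 1 - P u u := by linarith
      apply le_of_eq
      field_simp
  have hS4 : ∑ u, ∑ v ∈ univ.erase u, A v * P u v ^ 2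
      = ∑ u, ∑ v ∈ univ.erase u, A u * P u v ^ 2 := by
    rw [sum_erase_swap]
    exact Finset.sum_congr rfl fun u _ => Finset.sum_congr rfl fun v _ => by rw [hsym u v]
  have hS5 : ∑ u, (P u u - P u u * (1 - P u u) / 2) = κ / 2 + (∑ u, P u u ^ 2) / 2 := by
    have : ∀ u, P u u - P u u * (1 - P u u) / 2 = P u u / 2 + P u u ^ 2 / 2 := fun u => by ring
    rw [Finset.sum_congr rfl fun u _ => this u, Finset.sum_add_distrib, ← Finset.sum_div,
      ← Finset.sum_div]
  rw [hsplit, hS1, hS4] at hle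
  rw [← hmain, ← htr2, ← h2m] at hle
  nlinarith [hle, hS2, hS3, hS5]

end proj

end Pool.Agent.H46.Brouwer
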