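import Mathlib

/-!
# Split graphs (Földes and Hammer)

A finite graph without induced `2K₂`, `C₄`, `C₅` has a clique whose complement is independent.
-/

set_option autoImplicit false

namespace Pool.Agent.H46.Split

open Finset

variable {V : Type*} [Fintype V] [DecidableEq V]

/-- The pairs of adjacent vertices outside `K`. -/
def outPairs (G : SimpleGraph V) [DecidableRel G.Adj] (K : Finset V) : Finset (V × V) :=
  univ.filter fun p => p.1 ∉ K ∧ p.2 ∉ K ∧ G.Adj p.1 p.2

theorem mem_outPairs {G : SimpleGraph V} [DecidableRel G.Adj] {K : Finset V} {p : V × V} :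
    p ∈ outPairs G K ↔ p.1 ∉ K ∧ p.2 ∉ K ∧ G.Adj p.1 p.2 := by
  simp [outPairs]

theorem split_of_free (G : SimpleGraph V)
    (h2 : ∀ a b c d, G.Adj a b → G.Adj c d → a ≠ c → a ≠ d → b ≠ c → b ≠ d →
      ¬ G.Adj a c → ¬ G.Adj a d → ¬ G.Adj b c → ¬ G.Adj b d → False)
    (h4 : ∀ a b c d, G.Adj a b → G.Adj b c → G.Adj c d → G.Adj d a → a ≠ c → b ≠ d →
      ¬ G.Adj a c → ¬ G.Adj b d → False)
    (h5 : ∀ a b c d e, G.Adj a b → G.Adj b c → G.Adj c d → G.Adj d e → G.Adj e a →
      a ≠ c → b ≠ d → c ≠ e → d ≠ a → e ≠ b →
      ¬ G.Adj a c → ¬ G.Adj b d → ¬ G.Adj c e → ¬ G.Adj d a → ¬ G.Adj e b → False) :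
    ∃ K : Finset V, (∀ u ∈ K, ∀ v ∈ K, u ≠ v → G.Adj u v) ∧
      ∀ u, u ∉ K → ∀ v, v ∉ K → ¬ G.Adj u v := by
  classical
  set C : Finset (Finset V) := univ.filter fun K => ∀ u ∈ K, ∀ v ∈ K, u ≠ v → G.Adj u v with hC
  have hmemC : ∀ K : Finset V, K ∈ C ↔ ∀ u ∈ K, ∀ v ∈ K, u ≠ v → G.Adj u v := by
    intro K; simp [hC]
  have hCne : C.Nonempty := ⟨∅, by simp [hC]⟩
  obtain ⟨K₀, hK₀, hmax⟩ := C.exists_max_image Finset.card hCne
  set C' : Finset (Finset V) := C.filter fun K => K.card = K₀.card with hC'
  obtain ⟨K, hK, hmin⟩ := C'.exists_min_image (fun K => (outPairs G K).card)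
    ⟨K₀, by simp [hC', hK₀]⟩
  have hKC : K ∈ C := (mem_filter.1 hK).1
  have hKcard : K.card = K₀.card := (mem_filter.1 hK).2
  have hKcl := (hmemC K).1 hKC
  refine ⟨K, hKcl, ?_⟩
  -- the main step, for an ordered pair
  have key : ∀ x y, x ∉ K → y ∉ K → G.Adj x y →
      (∀ u ∈ K, ¬ G.Adj x u → ¬ G.Adj y u) → False := by
    intro x y hx hy hxy hsub
    have hne : x ≠ y := G.ne_of_adj hxy
    -- a non-neighbour of `x` in `K`
    obtain ⟨u, huK, hxu⟩ : ∃ u ∈ K, ¬ G.Adj x u := by
      by_contra hcon
      push Not at hcon
      have hcl : insert x K ∈ C := by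
        rw [hmemC]
        intro a ha b hb hab
        rcases mem_insert.1 ha with rfl | ha'
        · rcases mem_insert.1 hb with rfl | hb'
          · exact absurd rfl hab
          · exact hcon b hb'
        · rcases mem_insert.1 hb with rfl | hb'
          · exact (hcon a ha').symm
          · exact hKcl a ha' b hb' hab
      have := hmax _ hcl
      rw [card_insert_of_notMem hx] at this
      omega
    have hyu := hsub u huK hxu
    have hux : u ≠ x := fun h => hx (h ▸ huK)
    have huy : u ≠ y := fun h => hy (h ▸ huK)
    have huniq : ∀ u' ∈ K, ¬ G.Adj x u' → u' = u := by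
      intro u' hu'K hxu'
      by_contra hne'
      have hu'x : u' ≠ x := fun h => hx (h ▸ hu'K)
      have hu'y : u' ≠ y := fun h => hy (h ▸ hu'K)
      exact h2 x y u u' hxy (hKcl u huK u' hu'K (Ne.symm hne')) hux.symm hu'x.symm huy.symm
        hu'y.symm hxu hxu' hyu (hsub u' hu'K hxu')
    -- a second non-neighbour of `y`
    obtain ⟨v, hvK, hvu, hyv⟩ : ∃ v ∈ K, v ≠ u ∧ ¬ G.Adj y v := by
      by_contra hcon
      push Not at hcon
      have hcl : insert x (insert y (K.erase u)) ∈ C := by
        rw [hmemC]
        have hxK : ∀ b ∈ K.erase u, G.Adj x b := by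
          intro b hb
          by_contra h
          exact (ne_of_mem_erase hb) (huniq b (mem_of_mem_erase hb) h)
        have hyK : ∀ b ∈ K.erase u, G.Adj y b := fun b hb =>
          hcon b (mem_of_mem_erase hb) (ne_of_mem_erase hb)
        intro a ha b hb hab
        rcases mem_insert.1 ha with rfl | ha'
        · rcases mem_insert.1 hb with rfl | hb'
          · exact absurd rfl hab
          · rcases mem_insert.1 hb' with rfl | hb''
            · exact hxy
            · exact hxK b hb''
        · rcases mem_insert.1 ha' with rfl | ha''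
          · rcases mem_insert.1 hb with rfl | hb'
            · exact hxy.symm
            · rcases mem_insert.1 hb' with rfl | hb''
              · exact absurd rfl hab
              · exact hyK b hb''
          · rcases mem_insert.1 hb with rfl | hb'
            · exact (hxK a ha'').symm
            · rcases mem_insert.1 hb' with rfl | hb''
              · exact (hyK a ha'').symm
              · exact hKcl a (mem_of_mem_erase ha'') b (mem_of_mem_erase hb'') hab
      have := hmax _ hcl
      rw [card_insert_of_notMem, card_insert_of_notMem, card_erase_of_mem huK] at this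
      · have hpos : 0 < K.card := card_pos.2 ⟨u, huK⟩
        omega
      · exact fun h => hy (mem_of_mem_erase h)
      · intro h
        rcases mem_insert.1 h with h | h
        · exact hne h
        · exact hx (mem_of_mem_erase h)
    have hxv : G.Adj x v := by
      by_contra h
      exact hvu (huniq v hvK h)
    have hvx : v ≠ x := fun h => hx (h ▸ hvK)
    have hvy : v ≠ y := fun h => hy (h ▸ hvK)
    -- the exchanged clique
    set K' : Finset V := insert x (K.erase u) with hK'
    have hK'C : K' ∈ C' := by
      rw [hC', mem_filter]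
      constructor
      · rw [hmemC]
        have hxK : ∀ b ∈ K.erase u, G.Adj x b := by
          intro b hb
          by_contra h
          exact (ne_of_mem_erase hb) (huniq b (mem_of_mem_erase hb) h)
        intro a ha b hb hab
        rcases mem_insert.1 ha with rfl | ha'
        · rcases mem_insert.1 hb with rfl | hb'
          · exact absurd rfl hab
          · exact hxK b hb'
        · rcases mem_insert.1 hb with rfl | hb'
          · exact (hxK a ha').symm
          · exact hKcl a (mem_of_mem_erase ha') b (mem_of_mem_erase hb') hab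
      · rw [hK', card_insert_of_notMem (fun h => hx (mem_of_mem_erase h)),
          card_erase_of_mem huK]
        have hpos : 0 < K.card := card_pos.2 ⟨u, huK⟩
        omega
    obtain ⟨z, hzK, hzx, hzu, hxz⟩ : ∃ z, z ∉ K ∧ z ≠ x ∧ G.Adj z u ∧ ¬ G.Adj x z := by
      by_contra hcon
      push Not at hcon
      have hlt : (outPairs G K').card < (outPairs G K).card := by
        have hinj : Function.Injective (Prod.map (Equiv.swap u x) (Equiv.swap u x)) :=
          Function.Injective.prodMap (Equiv.injective _) (Equiv.injective _)
        have himg : (outPairs G K').image (Prod.map (Equiv.swap u x) (Equiv.swap u x))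
            ⊂ outPairs G K := by
          have hout : ∀ a, a ∉ K' → a = u ∨ (a ∉ K ∧ a ≠ x) := by
            intro a ha
            by_cases hau : a = u
            · exact Or.inl hau
            · refine Or.inr ⟨fun h => ha (mem_insert_of_mem (mem_erase.2 ⟨hau, h⟩)), ?_⟩
              rintro rfl
              exact ha (mem_insert_self _ _)
          rw [Finset.ssubset_iff_of_subset]
          · refine ⟨(x, y), ?_, ?_⟩
            · rw [mem_outPairs]; exact ⟨hx, hy, hxy⟩
            · intro h
              obtain ⟨⟨a, b⟩, hab, he⟩ := mem_image.1 h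
              rw [mem_outPairs] at hab
              simp only [Prod.map_apply, Prod.mk.injEq] at he
              have ha : a = u := by
                have := congrArg (Equiv.swap u x) he.1
                rwa [Equiv.swap_apply_right, Equiv.swap_apply_self] at this
              have hb : b = y := by
                have := congrArg (Equiv.swap u x) he.2
                rwa [Equiv.swap_apply_of_ne_of_ne huy.symm hne.symm, Equiv.swap_apply_self] at this
              subst ha hb
              exact hyu hab.2.2.symm
          · intro p hp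
            obtain ⟨⟨a, b⟩, hab, rfl⟩ := mem_image.1 hp
            rw [mem_outPairs] at hab
            obtain ⟨ha, hb, hadj⟩ := hab
            rw [mem_outPairs]
            simp only [Prod.map_apply]
            rcases hout a ha with rfl | ⟨haK, hax⟩
            · rcases hout b hb with rfl | ⟨hbK, hbx⟩
              · exact absurd hadj (G.irrefl)
              · have hbu : b ≠ a := fun h => hbK (h ▸ huK)
                rw [Equiv.swap_apply_left, Equiv.swap_apply_of_ne_of_ne hbu hbx]
                exact ⟨hx, hbK, hcon b hbK hbx hadj.symm⟩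
            · have hau : a ≠ u := fun h => haK (h ▸ huK)
              rw [Equiv.swap_apply_of_ne_of_ne hau hax]
              rcases hout b hb with rfl | ⟨hbK, hbx⟩
              · rw [Equiv.swap_apply_left]
                exact ⟨haK, hx, (hcon a haK hax hadj).symm⟩
              · have hbu : b ≠ u := fun h => hbK (h ▸ huK)
                rw [Equiv.swap_apply_of_ne_of_ne hbu hbx]
                exact ⟨haK, hbK, hadj⟩
        have := card_lt_card himg
        rwa [card_image_of_injective _ hinj] at this
      have := hmin _ hK'C
      omega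
    have hzy : z ≠ y := by
      rintro rfl
      exact hyu hzu
    have hzu' : z ≠ u := G.ne_of_adj hzu
    have hzv : z ≠ v := fun h => hzK (h ▸ hvK)
    have hyz : G.Adj y z := by
      by_contra h
      exact h2 x y u z hxy hzu.symm hux.symm hzx.symm huy.symm hzy.symm hxu hxz hyu h
    by_cases hvz : G.Adj z v
    · exact h4 x y z v hxy hyz hvz hxv.symm hzx.symm hvy.symm hxz hyv
    · exact h5 x y z u v hxy hyz hzu (hKcl u huK v hvK hvu.symm) hxv.symm hzx.symm huy.symm hzv
        hux hvy hxz hyu hvz (fun h => hxu h.symm) (fun h => hyv h.symm)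
  intro x hx y hy hxy
  have hne : x ≠ y := G.ne_of_adj hxy
  by_cases hsub : ∀ u ∈ K, ¬ G.Adj x u → ¬ G.Adj y u
  · exact key x y hx hy hxy hsub
  · push Not at hsub
    obtain ⟨u, huK, hxu, hyu⟩ := hsub
    refine key y x hy hx hxy.symm fun v hvK hyv => ?_
    by_contra hxv
    have huv : u ≠ v := by
      rintro rfl
      exact hyv hyu
    have hux : x ≠ u := fun h => hx (h ▸ huK)
    have hvy : y ≠ v := fun h => hy (h ▸ hvK)
    exact h4 x y u v hxy hyu (hKcl u huK v hvK huv) hxv.symm hux hvy hxu hyv

end Pool.Agent.H46.Split
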