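import Pool.Agent.H46.BrouwerTwo
import Pool.Agent.H46.FoldesHammer

/-!
# Reduction of the signless Brouwer inequality to reduced pairs
-/

set_option autoImplicit false

namespace Pool.Agent.H46.Brouwer

open Finset Matrix

/-- The inequality `tr (P Q(G)) ≤ m + κ (κ + 1) / 2`, `κ = tr P`. -/
def Bound {V : Type} [Fintype V] [DecidableEq V] (P : Matrix V V ℝ) (G : SimpleGraph V)
    [DecidableRel G.Adj] : Prop :=
  ∑ u, ∑ v, P u v * (G.degMatrix ℝ + G.adjMatrix ℝ) v u
    ≤ (G.edgeFinset.card : ℝ) + (∑ u, P u u) * ((∑ u, P u u) + 1) / 2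

variable {V : Type} [Fintype V] [DecidableEq V]

/-- The trace in terms of the edges. -/
theorem trace_edges {P : Matrix V V ℝ} (hs : P.transpose = P) (G : SimpleGraph V)
    [DecidableRel G.Adj] :
    2 * (∑ u, ∑ v, P u v * (G.degMatrix ℝ + G.adjMatrix ℝ) v u) - 2 * (G.edgeFinset.card : ℝ)
      = ∑ u, ∑ v, (if G.Adj u v then (P u u + P v v + 2 * P u v - 1) else 0) := by
  set c : V → V → ℝ := fun u v => if G.Adj u v then 1 else 0 with hc
  have hcsym : ∀ u v, c u v = c v u := by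
    intro u v; simp only [hc, G.adj_comm u v]
  have hdeg : ∀ u, (G.degree u : ℝ) = ∑ v, c u v := by
    intro u
    simp only [hc]
    rw [Finset.sum_boole, ← G.card_neighborFinset_eq_degree, G.neighborFinset_eq_filter]
  have h2m : 2 * (G.edgeFinset.card : ℝ) = ∑ u, ∑ v, c u v := by
    have := G.sum_degrees_eq_twice_card_edges
    have h' : (∑ u, (G.degree u : ℝ)) = 2 * (G.edgeFinset.card : ℝ) := by exact_mod_cast this
    rw [← h']
    exact Finset.sum_congr rfl fun u _ => hdeg u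
  have htr : ∑ u, ∑ v, P u v * (G.degMatrix ℝ + G.adjMatrix ℝ) v u
      = ∑ u, ∑ v, c u v * (P u u + P u v) := by
    refine Finset.sum_congr rfl fun u _ => ?_
    have : ∀ v, P u v * (G.degMatrix ℝ + G.adjMatrix ℝ) v u
        = (if v = u then P u v * (G.degree v : ℝ) else 0) + c u v * P u v := by
      intro v
      simp only [Matrix.add_apply, SimpleGraph.degMatrix, Matrix.diagonal_apply,
        SimpleGraph.adjMatrix_apply, hc, G.adj_comm v u]
      split_ifs <;> ring
    rw [Finset.sum_congr rfl fun v _ => this v, Finset.sum_add_distrib,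
      Finset.sum_ite_eq' univ u, if_pos (mem_univ u), hdeg u, Finset.mul_sum,
      ← Finset.sum_add_distrib]
    exact Finset.sum_congr rfl fun v _ => by ring
  have e1 : ∑ u, ∑ v, c u v * (P u u + P u v)
      = ∑ u, ∑ v, c u v * (P v v + P u v) := by
    rw [Finset.sum_comm]
    refine Finset.sum_congr rfl fun u _ => Finset.sum_congr rfl fun v _ => ?_
    rw [hcsym v u, show P v u = P u v from congrFun (congrFun hs u) v]
  have e2 : 2 * ∑ u, ∑ v, c u v * (P u u + P u v)
      = ∑ u, ∑ v, c u v * (P u u + P v v + 2 * P u v) := by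
    rw [two_mul]
    nth_rewrite 2 [e1]
    rw [← Finset.sum_add_distrib]
    refine Finset.sum_congr rfl fun u _ => ?_
    rw [← Finset.sum_add_distrib]
    exact Finset.sum_congr rfl fun v _ => by ring
  rw [htr, e2, h2m, ← Finset.sum_sub_distrib]
  refine Finset.sum_congr rfl fun u _ => ?_
  rw [← Finset.sum_sub_distrib]
  refine Finset.sum_congr rfl fun v _ => ?_
  simp only [hc]
  split_ifs <;> ring

/-- The graph of the pairs with a positive value. -/
def posGraph (P : Matrix V V ℝ) (hs : P.transpose = P) : SimpleGraph V where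
  Adj u v := u ≠ v ∧ 0 < P u u + P v v + 2 * P u v - 1
  symm := ⟨fun u v h => ⟨h.1.symm, by
    have : P v u = P u v := congrFun (congrFun hs u) v
    rw [this]
    linarith [h.2]⟩⟩
  loopless := ⟨fun _ h => h.1 rfl⟩

/-- It is enough to prove the inequality for the graph of the positive pairs. -/
theorem bound_of_pos {P : Matrix V V ℝ} (hs : P.transpose = P) (G : SimpleGraph V)
    [DecidableRel G.Adj] [DecidableRel (posGraph P hs).Adj] (h : Bound P (posGraph P hs)) :
    Bound P G := by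
  unfold Bound at h ⊢
  have h1 := trace_edges hs G
  have h2 := trace_edges hs (posGraph P hs)
  have h3 : ∑ u, ∑ v, (if G.Adj u v then (P u u + P v v + 2 * P u v - 1) else 0)
      ≤ ∑ u, ∑ v, (if (posGraph P hs).Adj u v then (P u u + P v v + 2 * P u v - 1) else 0) := by
    refine Finset.sum_le_sum fun u _ => Finset.sum_le_sum fun v _ => ?_
    by_cases hG : G.Adj u v
    · rw [if_pos hG]
      by_cases hp : (posGraph P hs).Adj u v
      · rw [if_pos hp]
      · rw [if_neg hp]
        by_contra hcon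
        push Not at hcon
        exact hp ⟨G.ne_of_adj hG, hcon⟩
    · rw [if_neg hG]
      split_ifs with hp
      · exact hp.2.le
      · exact le_refl _
  linarith

/-- The reduction: the inequality for split graphs and for reduced pairs with an induced `2K₂`,
`C₄` or `C₅` gives it for all graphs. -/
theorem bound_all
    (hsplit : ∀ (V : Type) [Fintype V] [DecidableEq V] (P : Matrix V V ℝ), P.transpose = P →
      P * P = P → ∀ (k : ℕ), ∑ u, P u u = (k : ℝ) → ∀ (G : SimpleGraph V) [DecidableRel G.Adj]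
        (K : Finset V), (∀ u ∈ K, ∀ v ∈ K, u ≠ v → G.Adj u v) →
        (∀ u, u ∉ K → ∀ v, v ∉ K → ¬ G.Adj u v) → Bound P G)
    (h2K : ∀ (V : Type) [Fintype V] [DecidableEq V] (P : Matrix V V ℝ), P.transpose = P →
      P * P = P → ∀ (G : SimpleGraph V) [DecidableRel G.Adj],
      (∀ u v, G.Adj u v → 0 ≤ P u u + P v v + 2 * P u v - 1) →
      (∀ u v, u ≠ v → ¬ G.Adj u v → P u u + P v v + 2 * P u v - 1 ≤ 0) →
      ∀ a b c d, G.Adj a b → G.Adj c d → a ≠ c → a ≠ d → b ≠ c → b ≠ d →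
        ¬ G.Adj a c → ¬ G.Adj a d → ¬ G.Adj b c → ¬ G.Adj b d → Bound P G)
    (hC4 : ∀ (V : Type) [Fintype V] [DecidableEq V] (P : Matrix V V ℝ), P.transpose = P →
      P * P = P → ∀ (G : SimpleGraph V) [DecidableRel G.Adj],
      (∀ u v, G.Adj u v → 0 ≤ P u u + P v v + 2 * P u v - 1) →
      (∀ u v, u ≠ v → ¬ G.Adj u v → P u u + P v v + 2 * P u v - 1 ≤ 0) →
      ∀ a b c d, G.Adj a b → G.Adj b c → G.Adj c d → G.Adj d a → a ≠ c → b ≠ d →
        ¬ G.Adj a c → ¬ G.Adj b d → Bound P G)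
    (hC5 : ∀ (V : Type) [Fintype V] [DecidableEq V] (P : Matrix V V ℝ), P.transpose = P →
      P * P = P → ∀ (G : SimpleGraph V) [DecidableRel G.Adj],
      (∀ u v, G.Adj u v → 0 ≤ P u u + P v v + 2 * P u v - 1) →
      (∀ u v, u ≠ v → ¬ G.Adj u v → P u u + P v v + 2 * P u v - 1 ≤ 0) →
      ∀ a b c d e, G.Adj a b → G.Adj b c → G.Adj c d → G.Adj d e → G.Adj e a →
        a ≠ c → b ≠ d → c ≠ e → d ≠ a → e ≠ b →
        ¬ G.Adj a c → ¬ G.Adj b d → ¬ G.Adj c e → ¬ G.Adj d a → ¬ G.Adj e b → Bound P G)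
    {P : Matrix V V ℝ} (hs : P.transpose = P) (hi : P * P = P) {k : ℕ}
    (hk : ∑ u, P u u = (k : ℝ)) (G : SimpleGraph V) [DecidableRel G.Adj] : Bound P G := by
  classical
  refine bound_of_pos hs G ?_
  by_contra hcon
  set G' := posGraph P hs with hG'
  have hE : ∀ u v, G'.Adj u v → 0 ≤ P u u + P v v + 2 * P u v - 1 := fun u v h => h.2.le
  have hN : ∀ u v, u ≠ v → ¬ G'.Adj u v → P u u + P v v + 2 * P u v - 1 ≤ 0 := by
    intro u v huv h
    by_contra hc
    push Not at hc
    exact h ⟨huv, hc⟩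
  obtain ⟨K, hK1, hK2⟩ := Split.split_of_free G'
    (fun a b c d h1 h2 h3 h4 h5 h6 h7 h8 h9 h10 =>
      hcon (h2K V P hs hi G' hE hN a b c d h1 h2 h3 h4 h5 h6 h7 h8 h9 h10))
    (fun a b c d h1 h2 h3 h4 h5 h6 h7 h8 =>
      hcon (hC4 V P hs hi G' hE hN a b c d h1 h2 h3 h4 h5 h6 h7 h8))
    (fun a b c d e h1 h2 h3 h4 h5 h6 h7 h8 h9 h10 h11 h12 h13 h14 h15 =>
      hcon (hC5 V P hs hi G' hE hN a b c d e h1 h2 h3 h4 h5 h6 h7 h8 h9 h10 h11 h12 h13 h14 h15))
  exact hcon (hsplit V P hs hi k hk G' K hK1 hK2)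

/-- From the inequality for projections to the eigenvalues. -/
theorem eigen_of_bound (h : ∀ (P : Matrix V V ℝ), P.transpose = P → P * P = P → ∀ (k : ℕ),
      ∑ u, P u u = (k : ℝ) → ∀ (G : SimpleGraph V) [DecidableRel G.Adj], Bound P G)
    (G : SimpleGraph V) [DecidableRel G.Adj]
    (hQ : (G.degMatrix ℝ + G.adjMatrix ℝ).IsHermitian) (s : Finset V) :
    ∑ i ∈ s, hQ.eigenvalues i
      ≤ (G.edgeFinset.card : ℝ) + (s.card : ℝ) * ((s.card : ℝ) + 1) / 2 := by
  obtain ⟨P, hs, hi, htr, hsum⟩ := exists_proj hQ s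
  have := h P hs hi s.card htr G
  unfold Bound at this
  rw [htr, hsum] at this
  exact this

end Pool.Agent.H46.Brouwer
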