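import Pool.Agent.H46.BrouwerFinal

/-!
# Local certificates for the signless Brouwer inequality

With `p = P u u`, `e(p) = p (1-p)² (1-p/2)` and nonnegative extra terms for pairs, the inequality
holds as soon as the local sum over some set `W` of vertices is at least `1/2`.
-/

set_option autoImplicit false

namespace Pool.Agent.H46.Brouwer

open Finset Matrix

/-- The vertex term. -/
noncomputable def ee (p : ℝ) : ℝ := p * (1 - p) ^ 2 * (1 - p / 2)

/-- The extra term of an edge. -/
noncomputable def Xe (p p' x : ℝ) : ℝ :=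
  (1 - p * p') * (x - (1 - p) * (1 - p')) ^ 2 / ((1 - p) * (1 - p'))

/-- The extra term of a non-edge. -/
noncomputable def Xn (p p' : ℝ) : ℝ := p * p' * (p + p' - 2 * (p * p')) / (1 - p * p')

theorem ee_nonneg {p : ℝ} (hp : 0 ≤ p) (hp1 : p ≤ 1) : 0 ≤ ee p := by
  unfold ee
  have : 0 ≤ 1 - p / 2 := by linarith
  positivity

theorem Xe_nonneg {p p' x : ℝ} (hp : 0 ≤ p) (hp1 : p ≤ 1) (_hp' : 0 ≤ p') (hp1' : p' ≤ 1) :
    0 ≤ Xe p p' x := by
  unfold Xe
  have h1 : 0 ≤ 1 - p := by linarith
  have h2 : 0 ≤ 1 - p' := by linarith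
  have h3 : 0 ≤ 1 - p * p' := by nlinarith
  positivity

theorem Xn_nonneg {p p' : ℝ} (hp : 0 ≤ p) (hp1 : p ≤ 1) (hp' : 0 ≤ p') (hp1' : p' ≤ 1) :
    0 ≤ Xn p p' := by
  unfold Xn
  have h3 : 0 ≤ 1 - p * p' := by nlinarith
  have h4 : 0 ≤ p + p' - 2 * (p * p') := by nlinarith
  positivity

theorem Xe_comm (p p' x : ℝ) : Xe p p' x = Xe p' p x := by
  unfold Xe
  rw [mul_comm p p', mul_comm (1 - p) (1 - p')]

theorem Xn_comm (p p' : ℝ) : Xn p p' = Xn p' p := by
  unfold Xn
  rw [mul_comm p p', add_comm p p']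

variable {V : Type} [Fintype V] [DecidableEq V]

/-- The extra term of a pair of vertices. -/
noncomputable def XX (P : Matrix V V ℝ) (G : SimpleGraph V) [DecidableRel G.Adj] (u v : V) : ℝ :=
  if G.Adj u v then Xe (P u u) (P v v) (P u v) else Xn (P u u) (P v v)

omit [Fintype V] [DecidableEq V] in
theorem XX_adj {P : Matrix V V ℝ} {G : SimpleGraph V} [DecidableRel G.Adj] {u v : V}
    (h : G.Adj u v) : XX P G u v = Xe (P u u) (P v v) (P u v) := if_pos h

omit [Fintype V] [DecidableEq V] in
theorem XX_not {P : Matrix V V ℝ} {G : SimpleGraph V} [DecidableRel G.Adj] {u v : V}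
    (h : ¬ G.Adj u v) : XX P G u v = Xn (P u u) (P v v) := if_neg h

omit [Fintype V] [DecidableEq V] in
theorem XX_comm {P : Matrix V V ℝ} (hs : P.transpose = P) (G : SimpleGraph V)
    [DecidableRel G.Adj] (u v : V) : XX P G u v = XX P G v u := by
  have hsym : P v u = P u v := congrFun (congrFun hs u) v
  by_cases h : G.Adj u v
  · rw [XX_adj h, XX_adj h.symm, hsym, Xe_comm]
  · rw [XX_not h, XX_not (fun h' => h h'.symm), Xn_comm]

theorem XX_nonneg {P : Matrix V V ℝ} (hs : P.transpose = P) (hi : P * P = P) (G : SimpleGraph V)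
    [DecidableRel G.Adj] (u v : V) : 0 ≤ XX P G u v := by
  have hp := diag_nonneg hs hi u
  have hp' := diag_nonneg hs hi v
  have hq := diag_le_one hs hi u
  have hq' := diag_le_one hs hi v
  by_cases h : G.Adj u v
  · rw [XX_adj h]; exact Xe_nonneg hp hq hp' hq'
  · rw [XX_not h]; exact Xn_nonneg hp hq hp' hq'

/-- The pairwise inequality with the full extra term. -/
theorem pair_XX {P : Matrix V V ℝ} (hs : P.transpose = P) (hi : P * P = P) (G : SimpleGraph V)
    [DecidableRel G.Adj] {u v : V} (huv : v ≠ u) :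
    (if G.Adj u v then (1 : ℝ) else 0) * (P u u + P v v + 2 * P u v - 1)
        + ((P u u * (1 - P u u)) * (P v v * (1 - P v v)) + XX P G u v)
      ≤ P u u * P v v + 2 * (P u u * P v v) * P u v
      + ((1 / (1 - P u u) - 1 / 2) * P u v ^ 2 + (1 / (1 - P v v) - 1 / 2) * P u v ^ 2) := by
  have hp := diag_nonneg hs hi u
  have hp' := diag_nonneg hs hi v
  have hq := diag_le_one hs hi u
  have hq' := diag_le_one hs hi v
  have hsym : P v u = P u v := congrFun (congrFun hs u) v
  by_cases hadj : G.Adj u v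
  · rw [XX_adj hadj, if_pos hadj, one_mul]
    rcases eq_or_lt_of_le hq with h | h
    · have hz := off_zero hs hi huv h
      unfold Xe
      rw [hz, h]
      simp
    rcases eq_or_lt_of_le hq' with h' | h'
    · have hz : P u v = 0 := by rw [← hsym]; exact off_zero hs hi huv.symm h'
      unfold Xe
      rw [hz, h']
      simp
    rw [← add_mul]
    apply le_of_eq
    have h1 : 1 - P u u ≠ 0 := by linarith
    have h2 : 1 - P v v ≠ 0 := by linarith
    unfold Xe
    field_simp
    ring
  · rw [XX_not hadj, if_neg hadj, zero_mul, zero_add]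
    rcases eq_or_lt_of_le hq with h | h
    · have hz := off_zero hs hi huv h
      unfold Xn
      rw [hz, h]
      rcases eq_or_lt_of_le hq' with h' | h'
      · rw [h']; norm_num
      · have : 1 - P v v ≠ 0 := by linarith
        apply le_of_eq
        field_simp
        ring
    rcases eq_or_lt_of_le hq' with h' | h'
    · have hz : P u v = 0 := by rw [← hsym]; exact off_zero hs hi huv.symm h'
      unfold Xn
      rw [hz, h']
      have : 1 - P u u ≠ 0 := by linarith
      apply le_of_eq
      field_simp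
      ring
    rw [← add_mul]
    have h1 : 0 < 1 - P u u := by linarith
    have h2 : 0 < 1 - P v v := by linarith
    have h3 : 0 < 1 - P u u * P v v := by nlinarith
    have e : P u u * P v v + 2 * (P u u * P v v) * P u v
        + ((1 / (1 - P u u) - 1 / 2) + (1 / (1 - P v v) - 1 / 2)) * P u v ^ 2
        - ((P u u * (1 - P u u)) * (P v v * (1 - P v v)) + Xn (P u u) (P v v))
        = ((1 - P u u * P v v) * P u v + (P u u * P v v) * ((1 - P u u) * (1 - P v v))) ^ 2
          / ((1 - P u u * P v v) * ((1 - P u u) * (1 - P v v))) := by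
      unfold Xn
      field_simp
      ring
    have : 0 ≤ ((1 - P u u * P v v) * P u v + (P u u * P v v) * ((1 - P u u) * (1 - P v v))) ^ 2
          / ((1 - P u u * P v v) * ((1 - P u u) * (1 - P v v))) := by positivity
    linarith

/-- The local criterion. -/
theorem bound_of_local {P : Matrix V V ℝ} (hs : P.transpose = P) (hi : P * P = P)
    (G : SimpleGraph V) [DecidableRel G.Adj] (W : Finset V)
    (hW : 1 / 2 ≤ ∑ u ∈ W, ee (P u u) + (∑ u ∈ W, ∑ v ∈ W.erase u, XX P G u v) / 2) :
    Bound P G := by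
  unfold Bound
  set g : V → ℝ := fun u => P u u * (1 - P u u) with hg
  have h := core_slack hs hi G (fun u v => g u * g v + XX P G u v) (fun u v huv => by
    have := pair_XX hs hi G huv
    simpa [hg] using this)
  have h1 : ∑ u, ∑ v ∈ univ.erase u, (g u * g v + XX P G u v)
      = (∑ u, g u) ^ 2 - ∑ u, g u ^ 2 + ∑ u, ∑ v ∈ univ.erase u, XX P G u v := by
    rw [← sum_erase_mul g, ← Finset.sum_add_distrib]
    exact Finset.sum_congr rfl fun u _ => Finset.sum_add_distrib
  have h2 : ∑ u ∈ W, ∑ v ∈ W.erase u, XX P G u v ≤ ∑ u, ∑ v ∈ univ.erase u, XX P G u v := by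
    calc ∑ u ∈ W, ∑ v ∈ W.erase u, XX P G u v
        ≤ ∑ u ∈ W, ∑ v ∈ univ.erase u, XX P G u v :=
          Finset.sum_le_sum fun u _ => Finset.sum_le_sum_of_subset_of_nonneg
            (Finset.erase_subset_erase _ (Finset.subset_univ _)) fun v _ _ => XX_nonneg hs hi G u v
      _ ≤ ∑ u, ∑ v ∈ univ.erase u, XX P G u v :=
          Finset.sum_le_sum_of_subset_of_nonneg (Finset.subset_univ _)
            fun u _ _ => Finset.sum_nonneg fun v _ => XX_nonneg hs hi G u v
  have h3 : ∑ u ∈ W, ee (P u u) ≤ ∑ u, ee (P u u) :=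
    Finset.sum_le_sum_of_subset_of_nonneg (Finset.subset_univ _)
      fun u _ _ => ee_nonneg (diag_nonneg hs hi u) (diag_le_one hs hi u)
  have h4 : ∑ u, ee (P u u) = ∑ u, g u - ∑ u, P u u ^ 2 * (1 - P u u) - (∑ u, g u ^ 2) / 2 := by
    rw [Finset.sum_div, ← Finset.sum_sub_distrib, ← Finset.sum_sub_distrib]
    refine Finset.sum_congr rfl fun u _ => ?_
    simp only [hg, ee]
    ring
  beta_reduce at h
  rw [h1] at h
  nlinarith [h, h2, h3, h4, hW, sq_nonneg (∑ u, g u - 1)]

/-- The criterion for four vertices. -/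
theorem bound_of_four {P : Matrix V V ℝ} (hs : P.transpose = P) (hi : P * P = P)
    (G : SimpleGraph V) [DecidableRel G.Adj] {a b c d : V} (hab : a ≠ b) (hac : a ≠ c)
    (had : a ≠ d) (hbc : b ≠ c) (hbd : b ≠ d) (hcd : c ≠ d)
    (h : 1 / 2 ≤ ee (P a a) + ee (P b b) + ee (P c c) + ee (P d d)
      + XX P G a b + XX P G a c + XX P G a d + XX P G b c + XX P G b d + XX P G c d) :
    Bound P G := by
  refine bound_of_local hs hi G {a, b, c, d} ?_
  have e1 : ({a, b, c, d} : Finset V).erase a = {b, c, d} := by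
    ext z; simp only [mem_erase, mem_insert, mem_singleton]
    constructor
    · rintro ⟨h1, h2 | h2 | h2 | h2⟩ <;> simp_all
    · rintro (rfl | rfl | rfl) <;> simp [hab.symm, hac.symm, had.symm]
  have e2 : ({a, b, c, d} : Finset V).erase b = {a, c, d} := by
    ext z; simp only [mem_erase, mem_insert, mem_singleton]
    constructor
    · rintro ⟨h1, h2 | h2 | h2 | h2⟩ <;> simp_all
    · rintro (rfl | rfl | rfl) <;> simp [hab, hbc.symm, hbd.symm]
  have e3 : ({a, b, c, d} : Finset V).erase c = {a, b, d} := by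
    ext z; simp only [mem_erase, mem_insert, mem_singleton]
    constructor
    · rintro ⟨h1, h2 | h2 | h2 | h2⟩ <;> simp_all
    · rintro (rfl | rfl | rfl) <;> simp [hac, hbc, hcd.symm]
  have e4 : ({a, b, c, d} : Finset V).erase d = {a, b, c} := by
    ext z; simp only [mem_erase, mem_insert, mem_singleton]
    constructor
    · rintro ⟨h1, h2 | h2 | h2 | h2⟩ <;> simp_all
    · rintro (rfl | rfl | rfl) <;> simp [had, hbd, hcd]
  have na : a ∉ ({b, c, d} : Finset V) := by simp [hab, hac, had]
  have nb : b ∉ ({c, d} : Finset V) := by simp [hbc, hbd]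
  have nb' : a ∉ ({c, d} : Finset V) := by simp [hac, had]
  have nb'' : a ∉ ({b, d} : Finset V) := by simp [hab, had]
  have nb''' : a ∉ ({b, c} : Finset V) := by simp [hab, hac]
  rw [sum_insert na, sum_insert nb, sum_pair hcd, sum_insert na, sum_insert nb, sum_pair hcd,
    e1, e2, e3, e4, sum_insert nb, sum_pair hcd, sum_insert nb', sum_pair hcd, sum_insert nb'',
    sum_pair hbd, sum_insert nb''', sum_pair hbc, XX_comm hs G b a, XX_comm hs G c a,
    XX_comm hs G c b, XX_comm hs G d a, XX_comm hs G d b, XX_comm hs G d c]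
  linarith

/-- The criterion for five vertices. -/
theorem bound_of_five {P : Matrix V V ℝ} (hs : P.transpose = P) (hi : P * P = P)
    (G : SimpleGraph V) [DecidableRel G.Adj] {a b c d e : V} (hab : a ≠ b) (hac : a ≠ c)
    (had : a ≠ d) (hae : a ≠ e) (hbc : b ≠ c) (hbd : b ≠ d) (hbe : b ≠ e) (hcd : c ≠ d)
    (hce : c ≠ e) (hde : d ≠ e)
    (h : 1 / 2 ≤ ee (P a a) + ee (P b b) + ee (P c c) + ee (P d d) + ee (P e e)
      + XX P G a b + XX P G a c + XX P G a d + XX P G a e + XX P G b c + XX P G b d
      + XX P G b e + XX P G c d + XX P G c e + XX P G d e) :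
    Bound P G := by
  refine bound_of_local hs hi G {a, b, c, d, e} ?_
  have er : ∀ (x : V) (F : V → ℝ), x ∈ ({a, b, c, d, e} : Finset V) →
      ∑ v ∈ ({a, b, c, d, e} : Finset V).erase x, F v
        = (F a + F b + F c + F d + F e) - F x := by
    intro x F hx
    rw [Finset.sum_erase_eq_sub hx]
    congr 1
    rw [sum_insert (by simp [hab, hac, had, hae]), sum_insert (by simp [hbc, hbd, hbe]),
      sum_insert (by simp [hcd, hce]), sum_pair hde]
    ring
  have es : ∀ F : V → ℝ, ∑ v ∈ ({a, b, c, d, e} : Finset V), F v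
      = F a + F b + F c + F d + F e := by
    intro F
    rw [sum_insert (by simp [hab, hac, had, hae]), sum_insert (by simp [hbc, hbd, hbe]),
      sum_insert (by simp [hcd, hce]), sum_pair hde]
    ring
  have e2 : ∑ u ∈ ({a, b, c, d, e} : Finset V), ∑ v ∈ ({a, b, c, d, e} : Finset V).erase u,
      XX P G u v = ∑ u ∈ ({a, b, c, d, e} : Finset V),
        ((XX P G u a + XX P G u b + XX P G u c + XX P G u d + XX P G u e) - XX P G u u) :=
    Finset.sum_congr rfl fun u hu => er u _ hu
  rw [e2, es, es, XX_comm hs G b a, XX_comm hs G c a, XX_comm hs G c b, XX_comm hs G d a,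
    XX_comm hs G d b, XX_comm hs G d c, XX_comm hs G e a, XX_comm hs G e b, XX_comm hs G e c,
    XX_comm hs G e d]
  linarith

/-! ### Constraints on the entries -/

omit [DecidableEq V] in
/-- The square of an entry is at most the product of the diagonal entries. -/
theorem entry_sq_le {P : Matrix V V ℝ} (hs : P.transpose = P) (hi : P * P = P) (u v : V) :
    P u v ^ 2 ≤ P u u * P v v := by
  have h := Finset.sum_mul_sq_le_sq_mul_sq univ (fun w => P u w) (fun w => P v w)
  have e1 : ∑ w, P u w * P v w = P u v := by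
    have h1 := congrFun (congrFun hi u) v
    rw [Matrix.mul_apply] at h1
    rw [← h1]
    exact Finset.sum_congr rfl fun w _ => by rw [show P w v = P v w from congrFun (congrFun hs v) w]
  rw [e1, row_sq hs hi u, row_sq hs hi v] at h
  exact h

/-- The same for the complementary projection. -/
theorem entry_sq_le' {P : Matrix V V ℝ} (hs : P.transpose = P) (hi : P * P = P) {u v : V}
    (huv : u ≠ v) : P u v ^ 2 ≤ (1 - P u u) * (1 - P v v) := by
  have hRs : (1 - P).transpose = 1 - P := by rw [Matrix.transpose_sub, Matrix.transpose_one, hs]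
  have hRi : (1 - P) * (1 - P) = 1 - P := by
    have : (1 - P) * (1 - P) = 1 - P - P + P * P := by noncomm_ring
    rw [this, hi]; abel
  have h := entry_sq_le hRs hRi u v
  simp only [Matrix.sub_apply, Matrix.one_apply_eq, Matrix.one_apply_ne huv] at h
  simpa using h

end Pool.Agent.H46.Brouwer
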