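import Pool.Agent.H46.BrouwerCore

/-!
# Spectral projections and complements
-/

set_option autoImplicit false

namespace Pool.Agent.H46.Brouwer

open Finset Matrix

variable {V : Type*} [Fintype V] [DecidableEq V]

/-- For every real symmetric matrix and every set `s` of eigenvalue indices there is a symmetric
idempotent matrix of trace `#s` commuting with the matrix, whose product with the matrix has trace
the sum of the eigenvalues with index in `s`. -/
theorem exists_proj {Q : Matrix V V ℝ} (hQ : Q.IsHermitian) (s : Finset V) :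
    ∃ P : Matrix V V ℝ, P.transpose = P ∧ P * P = P ∧ ∑ u, P u u = (s.card : ℝ)
      ∧ ∑ u, ∑ v, P u v * Q v u = ∑ i ∈ s, hQ.eigenvalues i := by
  set U : Matrix V V ℝ := (hQ.eigenvectorUnitary : Matrix V V ℝ) with hU
  have h1 : star U * U = 1 := Unitary.coe_star_mul_self hQ.eigenvectorUnitary
  have hspec : Q = U * diagonal hQ.eigenvalues * star U := by
    have h := hQ.spectral_theorem
    rw [Unitary.conjStarAlgAut_apply] at h
    have e : (RCLike.ofReal ∘ hQ.eigenvalues : V → ℝ) = hQ.eigenvalues := by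
      funext i; simp
    rw [e] at h
    exact h
  set f : V → ℝ := fun i => if i ∈ s then 1 else 0 with hf
  have hmul : ∀ g h : V → ℝ, (U * diagonal g * star U) * (U * diagonal h * star U)
      = U * diagonal (fun i => g i * h i) * star U := by
    intro g h
    calc (U * diagonal g * star U) * (U * diagonal h * star U)
        = U * diagonal g * (star U * U) * diagonal h * star U := by noncomm_ring
      _ = U * (diagonal g * diagonal h) * star U := by rw [h1]; noncomm_ring
      _ = _ := by rw [diagonal_mul_diagonal]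
  have htrace : ∀ g : V → ℝ, (U * diagonal g * star U).trace = ∑ i, g i := by
    intro g
    rw [Matrix.trace_mul_comm, ← mul_assoc, h1, one_mul, Matrix.trace_diagonal]
  have hstar : star U = U.transpose := by
    ext i j
    simp [Matrix.star_apply]
  refine ⟨U * diagonal f * star U, ?_, ?_, ?_, ?_⟩
  · rw [hstar, Matrix.transpose_mul, Matrix.transpose_mul, Matrix.transpose_transpose,
      Matrix.diagonal_transpose, mul_assoc]
  · rw [hmul]
    congr 3
    funext i
    simp only [hf]
    split_ifs <;> norm_num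
  · have := htrace f
    rw [Matrix.trace] at this
    simp only [Matrix.diag_apply] at this
    rw [this]
    simp [hf]
  · have h2 := hmul f hQ.eigenvalues
    rw [← hspec] at h2
    have h3 := htrace (fun i => f i * hQ.eigenvalues i)
    rw [← h2, Matrix.trace] at h3
    simp only [Matrix.diag_apply, Matrix.mul_apply] at h3
    simp only [Matrix.mul_apply] at h3 ⊢
    rw [h3]
    simp only [hf, ite_mul, one_mul, zero_mul]
    rw [Finset.sum_ite_mem, Finset.univ_inter]

omit [DecidableEq V] in
/-- The error term is at most a quarter of the trace. -/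
theorem err_le {P : Matrix V V ℝ} (hs : P.transpose = P) (hi : P * P = P) :
    ∑ u, P u u ^ 2 * (1 - P u u) ≤ (∑ u, P u u) / 4 := by
  rw [Finset.sum_div]
  refine Finset.sum_le_sum fun u _ => ?_
  have hp := diag_nonneg hs hi u
  nlinarith [mul_nonneg hp (sq_nonneg (1 - 2 * P u u))]

/-- The complement inequality. -/
theorem compl_core {P : Matrix V V ℝ} (hs : P.transpose = P) (hi : P * P = P)
    (G : SimpleGraph V) [DecidableRel G.Adj] {κ : ℝ} (hκ : ∑ u, P u u = κ) :
    ∑ u, ∑ v, P u v * (G.degMatrix ℝ + G.adjMatrix ℝ) v u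
      ≤ (G.edgeFinset.card : ℝ) + κ * (κ + 1) / 2
        - ((Fintype.card V : ℝ) - 3 * ((Fintype.card V : ℝ) - κ)
            - ((Fintype.card V : ℝ) - κ) / 4) := by
  set n : ℝ := (Fintype.card V : ℝ) with hn
  set R : Matrix V V ℝ := 1 - P with hR
  have hRs : R.transpose = R := by rw [hR, Matrix.transpose_sub, Matrix.transpose_one, hs]
  have hRi : R * R = R := by
    rw [hR]
    have : (1 - P) * (1 - P) = 1 - P - P + P * P := by noncomm_ring
    rw [this, hi]; abel
  have hRtr : ∑ u, R u u = n - κ := by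
    simp only [hR, Matrix.sub_apply, Matrix.one_apply_eq, Finset.sum_sub_distrib, hκ]
    simp [hn]
  classical
  have hcore := core hRs hRi Gᶜ
  have herr := err_le hRs hRi
  rw [hRtr] at hcore herr
  -- entries
  have hsum : ∀ u v, (G.degMatrix ℝ + G.adjMatrix ℝ) v u + (Gᶜ.degMatrix ℝ + Gᶜ.adjMatrix ℝ) v u
      = (if v = u then (n - 2) else 0) + 1 := by
    intro u v
    simp only [Matrix.add_apply, SimpleGraph.degMatrix, Matrix.diagonal_apply,
      SimpleGraph.adjMatrix_apply, SimpleGraph.compl_adj]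
    by_cases h : v = u
    · subst h
      have hd := G.degree_compl v
      have hlt := G.degree_lt_card_verts v
      have : ((Gᶜ.degree v : ℕ) : ℝ) = n - 1 - (G.degree v : ℝ) := by
        rw [hd, hn, Nat.cast_sub (by omega), Nat.cast_sub (by omega)]
        norm_num
      simp [this]
      ring
    · by_cases h' : G.Adj v u <;> simp [h, h']
  have hedge : (Gᶜ.edgeFinset.card : ℝ) = n * (n - 1) / 2 - (G.edgeFinset.card : ℝ) := by
    have h1 := G.sum_degrees_eq_twice_card_edges
    have h2 := Gᶜ.sum_degrees_eq_twice_card_edges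
    have h1' : (∑ u, (G.degree u : ℝ)) = 2 * (G.edgeFinset.card : ℝ) := by exact_mod_cast h1
    have h2' : (∑ u, (Gᶜ.degree u : ℝ)) = 2 * (Gᶜ.edgeFinset.card : ℝ) := by exact_mod_cast h2
    have h3 : ∀ v, ((Gᶜ.degree v : ℕ) : ℝ) = n - 1 - (G.degree v : ℝ) := by
      intro v
      have hd := G.degree_compl v
      have hlt := G.degree_lt_card_verts v
      rw [hd, hn, Nat.cast_sub (by omega), Nat.cast_sub (by omega)]
      norm_num
    rw [Finset.sum_congr rfl fun v _ => h3 v, Finset.sum_sub_distrib, h1'] at h2'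
    simp only [Finset.sum_const, Finset.card_univ, nsmul_eq_mul] at h2'
    rw [← hn] at h2'
    linarith
  have hRQ : ∑ u, ∑ v, R u v * (Gᶜ.degMatrix ℝ + Gᶜ.adjMatrix ℝ) v u
      = 2 * (Gᶜ.edgeFinset.card : ℝ)
        - ∑ u, ∑ v, P u v * (Gᶜ.degMatrix ℝ + Gᶜ.adjMatrix ℝ) v u := by
    have h2 := Gᶜ.sum_degrees_eq_twice_card_edges
    have h2' : (∑ u, (Gᶜ.degree u : ℝ)) = 2 * (Gᶜ.edgeFinset.card : ℝ) := by exact_mod_cast h2
    rw [← h2', ← Finset.sum_sub_distrib]
    refine Finset.sum_congr rfl fun u _ => ?_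
    have : ∀ v, R u v * (Gᶜ.degMatrix ℝ + Gᶜ.adjMatrix ℝ) v u
        = (if u = v then (Gᶜ.degMatrix ℝ + Gᶜ.adjMatrix ℝ) v u else 0)
          - P u v * (Gᶜ.degMatrix ℝ + Gᶜ.adjMatrix ℝ) v u := by
      intro v
      simp only [hR, Matrix.sub_apply, Matrix.one_apply]
      split_ifs <;> ring
    rw [Finset.sum_congr rfl fun v _ => this v, Finset.sum_sub_distrib, Finset.sum_ite_eq,
      if_pos (mem_univ u)]
    simp [Matrix.add_apply, SimpleGraph.degMatrix]
  have hPQ : ∑ u, ∑ v, P u v * (G.degMatrix ℝ + G.adjMatrix ℝ) v u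
      = (n - 2) * κ + ∑ u, ∑ v, P u v
        - ∑ u, ∑ v, P u v * (Gᶜ.degMatrix ℝ + Gᶜ.adjMatrix ℝ) v u := by
    rw [← hκ, Finset.mul_sum, ← Finset.sum_add_distrib, ← Finset.sum_sub_distrib]
    refine Finset.sum_congr rfl fun u _ => ?_
    have : ∀ v, P u v * (G.degMatrix ℝ + G.adjMatrix ℝ) v u
        = (if v = u then (n - 2) * P u v else 0) + P u v
          - P u v * (Gᶜ.degMatrix ℝ + Gᶜ.adjMatrix ℝ) v u := by
      intro v
      have h := hsum u v
      have h' : (G.degMatrix ℝ + G.adjMatrix ℝ) v u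
        = (if v = u then (n - 2) else 0) + 1 - (Gᶜ.degMatrix ℝ + Gᶜ.adjMatrix ℝ) v u := by
        linarith
      rw [h']
      split_ifs <;> ring
    rw [Finset.sum_congr rfl fun v _ => this v, Finset.sum_sub_distrib, Finset.sum_add_distrib,
      Finset.sum_ite_eq', if_pos (mem_univ u)]
  have hJ : ∑ u, ∑ v, P u v ≤ n := by
    have := quad_le hs hi (fun _ => (1 : ℝ))
    simpa [hn] using this
  rw [hRQ, hedge] at hcore
  rw [hPQ]
  nlinarith [hcore, herr, hJ]

end Pool.Agent.H46.Brouwer
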