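import Mathlib

/-!
# The DP color function of a seven vertex graph

The graph `G7` is the diamond on `0, 1, 2, 3` (all edges but `23`) together with a path
`0 4 5 1` of length three and a path `2 6 3` of length two. We show that for `m` at least `5`
every `m`-fold cover has at least `q m` colourings, `q` a polynomial, with equality possible only
if `m` is even, and that equality does occur for every even `m`.
-/

set_option autoImplicit false

namespace Pool.Agent.H46.DPColor

open Finset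

variable {m : ℕ}

/-- colours of the two interior vertices of the first ear -/
def Aset (c : Equiv.Perm (Fin m)) (i j : Fin m) : Finset (Fin m × Fin m) :=
  univ.filter (fun p => p.1 ≠ i ∧ p.2 ≠ p.1 ∧ p.2 ≠ c j)

/-- colours of the two outer diamond vertices and of the interior vertex of the second ear -/
def Bset (b1 b2 d : Equiv.Perm (Fin m)) (i j : Fin m) : Finset (Fin m × Fin m × Fin m) :=
  univ.filter (fun p => p.1 ≠ i ∧ p.1 ≠ b1 j ∧ p.2.1 ≠ i ∧ p.2.1 ≠ b2 j ∧ p.2.2 ≠ p.1 ∧
    d p.2.2 ≠ p.2.1)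

theorem sum_ne_ne (x y : Fin m) :
    (∑ v : Fin m, if v ≠ x ∧ v ≠ y then (1 : ℤ) else 0) = m - 2 + if x = y then 1 else 0 := by
  have h : ∀ v : Fin m, (if v ≠ x ∧ v ≠ y then (1 : ℤ) else 0)
      = 1 - (if v = x then 1 else 0) - (if v = y then 1 else 0)
        + (if v = x then (if x = y then 1 else 0) else 0) := by
    intro v
    by_cases h1 : v = x <;> by_cases h2 : v = y
    · subst h1; subst h2; simp
    · subst h1; simp [h2]
    · subst h2; simp [h1]
    · simp [h1, h2]
  rw [Finset.sum_congr rfl (fun v _ => h v)]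
  simp only [Finset.sum_add_distrib, Finset.sum_sub_distrib, Finset.sum_ite_eq', Finset.mem_univ,
    if_true, Finset.sum_const, Finset.card_univ, Fintype.card_fin, nsmul_eq_mul, mul_one]
  ring

theorem card_Aset (c : Equiv.Perm (Fin m)) (i j : Fin m) :
    ((Aset c i j).card : ℤ) = (m : ℤ) ^ 2 - 3 * m + 3 - if c j = i then 1 else 0 := by
  unfold Aset
  rw [Finset.card_filter]
  push_cast
  rw [Fintype.sum_prod_type]
  have h : ∀ u : Fin m, (∑ v : Fin m, if u ≠ i ∧ v ≠ u ∧ v ≠ c j then (1 : ℤ) else 0)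
      = ((m : ℤ) - 2 + if u = c j then 1 else 0)
        - (if u = i then ((m : ℤ) - 2 + if i = c j then 1 else 0) else 0) := by
    intro u
    by_cases hu : u = i
    · subst hu; simp
    · have := sum_ne_ne u (c j)
      simp only [ne_eq, hu, not_false_eq_true, true_and, if_false, sub_zero]
      simpa using this
  simp only [h]
  simp only [Finset.sum_add_distrib, Finset.sum_sub_distrib, Finset.sum_ite_eq', Finset.mem_univ,
    if_true, Finset.sum_const, Finset.card_univ, Fintype.card_fin, nsmul_eq_mul]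
  rcases eq_or_ne (c j) i with h1 | h1
  · simp [h1]; ring
  · simp [h1, Ne.symm h1]; ring

theorem card_Bset (b1 b2 d : Equiv.Perm (Fin m)) (i j : Fin m) :
    ((Bset b1 b2 d i j).card : ℤ) =
      ((m : ℤ) - 2) * (((m : ℤ) - 2 + if i = b1 j then 1 else 0) *
        ((m : ℤ) - 2 + if i = b2 j then 1 else 0)) +
      ∑ k : Fin m, if (k ≠ i ∧ k ≠ b1 j) ∧ (d k ≠ i ∧ d k ≠ b2 j) then (1 : ℤ) else 0 := by
  unfold Bset
  rw [Finset.card_filter]
  push_cast
  rw [Fintype.sum_prod_type]
  simp only [Fintype.sum_prod_type]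
  have h : ∀ k l : Fin m, (∑ w : Fin m, if k ≠ i ∧ k ≠ b1 j ∧ l ≠ i ∧ l ≠ b2 j ∧ w ≠ k ∧ d w ≠ l
      then (1 : ℤ) else 0)
      = ((m : ℤ) - 2) * ((if k ≠ i ∧ k ≠ b1 j then 1 else 0) * (if l ≠ i ∧ l ≠ b2 j then 1 else 0))
        + (if l = d k then (if (k ≠ i ∧ k ≠ b1 j) ∧ (d k ≠ i ∧ d k ≠ b2 j) then (1 : ℤ) else 0)
            else 0) := by
    intro k l
    by_cases hk : k ≠ i ∧ k ≠ b1 j
    · by_cases hl : l ≠ i ∧ l ≠ b2 j
      · have e1 : ∀ w : Fin m, (if k ≠ i ∧ k ≠ b1 j ∧ l ≠ i ∧ l ≠ b2 j ∧ w ≠ k ∧ d w ≠ l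
            then (1 : ℤ) else 0) = if w ≠ k ∧ w ≠ d.symm l then 1 else 0 := by
          intro w
          have : d w ≠ l ↔ w ≠ d.symm l := by
            rw [ne_eq, ne_eq, Equiv.eq_symm_apply]
          simp [hk.1, hk.2, hl.1, hl.2, this]
        simp only [e1]
        rw [sum_ne_ne k (d.symm l)]
        by_cases hkl : l = d k
        · subst hkl
          simp [hk.1, hk.2, hl.1, hl.2]
        · have : k ≠ d.symm l := by
            intro h; apply hkl; rw [h]; simp
          simp [hk.1, hk.2, hl.1, hl.2, this, hkl]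
      · have e1 : ∀ w : Fin m, (if k ≠ i ∧ k ≠ b1 j ∧ l ≠ i ∧ l ≠ b2 j ∧ w ≠ k ∧ d w ≠ l
            then (1 : ℤ) else 0) = 0 := by
          intro w
          rw [if_neg]
          tauto
        simp only [e1, Finset.sum_const_zero, if_neg hl, mul_zero, zero_add]
        by_cases hkl : l = d k
        · rw [if_pos hkl, if_neg]
          rw [← hkl]; tauto
        · rw [if_neg hkl]
    · have e1 : ∀ w : Fin m, (if k ≠ i ∧ k ≠ b1 j ∧ l ≠ i ∧ l ≠ b2 j ∧ w ≠ k ∧ d w ≠ l
            then (1 : ℤ) else 0) = 0 := by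
        intro w
        rw [if_neg]
        tauto
      simp only [e1, Finset.sum_const_zero, if_neg hk, zero_mul, mul_zero, zero_add]
      by_cases hkl : l = d k
      · rw [if_pos hkl, if_neg]
        tauto
      · rw [if_neg hkl]
  simp only [h]
  simp only [Finset.sum_add_distrib, ← Finset.mul_sum, Finset.sum_ite_eq', Finset.mem_univ,
    if_true, Finset.sum_ite_eq]
  rw [← Finset.sum_mul, sum_ne_ne i (b2 j), sum_ne_ne i (b1 j)]

theorem bool_ineq (p1 p2 p3 p4 : Prop) [Decidable p1] [Decidable p2] [Decidable p3]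
    [Decidable p4] : (1 : ℤ) - (if p1 then 1 else 0) - (if p2 then 1 else 0)
      - (if p3 then 1 else 0) - (if p4 then 1 else 0)
      + (if p1 then (if p4 then 1 else 0) else 0)
      + (if p2 then (if p3 then 1 else 0) else 0)
      + (if p1 then (if p3 then 1 else 0) else 0)
      ≤ if (¬ p1 ∧ ¬ p2) ∧ (¬ p3 ∧ ¬ p4) then (1 : ℤ) else 0 := by
  by_cases h1 : p1 <;> by_cases h2 : p2 <;> by_cases h3 : p3 <;> by_cases h4 : p4 <;>
    simp [h1, h2, h3, h4]

/-- lower bound for the `Bset` -/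
def LB (b1 b2 d : Equiv.Perm (Fin m)) (i j : Fin m) : ℤ :=
  ((m : ℤ) - 2) ^ 3 + ((m : ℤ) - 2) ^ 2 * ((if i = b1 j then 1 else 0) + (if i = b2 j then 1 else 0))
    + ((m : ℤ) - 4) + (if d i = b2 j then 1 else 0) + (if d (b1 j) = i then 1 else 0)
    + (if d i = i then 1 else 0)

theorem LB_le (hm : 2 ≤ m) (b1 b2 d : Equiv.Perm (Fin m)) (i j : Fin m) :
    LB b1 b2 d i j ≤ ((Bset b1 b2 d i j).card : ℤ) := by
  rw [card_Bset]
  unfold LB
  have hm' : (2 : ℤ) ≤ m := by exact_mod_cast hm
  have key : ∀ k : Fin m, (1 : ℤ) - (if k = i then 1 else 0) - (if k = b1 j then 1 else 0)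
      - (if k = d.symm i then 1 else 0) - (if k = d.symm (b2 j) then 1 else 0)
      + (if k = i then (if d i = b2 j then 1 else 0) else 0)
      + (if k = b1 j then (if d (b1 j) = i then 1 else 0) else 0)
      + (if k = i then (if d i = i then 1 else 0) else 0)
      ≤ if (k ≠ i ∧ k ≠ b1 j) ∧ (d k ≠ i ∧ d k ≠ b2 j) then (1 : ℤ) else 0 := by
    intro k
    have e1 : k = d.symm i ↔ d k = i := by rw [Equiv.eq_symm_apply]
    have e2 : k = d.symm (b2 j) ↔ d k = b2 j := by rw [Equiv.eq_symm_apply]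
    have e3 : (if k = i then (if d i = b2 j then (1 : ℤ) else 0) else 0)
        = (if k = i then (if d k = b2 j then (1 : ℤ) else 0) else 0) := by
      by_cases h : k = i
      · rw [h]
      · simp [h]
    have e4 : (if k = b1 j then (if d (b1 j) = i then (1 : ℤ) else 0) else 0)
        = (if k = b1 j then (if d k = i then (1 : ℤ) else 0) else 0) := by
      by_cases h : k = b1 j
      · rw [h]
      · simp [h]
    have e5 : (if k = i then (if d i = i then (1 : ℤ) else 0) else 0)
        = (if k = i then (if d k = i then (1 : ℤ) else 0) else 0) := by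
      by_cases h : k = i
      · rw [h]
      · simp [h]
    rw [e3, e4, e5]
    simp only [e1, e2]
    exact bool_ineq _ _ _ _
  have hs := Finset.sum_le_sum (fun k (_ : k ∈ (univ : Finset (Fin m))) => key k)
  simp only [Finset.sum_add_distrib, Finset.sum_sub_distrib, Finset.sum_ite_eq', Finset.mem_univ,
    if_true, Finset.sum_const, Finset.card_univ, Fintype.card_fin, nsmul_eq_mul, mul_one] at hs
  have h5 : ((m : ℤ) - 2) ^ 3 + ((m : ℤ) - 2) ^ 2 *
      ((if i = b1 j then 1 else 0) + (if i = b2 j then 1 else 0)) ≤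
      ((m : ℤ) - 2) * (((m : ℤ) - 2 + if i = b1 j then 1 else 0) *
        ((m : ℤ) - 2 + if i = b2 j then 1 else 0)) := by
    split_ifs <;> nlinarith
  linarith

theorem sum_erase_ite (j a : Fin m) :
    (∑ i ∈ univ.erase j, if i = a then (1 : ℤ) else 0) = 1 - if a = j then 1 else 0 := by
  rw [Finset.sum_ite_eq']
  by_cases h : a = j
  · simp [h]
  · simp [h]

theorem sum_LB (hm : 1 ≤ m) (b1 b2 d : Equiv.Perm (Fin m)) (j : Fin m) :
    (∑ i ∈ univ.erase j, LB b1 b2 d i j) =
      ((m : ℤ) - 1) * (((m : ℤ) - 2) ^ 3 + ((m : ℤ) - 4))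
      + ((m : ℤ) - 2) ^ 2 * ((1 - if b1 j = j then 1 else 0) + (1 - if b2 j = j then 1 else 0))
      + (1 - if d j = b2 j then 1 else 0) + (1 - if d (b1 j) = j then 1 else 0)
      + ((∑ i, if d i = i then 1 else 0) - if d j = j then 1 else 0) := by
  unfold LB
  simp only [Finset.sum_add_distrib, ← Finset.mul_sum]
  rw [sum_erase_ite, sum_erase_ite]
  have h1 : (∑ i ∈ univ.erase j, if d i = b2 j then (1 : ℤ) else 0) = 1 - if d j = b2 j then 1 else 0 := by
    have : ∀ i, (if d i = b2 j then (1 : ℤ) else 0) = if i = d.symm (b2 j) then 1 else 0 := by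
      intro i
      have : d i = b2 j ↔ i = d.symm (b2 j) := by rw [Equiv.eq_symm_apply]
      simp only [this]
    simp only [this]
    rw [sum_erase_ite]
    have h2 : d.symm (b2 j) = j ↔ j = d.symm (b2 j) := eq_comm
    simp only [h2]
  have h2 : (∑ i ∈ univ.erase j, if d (b1 j) = i then (1 : ℤ) else 0) = 1 - if d (b1 j) = j then 1 else 0 := by
    have : ∀ i, (if d (b1 j) = i then (1 : ℤ) else 0) = if i = d (b1 j) then 1 else 0 := by
      intro i
      simp only [eq_comm]
    rw [Finset.sum_congr rfl (fun i _ => this i)]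
    rw [sum_erase_ite]
  have h3 : (∑ i ∈ univ.erase j, if d i = i then (1 : ℤ) else 0) =
      (∑ i, if d i = i then 1 else 0) - if d j = j then 1 else 0 := by
    rw [← Finset.add_sum_erase univ _ (Finset.mem_univ j)]
    ring
  rw [h1, h2, h3]
  simp only [Finset.sum_const, Finset.card_erase_of_mem (Finset.mem_univ j), Finset.card_univ,
    Fintype.card_fin, nsmul_eq_mul]
  push_cast [hm]
  ring

/-- the total number -/
def X (b1 b2 c d : Equiv.Perm (Fin m)) : ℕ :=
  ∑ j, ∑ i ∈ univ.erase j, (Aset c i j).card * (Bset b1 b2 d i j).card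

/-- the polynomial value -/
def q (m : ℕ) : ℤ :=
  ((m : ℤ) ^ 2 - 3 * m + 3) * (m * (m - 1) * (((m : ℤ) - 2) ^ 3 + (m - 4)) + 2 * m)
    - m * (((m : ℤ) - 2) ^ 3 + (m - 4)) - 2 * m

theorem arith_aux (m c0 D1 : ℤ) (hm : 5 ≤ m) (hc0 : c0 = (m - 2) ^ 3 + (m - 4))
    (hD1 : D1 = m ^ 2 - 3 * m + 3) :
    1 ≤ c0 ∧ 1 ≤ (D1 - 1) * (m - 2) ^ 2 - D1 ∧ 1 ≤ D1 * (m - 3) - 1 := by
  have h2 : 12 ≤ D1 - 1 := by rw [hD1]; nlinarith
  have h1 : 9 ≤ (m - 2) ^ 2 := by nlinarith
  have h3 : 0 < (m - 2) ^ 3 := pow_pos (by linarith) 3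
  refine ⟨by rw [hc0]; linarith, by nlinarith, by nlinarith⟩

theorem X_lower (hm : 5 ≤ m) (b1 b2 c d : Equiv.Perm (Fin m)) :
    q m ≤ X b1 b2 c d ∧ (((X b1 b2 c d : ℕ) : ℤ) ≤ q m → (∀ j, c j ≠ j) ∧ (∀ j, c (c j) = j)) := by
  have hm' : (5 : ℤ) ≤ m := by exact_mod_cast hm
  set c0 : ℤ := ((m : ℤ) - 2) ^ 3 + ((m : ℤ) - 4) with hc0
  set D1 : ℤ := (m : ℤ) ^ 2 - 3 * m + 3 with hD1
  have hD1pos : 1 ≤ D1 := by rw [hD1]; nlinarith
  -- step 1 : termwise lower bound
  have hX : (∑ j, ∑ i ∈ univ.erase j, (D1 - if c j = i then 1 else 0) * LB b1 b2 d i j)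
      ≤ ((X b1 b2 c d : ℕ) : ℤ) := by
    unfold X
    push_cast
    refine Finset.sum_le_sum (fun j _ => Finset.sum_le_sum (fun i _ => ?_))
    rw [card_Aset]
    refine mul_le_mul_of_nonneg_left (LB_le (by omega) b1 b2 d i j) ?_
    split_ifs <;> linarith
  -- step 2 : inner sums
  set F2 : ℤ := ∑ i, if d i = i then (1 : ℤ) else 0 with hF2
  have hin : ∀ j, D1 * (((m : ℤ) - 1) * c0
      + ((m : ℤ) - 2) ^ 2 * ((if b1 j ≠ j then 1 else 0) + (if b2 j ≠ j then 1 else 0))
      + 2 - (if b1 j ≠ j then 1 else 0) - (if b2 j ≠ j then 1 else 0)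
      - 3 * (if d j = j then 1 else 0) + F2)
      - (c0 * (if c j ≠ j then 1 else 0)
        + ((m : ℤ) - 2) ^ 2 * ((if b1 j ≠ j then 1 else 0) + (if b2 j ≠ j then 1 else 0))
        + (if c j ≠ j ∧ d (c j) = b2 j then 1 else 0) + (if c j ≠ j ∧ d (b1 j) = c j then 1 else 0)
        + (if d (c j) = c j then 1 else 0))
      ≤ ∑ i ∈ univ.erase j, (D1 - if c j = i then 1 else 0) * LB b1 b2 d i j := by
    intro j
    have e1 : ∑ i ∈ univ.erase j, (D1 - if c j = i then 1 else 0) * LB b1 b2 d i j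
        = D1 * (∑ i ∈ univ.erase j, LB b1 b2 d i j)
          - if c j ≠ j then LB b1 b2 d (c j) j else 0 := by
      simp only [sub_mul, Finset.sum_sub_distrib, ← Finset.mul_sum]
      congr 1
      simp only [ite_mul, one_mul, zero_mul]
      rw [Finset.sum_ite_eq]
      simp
    rw [e1, sum_LB (by omega)]
    have e2 : (if d j = b2 j then (1 : ℤ) else 0) ≤
        (if b2 j ≠ j then 1 else 0) + (if d j = j then 1 else 0) := by
      by_cases h1 : b2 j = j
      · rw [h1]; simp
      · simp only [h1, ne_eq, not_false_eq_true, if_true]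
        split_ifs <;> simp
    have e3 : (if d (b1 j) = j then (1 : ℤ) else 0) ≤
        (if b1 j ≠ j then 1 else 0) + (if d j = j then 1 else 0) := by
      by_cases h1 : b1 j = j
      · rw [h1]; simp
      · simp only [h1, ne_eq, not_false_eq_true, if_true]
        split_ifs <;> simp
    have e4 : (1 - if b1 j = j then (1 : ℤ) else 0) = if b1 j ≠ j then 1 else 0 := by
      by_cases h1 : b1 j = j <;> simp [h1]
    have e5 : (1 - if b2 j = j then (1 : ℤ) else 0) = if b2 j ≠ j then 1 else 0 := by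
      by_cases h1 : b2 j = j <;> simp [h1]
    rw [e4, e5]
    have e6 : (if c j ≠ j then LB b1 b2 d (c j) j else 0) ≤ c0 * (if c j ≠ j then 1 else 0)
        + ((m : ℤ) - 2) ^ 2 * ((if b1 j ≠ j then 1 else 0) + (if b2 j ≠ j then 1 else 0))
        + (if c j ≠ j ∧ d (c j) = b2 j then 1 else 0) + (if c j ≠ j ∧ d (b1 j) = c j then 1 else 0)
        + (if d (c j) = c j then 1 else 0) := by
      have hsq : 0 ≤ ((m : ℤ) - 2) ^ 2 := sq_nonneg _
      by_cases h1 : c j = j
      · simp only [h1, ne_eq, not_true_eq_false, if_false, false_and, mul_zero, zero_add, add_zero]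
        have : 0 ≤ ((m : ℤ) - 2) ^ 2 * ((if ¬ b1 j = j then 1 else 0) + (if ¬ b2 j = j then 1 else 0)) := by
          apply mul_nonneg hsq
          split_ifs <;> norm_num
        have h2 : (0 : ℤ) ≤ if d j = j then 1 else 0 := by split_ifs <;> norm_num
        linarith
      · unfold LB
        have h3 : (if c j = b1 j then (1 : ℤ) else 0) ≤ if b1 j ≠ j then 1 else 0 := by
          by_cases h4 : c j = b1 j
          · rw [← h4]; simp [h1]
          · simp only [h4, if_false]
            split_ifs <;> norm_num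
        have h5 : (if c j = b2 j then (1 : ℤ) else 0) ≤ if b2 j ≠ j then 1 else 0 := by
          by_cases h4 : c j = b2 j
          · rw [← h4]; simp [h1]
          · simp only [h4, if_false]
            split_ifs <;> norm_num
        simp only [ne_eq, h1, not_false_eq_true, if_true, true_and, mul_one]
        simp only [ne_eq] at h3 h5
        nlinarith
    nlinarith
  -- step 3 : sum over j
  have hsum := Finset.sum_le_sum (fun j (_ : j ∈ (univ : Finset (Fin m))) => hin j)
  set Q1 : ℤ := ∑ j, if b1 j ≠ j then (1 : ℤ) else 0 with hQ1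
  set Q2 : ℤ := ∑ j, if b2 j ≠ j then (1 : ℤ) else 0 with hQ2
  set G1 : ℤ := ∑ j, if c j ≠ j then (1 : ℤ) else 0 with hG1
  set S1 : ℤ := ∑ j, if c j ≠ j ∧ d (c j) = b2 j then (1 : ℤ) else 0 with hS1
  set T1 : ℤ := ∑ j, if c j ≠ j ∧ d (b1 j) = c j then (1 : ℤ) else 0 with hT1
  have hF2' : (∑ j, if d (c j) = c j then (1 : ℤ) else 0) = F2 :=
    Equiv.sum_comp c (fun i => if d i = i then (1 : ℤ) else 0)
  simp only [Finset.sum_add_distrib, Finset.sum_sub_distrib, ← Finset.mul_sum, ← hQ1, ← hQ2,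
    ← hG1, ← hS1, ← hT1, ← hF2, hF2', Finset.sum_const, Finset.card_univ, Fintype.card_fin,
    nsmul_eq_mul] at hsum
  have hle1 : ∀ (P : Fin m → Prop) [DecidablePred P], (∑ j, if P j then (1 : ℤ) else 0) ≤ m ∧
      0 ≤ (∑ j, if P j then (1 : ℤ) else 0) := by
    intro P _
    constructor
    · calc (∑ j, if P j then (1 : ℤ) else 0) ≤ ∑ j : Fin m, (1 : ℤ) := by
            apply Finset.sum_le_sum
            intro j _
            split_ifs <;> norm_num
        _ = m := by simp
    · apply Finset.sum_nonneg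
      intro j _
      split_ifs <;> norm_num
  have hall : ∀ (P : Fin m → Prop) [DecidablePred P], (m : ℤ) ≤ (∑ j, if P j then (1 : ℤ) else 0) →
      ∀ j, P j := by
    intro P _ h j
    by_contra hj
    have : (∑ j, if P j then (1 : ℤ) else 0) < ∑ j : Fin m, (1 : ℤ) := by
      apply Finset.sum_lt_sum
      · intro j _
        split_ifs <;> norm_num
      · exact ⟨j, Finset.mem_univ j, by simp [hj]⟩
    simp at this
    simp at h
    omega
  have b1' := hle1 (fun j => b1 j ≠ j)
  have b2' := hle1 (fun j => b2 j ≠ j)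
  have b3' := hle1 (fun j => c j ≠ j)
  have b4' := hle1 (fun j => c j ≠ j ∧ d (c j) = b2 j)
  have b5' := hle1 (fun j => c j ≠ j ∧ d (b1 j) = c j)
  have b6' := hle1 (fun j => d j = j)
  rw [← hQ1] at b1'
  rw [← hQ2] at b2'
  rw [← hG1] at b3'
  rw [← hS1] at b4'
  rw [← hT1] at b5'
  rw [← hF2] at b6'
  obtain ⟨hc0pos, hcoefQ, hcoefF⟩ := arith_aux (m : ℤ) c0 D1 hm' hc0 hD1
  have hmain : q m + ((Q1 + Q2) * ((D1 - 1) * ((m : ℤ) - 2) ^ 2 - D1) + F2 * (D1 * ((m : ℤ) - 3) - 1)
      + ((m : ℤ) - G1) * c0 + ((m : ℤ) - S1) + ((m : ℤ) - T1)) ≤ ((X b1 b2 c d : ℕ) : ℤ) := by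
    have hq : q m = D1 * (m * (m - 1) * c0 + 2 * m) - m * c0 - 2 * m := rfl
    rw [hq]
    have hsum2 := le_trans hsum hX
    clear_value Q1 Q2 G1 S1 T1 F2 c0 D1
    clear hsum hX hin hle1 hall
    refine le_trans (le_of_eq ?_) hsum2
    ring
  have p1 : Q1 + Q2 ≤ (Q1 + Q2) * ((D1 - 1) * ((m : ℤ) - 2) ^ 2 - D1) :=
    le_mul_of_one_le_right (add_nonneg b1'.2 b2'.2) hcoefQ
  have p2 : F2 ≤ F2 * (D1 * ((m : ℤ) - 3) - 1) :=
    le_mul_of_one_le_right b6'.2 hcoefF
  have p3 : (m : ℤ) - G1 ≤ ((m : ℤ) - G1) * c0 :=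
    le_mul_of_one_le_right (sub_nonneg.mpr b3'.1) hc0pos
  constructor
  · linarith
  · intro hle
    have hQ1z : Q1 = 0 := by linarith
    have hQ2z : Q2 = 0 := by linarith
    have hG1m : (m : ℤ) ≤ G1 := by linarith
    have hS1m : (m : ℤ) ≤ S1 := by linarith
    have hT1m : (m : ℤ) ≤ T1 := by linarith
    have k1 := hall (fun j => c j ≠ j) hG1m
    have k2 := hall (fun j => c j ≠ j ∧ d (c j) = b2 j) hS1m
    have k3 := hall (fun j => c j ≠ j ∧ d (b1 j) = c j) hT1m
    have z1 : ∀ j, b1 j = j := by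
      intro j
      by_contra hj
      have : (0 : ℤ) < Q1 := by
        rw [hQ1]
        apply Finset.sum_pos'
        · intro j _
          split_ifs <;> norm_num
        · exact ⟨j, Finset.mem_univ j, by simp [hj]⟩
      omega
    have z2 : ∀ j, b2 j = j := by
      intro j
      by_contra hj
      have : (0 : ℤ) < Q2 := by
        rw [hQ2]
        apply Finset.sum_pos'
        · intro j _
          split_ifs <;> norm_num
        · exact ⟨j, Finset.mem_univ j, by simp [hj]⟩
      omega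
    refine ⟨k1, fun j => ?_⟩
    have u1 := (k2 j).2
    have u2 := (k3 (c j)).2
    rw [z1] at u2
    rw [z2] at u1
    rw [← u2, u1]

theorem X_even (hm : Even m) (hm1 : 1 ≤ m) :
    ((X (1 : Equiv.Perm (Fin m)) 1 Fin.revPerm Fin.revPerm : ℕ) : ℤ) = q m := by
  have hrev : ∀ j : Fin m, Fin.rev j ≠ j := by
    intro j h
    have h1 : ((Fin.rev j : Fin m) : ℕ) = j := by rw [h]
    rw [Fin.val_rev] at h1
    have := j.isLt
    obtain ⟨r, hr⟩ := hm
    omega
  unfold X
  push_cast
  have h1 : ∀ j : Fin m, ∀ i ∈ univ.erase j,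
      ((Aset (Fin.revPerm : Equiv.Perm (Fin m)) i j).card : ℤ) *
        ((Bset (1 : Equiv.Perm (Fin m)) 1 Fin.revPerm i j).card : ℤ)
      = ((m : ℤ) ^ 2 - 3 * m + 3) * (((m : ℤ) - 2) ^ 3 + (m - 4)) +
        (if i = Fin.rev j then 2 * ((m : ℤ) ^ 2 - 3 * m + 3) - (((m : ℤ) - 2) ^ 3 + (m - 4)) - 2
          else 0) := by
    intro j i hi
    rw [Finset.mem_erase] at hi
    rw [card_Aset, card_Bset]
    have hij : i ≠ j := hi.1
    have e0 : ∀ k : Fin m, (if (k ≠ i ∧ k ≠ (1 : Equiv.Perm (Fin m)) j) ∧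
        (Fin.revPerm k ≠ i ∧ Fin.revPerm k ≠ (1 : Equiv.Perm (Fin m)) j) then (1 : ℤ) else 0)
        = 1 - (if k = i then 1 else 0) - (if k = j then 1 else 0)
          - (if k = Fin.rev i then 1 else 0) - (if k = Fin.rev j then 1 else 0)
          + (if k = i then (if i = Fin.rev j then 1 else 0) else 0)
          + (if k = j then (if i = Fin.rev j then 1 else 0) else 0) := by
      intro k
      have r1 : (Fin.revPerm k = i) ↔ k = Fin.rev i := by
        simp only [Fin.revPerm_apply]
        constructor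
        · intro h; rw [← h]; simp
        · intro h; rw [h]; simp
      have r2 : (Fin.revPerm k = j) ↔ k = Fin.rev j := by
        simp only [Fin.revPerm_apply]
        constructor
        · intro h; rw [← h]; simp
        · intro h; rw [h]; simp
      simp only [Equiv.Perm.coe_one, id_eq, ne_eq, r1, r2]
      by_cases hk1 : k = i
      · subst hk1
        have a1 : ¬ k = Fin.rev k := fun h => hrev k h.symm
        simp only [hij, a1]
        by_cases a2 : k = Fin.rev j <;> simp [a2]
      · by_cases hk2 : k = j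
        · subst hk2
          have a1 : ¬ k = Fin.rev k := fun h => hrev k h.symm
          have a3 : i = Fin.rev k ↔ k = Fin.rev i := by
            constructor
            · intro h; rw [h]; simp
            · intro h; rw [h]; simp
          simp only [hk1, a1, a3]
          by_cases a2 : k = Fin.rev i <;> simp [a2]
        · simp only [hk1, hk2]
          by_cases a2 : k = Fin.rev i
          · have a3 : ¬ k = Fin.rev j := by
              intro h
              apply hij
              rw [h] at a2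
              exact (Fin.rev_injective a2).symm
            simp [a2]
            intro h
            exact hij h
          · by_cases a3 : k = Fin.rev j
            · simp [a3]
              intro h
              exact hij h.symm
            · simp [a2, a3]
    rw [Finset.sum_congr rfl (fun k _ => e0 k)]
    simp only [Finset.sum_add_distrib, Finset.sum_sub_distrib, Finset.sum_ite_eq', Finset.mem_univ,
      if_true, Finset.sum_const, Finset.card_univ, Fintype.card_fin, nsmul_eq_mul, mul_one]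
    have e1 : ¬ (i = (1 : Equiv.Perm (Fin m)) j) := by simpa using hij
    have e2 : (Fin.revPerm j = i) ↔ i = Fin.rev j := by
      simp only [Fin.revPerm_apply]
      exact eq_comm
    simp only [e1, e2, if_false]
    by_cases a : i = Fin.rev j
    · simp only [a, if_true]
      ring
    · simp only [a, if_false]
      ring
  rw [Finset.sum_congr rfl (fun j _ => Finset.sum_congr rfl (h1 j))]
  simp only [Finset.sum_add_distrib, Finset.sum_ite_eq', Finset.mem_erase, Finset.mem_univ,
    Finset.sum_const, Finset.card_univ, Fintype.card_fin, nsmul_eq_mul,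
    Finset.card_erase_of_mem, ne_eq, hrev, not_false_eq_true, and_true, if_true]
  unfold q
  push_cast [hm1]
  ring

theorem exists_perm_extend (R : Fin m → Fin m → Prop)
    (h1 : ∀ i j j', R i j → R i j' → j = j') (h2 : ∀ i i' j, R i j → R i' j → i = i') :
    ∃ σ : Equiv.Perm (Fin m), ∀ i j, R i j → σ i = j := by
  classical
  let e : {i // ∃ j, R i j} ≃ {j // ∃ i, R i j} :=
    { toFun := fun x => ⟨x.2.choose, x.1, x.2.choose_spec⟩
      invFun := fun y => ⟨y.2.choose, y.1, y.2.choose_spec⟩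
      left_inv := by
        intro x
        apply Subtype.ext
        have hx := x.2.choose_spec
        have hy : ∃ i, R i x.2.choose := ⟨x.1, hx⟩
        exact h2 _ _ _ hy.choose_spec hx
      right_inv := by
        intro y
        apply Subtype.ext
        have hy := y.2.choose_spec
        have hx : ∃ j, R y.2.choose j := ⟨y.1, hy⟩
        exact h1 _ _ _ hx.choose_spec hy }
  refine ⟨e.extendSubtype, fun i j hij => ?_⟩
  have hi : ∃ j, R i j := ⟨j, hij⟩
  rw [Equiv.extendSubtype_apply_of_mem e i hi]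
  exact h1 _ _ _ hi.choose_spec hij

/-- the edges of the graph -/
def E : List (Fin 7 × Fin 7) :=
  [(0, 1), (0, 2), (0, 3), (1, 2), (1, 3), (0, 4), (4, 5), (5, 1), (2, 6), (6, 3)]

/-- the seven vertex graph: a diamond with two ears -/
def G7 : SimpleGraph (Fin 7) := SimpleGraph.fromRel (fun u v => (u, v) ∈ E)

/-- the sigma finset of all parametrised colourings -/
def S (b1 b2 c d : Equiv.Perm (Fin m)) :
    Finset ((_ : Fin m) × (_ : Fin m) × ((Fin m × Fin m) × (Fin m × Fin m × Fin m))) :=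
  univ.sigma (fun j => (univ.erase j).sigma (fun i => Aset c i j ×ˢ Bset b1 b2 d i j))

theorem card_S (b1 b2 c d : Equiv.Perm (Fin m)) : (S b1 b2 c d).card = X b1 b2 c d := by
  unfold S X
  simp only [Finset.card_sigma, Finset.card_product]

theorem cover_lower (hm : 5 ≤ m) (M : Fin 7 → Fin 7 → Fin m → Fin m → Prop)
    (hA : ∀ u v i j, M u v i j → G7.Adj u v)
    (hS : ∀ u v i j, M u v i j → M v u j i)
    (h1 : ∀ u v i j j', M u v i j → M u v i j' → j = j')
    (h2 : ∀ u v i i' j, M u v i j → M u v i' j → i = i') :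
    q m ≤ (Set.ncard {f : Fin 7 → Fin m | ∀ u v, ¬ M u v (f u) (f v)} : ℤ) ∧
    ((Set.ncard {f : Fin 7 → Fin m | ∀ u v, ¬ M u v (f u) (f v)} : ℤ) ≤ q m → Even m) := by
  classical
  have hex : ∀ u v : Fin 7, ∃ σ : Equiv.Perm (Fin m), ∀ i j, M u v i j → σ i = j :=
    fun u v => exists_perm_extend (M u v) (h1 u v) (h2 u v)
  choose s hs using hex
  let g : ((_ : Fin m) × (_ : Fin m) × ((Fin m × Fin m) × (Fin m × Fin m × Fin m))) →
      (Fin 7 → Fin m) := fun t =>
    ![t.2.1, s 0 1 t.1, s 0 2 t.2.2.2.1, s 0 3 t.2.2.2.2.1, s 0 4 t.2.2.1.1,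
      s 4 5 (s 0 4 t.2.2.1.2), s 2 6 (s 0 2 t.2.2.2.2.2)]
  have hg : Function.Injective g := by
    rintro ⟨j, i, ⟨u, v⟩, ⟨k, l, w⟩⟩ ⟨j', i', ⟨u', v'⟩, ⟨k', l', w'⟩⟩ h
    have e0 := congrFun h 0
    have e1 := congrFun h 1
    have e2 := congrFun h 2
    have e3 := congrFun h 3
    have e4 := congrFun h 4
    have e5 := congrFun h 5
    have e6 := congrFun h 6
    simp [g] at e0 e1 e2 e3 e4 e5 e6
    subst e0 e1 e2 e3 e4 e5 e6
    rfl
  set b1 : Equiv.Perm (Fin m) := (s 0 2)⁻¹ * s 1 2 * s 0 1 with hb1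
  set b2 : Equiv.Perm (Fin m) := (s 0 3)⁻¹ * s 1 3 * s 0 1 with hb2
  set c : Equiv.Perm (Fin m) := (s 0 4)⁻¹ * (s 4 5)⁻¹ * (s 5 1)⁻¹ * s 0 1 with hc
  set d : Equiv.Perm (Fin m) := (s 0 3)⁻¹ * s 6 3 * s 2 6 * s 0 2 with hd
  have hsub : g '' (S b1 b2 c d : Set _) ⊆ {f : Fin 7 → Fin m | ∀ u v, ¬ M u v (f u) (f v)} := by
    rintro f ⟨⟨j, i, ⟨u, v⟩, ⟨k, l, w⟩⟩, ht, rfl⟩
    simp only [S, Aset, Bset, Finset.coe_sigma, Finset.mem_coe, Set.mem_sigma_iff, Finset.mem_sigma,
      Finset.mem_univ, true_and, Finset.mem_erase, Finset.mem_product, Finset.mem_filter,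
      and_true] at ht
    obtain ⟨hij, ⟨hu, hvu, hvc⟩, hki, hkb, hli, hlb, hwk, hdw⟩ := ht
    have hE : ∀ p ∈ E, ¬ M p.1 p.2 (g ⟨j, i, ⟨u, v⟩, ⟨k, l, w⟩⟩ p.1) (g ⟨j, i, ⟨u, v⟩, ⟨k, l, w⟩⟩ p.2) := by
      intro p hp hM
      have hs' := hs _ _ _ _ hM
      simp only [E, List.mem_cons, List.not_mem_nil, or_false] at hp
      rcases hp with rfl | rfl | rfl | rfl | rfl | rfl | rfl | rfl | rfl | rfl
      · simp [g] at hs'
        exact hij hs'
      · simp [g] at hs'
        exact hki hs'.symm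
      · simp [g] at hs'
        exact hli hs'.symm
      · simp [g] at hs'
        apply hkb
        rw [hb1]
        simp [hs']
      · simp [g] at hs'
        apply hlb
        rw [hb2]
        simp [hs']
      · simp [g] at hs'
        exact hu hs'.symm
      · simp [g] at hs'
        exact hvu hs'.symm
      · simp [g] at hs'
        apply hvc
        rw [hc]
        simp [← hs']
      · simp [g] at hs'
        exact hwk hs'.symm
      · simp [g] at hs'
        apply hdw
        rw [hd]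
        simp [hs']
    intro a b hM
    have hadj := hA _ _ _ _ hM
    rw [G7, SimpleGraph.fromRel_adj] at hadj
    rcases hadj.2 with h | h
    · exact hE (a, b) h hM
    · exact hE (b, a) h (hS _ _ _ _ hM)
  have hcard : X b1 b2 c d ≤ Set.ncard {f : Fin 7 → Fin m | ∀ u v, ¬ M u v (f u) (f v)} := by
    have := Set.ncard_le_ncard hsub (Set.toFinite _)
    rw [Set.ncard_image_of_injective _ hg, Set.ncard_coe_finset, card_S] at this
    exact this
  obtain ⟨hX1, hX2⟩ := X_lower hm b1 b2 c d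
  refine ⟨le_trans hX1 (by exact_mod_cast hcard), fun hle => ?_⟩
  obtain ⟨k1, k2⟩ := hX2 (le_trans (by exact_mod_cast hcard) hle)
  have hc2 : (c : Fin m → Fin m)^[2 ^ 1] = id := by
    funext j
    simp [k2]
  have : Fact (Nat.Prime 2) := ⟨Nat.prime_two⟩
  have hmod := Equiv.Perm.card_fixedPoints_modEq (p := 2) (n := 1) hc2
  have hfix : Fintype.card (Function.fixedPoints c) = 0 := by
    rw [Fintype.card_eq_zero_iff]
    exact ⟨fun x => k1 x.1 x.2⟩
  rw [hfix, Fintype.card_fin] at hmod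
  exact (Nat.even_iff).mpr hmod

theorem cover_even (hm : Even m) (hm1 : 1 ≤ m) :
    ∃ M : Fin 7 → Fin 7 → Fin m → Fin m → Prop,
      (∀ u v i j, M u v i j → G7.Adj u v) ∧
      (∀ u v i j, M u v i j → M v u j i) ∧
      (∀ u v i j j', M u v i j → M u v i j' → j = j') ∧
      (∀ u v i i' j, M u v i j → M u v i' j → i = i') ∧
      (Set.ncard {f : Fin 7 → Fin m | ∀ u v, ¬ M u v (f u) (f v)} : ℤ) ≤ q m := by
  classical
  let sp : Fin 7 → Fin 7 → Prop := fun u v =>
    (u, v) ∈ ([(5, 1), (1, 5), (6, 3), (3, 6)] : List (Fin 7 × Fin 7))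
  have hsp : ∀ u v, sp u v ↔ sp v u := by
    intro u v
    simp only [sp, List.mem_cons, Prod.mk.injEq, List.not_mem_nil, or_false]
    tauto
  let M : Fin 7 → Fin 7 → Fin m → Fin m → Prop := fun u v i j =>
    G7.Adj u v ∧ if sp u v then j = Fin.rev i else j = i
  refine ⟨M, fun u v i j h => h.1, ?_, ?_, ?_, ?_⟩
  · intro u v i j h
    refine ⟨h.1.symm, ?_⟩
    have h2 := h.2
    by_cases hs : sp u v
    · rw [if_pos hs] at h2
      rw [if_pos ((hsp u v).mp hs), h2]
      simp
    · rw [if_neg hs] at h2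
      rw [if_neg (fun h' => hs ((hsp u v).mpr h')), h2]
  · intro u v i j j' h h'
    have h2 := h.2
    have h2' := h'.2
    by_cases hs : sp u v
    · rw [if_pos hs] at h2 h2'
      rw [h2, h2']
    · rw [if_neg hs] at h2 h2'
      rw [h2, h2']
  · intro u v i i' j h h'
    have h2 := h.2
    have h2' := h'.2
    by_cases hs : sp u v
    · rw [if_pos hs] at h2 h2'
      rw [h2] at h2'
      exact Fin.rev_injective h2'
    · rw [if_neg hs] at h2 h2'
      rw [← h2, ← h2']
  · rw [← X_even hm hm1, ← card_S]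
    have : Set.ncard {f : Fin 7 → Fin m | ∀ u v, ¬ M u v (f u) (f v)} ≤
        Set.ncard (↑(S (1 : Equiv.Perm (Fin m)) 1 Fin.revPerm Fin.revPerm) :
          Set ((_ : Fin m) × (_ : Fin m) × ((Fin m × Fin m) × (Fin m × Fin m × Fin m)))) := by
      apply Set.ncard_le_ncard_of_injOn
        (fun f => (⟨f 1, f 0, (f 4, f 5), (f 2, f 3, f 6)⟩ :
          (_ : Fin m) × (_ : Fin m) × ((Fin m × Fin m) × (Fin m × Fin m × Fin m))))
      · intro f hf
        simp only [Set.mem_ofPred_eq] at hf
        have k : ∀ u v, (G7.Adj u v) → ¬ (if sp u v then f v = Fin.rev (f u) else f v = f u) :=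
          fun u v h1 h2 => hf u v ⟨h1, h2⟩
        have k01 := k 0 1 (by simp [G7, E])
        have k02 := k 0 2 (by simp [G7, E])
        have k03 := k 0 3 (by simp [G7, E])
        have k12 := k 1 2 (by simp [G7, E])
        have k13 := k 1 3 (by simp [G7, E])
        have k04 := k 0 4 (by simp [G7, E])
        have k45 := k 4 5 (by simp [G7, E])
        have k51 := k 1 5 (by simp [G7, E])
        have k26 := k 2 6 (by simp [G7, E])
        have k63 := k 6 3 (by simp [G7, E])
        simp [sp] at k01 k02 k03 k12 k13 k04 k45 k51 k26 k63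
        simp only [S, Aset, Bset, Finset.coe_sigma, Finset.mem_coe, Set.mem_sigma_iff,
          Finset.mem_sigma, Finset.mem_univ, true_and, Finset.mem_erase, Finset.mem_product,
          Finset.mem_filter, and_true, Equiv.Perm.coe_one, id_eq, Fin.revPerm_apply, ne_eq]
        refine ⟨fun h => k01 h.symm, ⟨k04, k45, k51⟩, k02, k12, k03, k13, k26, fun h => k63 h.symm⟩
      · intro f _ f' _ h
        simp only [Sigma.mk.injEq, heq_eq_eq, Prod.mk.injEq] at h
        funext x
        fin_cases x <;> simp_all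
    rw [Set.ncard_coe_finset] at this
    exact_mod_cast this

end Pool.Agent.H46.DPColor
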