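import Mathlib

set_option autoImplicit false

set_option linter.unusedSectionVars false

namespace Pool.Agent.H46.MatchMat

open Finset

variable {V : Type*}

/-- `f` encodes a matching of `G`: an involution moving vertices along edges. -/
def MF (G : SimpleGraph V) (f : V → V) : Prop :=
  (∀ v, f (f v) = v) ∧ ∀ v, f v ≠ v → G.Adj v (f v)

theorem exists_MF_of_matching {G : SimpleGraph V} (W : G.Subgraph) (hW : W.IsMatching) :
    ∃ f, MF G f ∧ ∀ v, f v ≠ v ↔ v ∈ W.verts := by
  classical
  let f : V → V := fun v => if h : v ∈ W.verts then (hW h).choose else v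
  have hf : ∀ v, v ∈ W.verts → W.Adj v (f v) := by
    intro v hv
    simp only [f, dif_pos hv]
    exact (hW hv).choose_spec.1
  have hf' : ∀ v, v ∉ W.verts → f v = v := by
    intro v hv
    simp only [f, dif_neg hv]
  have hne : ∀ v, v ∈ W.verts → f v ≠ v := by
    intro v hv h
    have := (hf v hv).ne
    exact this h.symm
  refine ⟨f, ⟨?_, ?_⟩, ?_⟩
  · intro v
    by_cases hv : v ∈ W.verts
    · have h1 := hf v hv
      have h2 : f v ∈ W.verts := W.edge_vert h1.symm
      have h3 := hf (f v) h2
      exact hW.eq_of_adj_left h3 h1.symm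
    · rw [hf' v hv, hf' v hv]
  · intro v hv
    have : v ∈ W.verts := by
      by_contra h
      exact hv (hf' v h)
    exact (hf v this).adj_sub
  · intro v
    constructor
    · intro h
      by_contra h'
      exact h (hf' v h')
    · exact hne v

/-- bases of a matroid of rank `r` on a finite set, as finsets -/
structure IsMat [DecidableEq V] (Bas : Finset V → Prop) (r : ℕ) : Prop where
  ne : ∃ B, Bas B
  card : ∀ B, Bas B → B.card = r
  exch : ∀ B B', Bas B → Bas B' → ∀ e ∈ B, e ∉ B' → ∃ f ∈ B', f ∉ B ∧ Bas (insert f (B.erase e))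

section core

variable [Fintype V] [DecidableEq V]

/-- non-coloops -/
def D (Bas : Finset V → Prop) (x : V) : Prop := ∃ B, Bas B ∧ x ∉ B

/-- series relation on the non-coloops -/
def R (Bas : Finset V → Prop) (x y : V) : Prop :=
  D Bas x ∧ D Bas y ∧ (x = y ∨ ∀ B, Bas B → x ∈ B ∨ y ∈ B)

variable {Bas : Finset V → Prop} {r : ℕ}

theorem R_refl {x : V} (hx : D Bas x) : R Bas x x := ⟨hx, hx, Or.inl rfl⟩

theorem R_symm {x y : V} (h : R Bas x y) : R Bas y x :=
  ⟨h.2.1, h.1, h.2.2.elim (fun h => Or.inl h.symm) (fun h => Or.inr fun B hB => (h B hB).symm)⟩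

theorem R_trans (H : IsMat Bas r) {x y z : V} (h1 : R Bas x y) (h2 : R Bas y z) : R Bas x z := by
  refine ⟨h1.1, h2.2.1, ?_⟩
  rcases h1.2.2 with rfl | h1'
  · exact h2.2.2
  rcases h2.2.2 with rfl | h2'
  · exact Or.inr h1'
  by_cases hxz : x = z
  · exact Or.inl hxz
  right
  intro B hB
  by_contra hcon
  push Not at hcon
  have hy : y ∈ B := (h1' B hB).resolve_left hcon.1
  obtain ⟨B2, hB2, hyB2⟩ := h1.2.1
  obtain ⟨f, hf, hfB, hB3⟩ := H.exch B B2 hB hB2 y hy hyB2
  have hy3 : y ∉ insert f (B.erase y) := by
    simp only [Finset.mem_insert, Finset.mem_erase, not_or, ne_eq, not_true_eq_false, false_and,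
      not_false_eq_true, and_true]
    rintro rfl
    exact hfB hy
  have hx3 := (h1' _ hB3).resolve_right hy3
  have hz3 := (h2' _ hB3).resolve_left hy3
  simp only [Finset.mem_insert, Finset.mem_erase] at hx3 hz3
  have e1 : x = f := hx3.resolve_right (fun h => hcon.1 h.2)
  have e2 : z = f := hz3.resolve_right (fun h => hcon.2 h.2)
  exact hxz (e1.trans e2.symm)

open Classical in
/-- class of `x` -/
noncomputable def cl (Bas : Finset V → Prop) (x : V) : Finset V := univ.filter (fun y => R Bas x y)

theorem mem_cl {x y : V} : y ∈ cl Bas x ↔ R Bas x y := by simp [cl]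

open Classical in
/-- the finset of classes -/
noncomputable def classes (Bas : Finset V → Prop) : Finset (Finset V) :=
  (univ.filter (fun x => D Bas x)).image (cl Bas)

theorem mem_classes {P : Finset V} : P ∈ classes Bas ↔ ∃ x, D Bas x ∧ cl Bas x = P := by
  simp [classes]

theorem cl_eq_of_mem (H : IsMat Bas r) {P : Finset V} (hP : P ∈ classes Bas) {x : V} (hx : x ∈ P) :
    cl Bas x = P := by
  obtain ⟨y, hy, rfl⟩ := mem_classes.mp hP
  rw [mem_cl] at hx
  ext z
  rw [mem_cl, mem_cl]
  exact ⟨fun h => R_trans H hx h, fun h => R_trans H (R_symm hx) h⟩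

theorem D_of_mem {P : Finset V} (hP : P ∈ classes Bas) {x : V} (hx : x ∈ P) : D Bas x := by
  obtain ⟨y, hy, rfl⟩ := mem_classes.mp hP
  rw [mem_cl] at hx
  exact hx.2.1

theorem class_nonempty {P : Finset V} (hP : P ∈ classes Bas) : P.Nonempty := by
  obtain ⟨y, hy, rfl⟩ := mem_classes.mp hP
  exact ⟨y, mem_cl.mpr (R_refl hy)⟩

theorem class_eq (H : IsMat Bas r) {P Q : Finset V} (hP : P ∈ classes Bas) (hQ : Q ∈ classes Bas)
    {x : V} (hx : x ∈ P) (hx' : x ∈ Q) : P = Q := by
  rw [← cl_eq_of_mem H hP hx, ← cl_eq_of_mem H hQ hx']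

theorem R_of_mem (H : IsMat Bas r) {P : Finset V} (hP : P ∈ classes Bas) {x y : V} (hx : x ∈ P)
    (hy : y ∈ P) : R Bas x y := by
  rw [← cl_eq_of_mem H hP hx, mem_cl] at hy
  exact hy

theorem mem_of_R (H : IsMat Bas r) {P : Finset V} (hP : P ∈ classes Bas) {x y : V} (hx : x ∈ P)
    (hxy : R Bas x y) : y ∈ P := by
  rw [← cl_eq_of_mem H hP hx, mem_cl]
  exact hxy

theorem cl_mem_classes {x : V} (hx : D Bas x) : cl Bas x ∈ classes Bas :=
  mem_classes.mpr ⟨x, hx, rfl⟩

theorem self_mem_cl {x : V} (hx : D Bas x) : x ∈ cl Bas x := mem_cl.mpr (R_refl hx)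

/-- a base misses at most one element of a class -/
theorem mem_base_of_ne (H : IsMat Bas r) {P B : Finset V} (hP : P ∈ classes Bas) (hB : Bas B)
    {x y : V} (hx : x ∈ P) (hy : y ∈ P) (hxy : x ≠ y) (hxB : x ∉ B) : y ∈ B := by
  rcases (R_of_mem H hP hx hy).2.2 with h | h
  · exact absurd h hxy
  · exact (h B hB).resolve_left hxB

open Classical in
/-- non-coloops as a finset -/
noncomputable def DD (Bas : Finset V → Prop) : Finset V := univ.filter (fun x => D Bas x)

open Classical in
/-- coloops as a finset -/
noncomputable def CC (Bas : Finset V → Prop) : Finset V := univ.filter (fun x => ¬ D Bas x)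

theorem mem_DD {x : V} : x ∈ DD Bas ↔ D Bas x := by simp [DD]

theorem mem_CC {x : V} : x ∈ CC Bas ↔ ¬ D Bas x := by simp [CC]

/-- a fixed point free involution on a finset forces even cardinality -/
theorem even_of_inv (S : Finset V) (f : V → V) (h1 : ∀ v ∈ S, f v ∈ S) (h2 : ∀ v ∈ S, f (f v) = v)
    (h3 : ∀ v ∈ S, f v ≠ v) : Even S.card := by
  have h : ∑ v ∈ S, (1 : ZMod 2) = 0 := by
    refine Finset.sum_involution (fun v _ => f v) ?_ ?_ ?_ ?_
    · intro v _
      decide
    · intro v hv _
      exact h3 v hv
    · intro v hv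
      exact h1 v hv
    · intro v hv
      exact h2 v hv
  simp only [Finset.sum_const, nsmul_eq_mul, mul_one] at h
  rw [ZMod.natCast_eq_zero_iff] at h
  exact even_iff_two_dvd.mpr h

/-- support of an involution as a finset -/
def supp (f : V → V) : Finset V := univ.filter (fun v => f v ≠ v)

theorem mem_supp {f : V → V} {v : V} : v ∈ supp f ↔ f v ≠ v := by simp [supp]

section onlyif

variable {G : SimpleGraph V}

theorem supp_card_le (H : IsMat Bas r)
    (hG : ∀ S : Finset V, (∃ B, Bas B ∧ S ⊆ B) ↔ ∃ f, MF G f ∧ ∀ v ∈ S, f v ≠ v)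
    {f : V → V} (hf : MF G f) : (supp f).card ≤ r := by
  obtain ⟨B, hB, hSB⟩ := (hG (supp f)).mpr ⟨f, hf, fun v hv => mem_supp.mp hv⟩
  rw [← H.card B hB]
  exact Finset.card_le_card hSB

theorem supp_base (H : IsMat Bas r)
    (hG : ∀ S : Finset V, (∃ B, Bas B ∧ S ⊆ B) ↔ ∃ f, MF G f ∧ ∀ v ∈ S, f v ≠ v)
    {f : V → V} (hf : MF G f) (hr : r ≤ (supp f).card) : Bas (supp f) := by
  obtain ⟨B, hB, hSB⟩ := (hG (supp f)).mpr ⟨f, hf, fun v hv => mem_supp.mp hv⟩
  have : supp f = B := Finset.eq_of_subset_of_card_le hSB (by rw [H.card B hB]; exact hr)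
  rw [this]
  exact hB

theorem base_supp (H : IsMat Bas r)
    (hG : ∀ S : Finset V, (∃ B, Bas B ∧ S ⊆ B) ↔ ∃ f, MF G f ∧ ∀ v ∈ S, f v ≠ v)
    {B : Finset V} (hB : Bas B) : ∃ f, MF G f ∧ supp f = B := by
  obtain ⟨f, hf, hfB⟩ := (hG B).mp ⟨B, hB, Finset.Subset.refl _⟩
  refine ⟨f, hf, ?_⟩
  have hsub : B ⊆ supp f := fun v hv => mem_supp.mpr (hfB v hv)
  exact (Finset.eq_of_subset_of_card_le hsub (by
    rw [H.card B hB]; exact supp_card_le H hG hf)).symm

theorem R_of_adj (H : IsMat Bas r)
    (hG : ∀ S : Finset V, (∃ B, Bas B ∧ S ⊆ B) ↔ ∃ f, MF G f ∧ ∀ v ∈ S, f v ≠ v)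
    {x y : V} (hx : D Bas x) (hy : D Bas y) (hxy : G.Adj x y) : R Bas x y := by
  refine ⟨hx, hy, Or.inr ?_⟩
  intro B hB
  by_contra hcon
  push Not at hcon
  obtain ⟨f, hf, hfB⟩ := base_supp H hG hB
  have hfx : f x = x := by
    by_contra h
    exact hcon.1 (hfB ▸ mem_supp.mpr h)
  have hfy : f y = y := by
    by_contra h
    exact hcon.2 (hfB ▸ mem_supp.mpr h)
  have hne : x ≠ y := hxy.ne
  let g : V → V := fun v => if v = x then y else if v = y then x else f v
  have hg : MF G g := by
    constructor
    · intro v
      by_cases h1 : v = x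
      · subst h1; simp [g]
      · by_cases h2 : v = y
        · subst h2; simp [g, h1]
        · have h3 : f v ≠ x := by
            intro h; apply h1
            have := hf.1 v
            rw [h, hfx] at this
            exact this.symm
          have h4 : f v ≠ y := by
            intro h; apply h2
            have := hf.1 v
            rw [h, hfy] at this
            exact this.symm
          simp [g, h1, h2, h3, h4, hf.1 v]
    · intro v hv
      by_cases h1 : v = x
      · subst h1; simpa [g] using hxy
      · by_cases h2 : v = y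
        · subst h2; simpa [g, h1] using hxy.symm
        · simp only [g, h1, h2, if_false] at hv ⊢
          exact hf.2 v hv
  have hsub : insert x (insert y B) ⊆ supp g := by
    intro v hv
    rw [mem_supp]
    simp only [Finset.mem_insert] at hv
    by_cases h1 : v = x
    · subst h1; simp [g, hne.symm]
    · by_cases h2 : v = y
      · subst h2; simp [g, h1, hne]
      · have hvB : v ∈ B := by tauto
        rw [← hfB, mem_supp] at hvB
        simpa [g, h1, h2] using hvB
  have hcard : (insert x (insert y B)).card = r + 2 := by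
    rw [Finset.card_insert_of_notMem, Finset.card_insert_of_notMem hcon.2, H.card B hB]
    simp only [Finset.mem_insert, not_or]
    exact ⟨hne, hcon.1⟩
  have := Finset.card_le_card hsub
  have h2 := supp_card_le H hG hg
  omega

/-- an even class is not matched internally by a maximum matching -/
theorem exists_ext (H : IsMat Bas r)
    (hG : ∀ S : Finset V, (∃ B, Bas B ∧ S ⊆ B) ↔ ∃ f, MF G f ∧ ∀ v ∈ S, f v ≠ v)
    {P : Finset V} (hP : P ∈ classes Bas) {f : V → V} (hf : MF G f)
    (hcov : ∀ v ∈ P, f v ≠ v) : ∃ v ∈ P, f v ∉ P := by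
  by_contra hcon
  push Not at hcon
  -- overlap function
  let ov : (V → V) → ℕ := fun g => (univ.filter (fun v => g v = f v ∧ f v ≠ v)).card
  let good : (V → V) → Prop := fun g => MF G g ∧ Bas (supp g) ∧ ∃ u ∈ P, g u = u
  have hex : ∃ g, good g := by
    obtain ⟨x, hx⟩ := class_nonempty hP
    obtain ⟨B, hB, hxB⟩ := D_of_mem hP hx
    obtain ⟨g, hg, hgB⟩ := base_supp H hG hB
    refine ⟨g, hg, hgB ▸ hB, x, hx, ?_⟩
    by_contra h
    exact hxB (hgB ▸ mem_supp.mpr h)
  have hmax : ∃ g, good g ∧ ∀ g', good g' → ov g' ≤ ov g := by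
    have hfin : Set.Finite {g : V → V | good g} := Set.toFinite _
    obtain ⟨g, hg, hmax⟩ := Set.exists_max_image {g : V → V | good g} ov hfin hex
    exact ⟨g, hg, hmax⟩
  obtain ⟨g, ⟨hg, hgB, u, huP, hgu⟩, hmax⟩ := hmax
  set v := f u with hv
  have hvP : v ∈ P := hcon u huP
  have hvu : v ≠ u := hcov u huP
  have hgv : g v ≠ v := by
    have := mem_base_of_ne H hP hgB huP hvP hvu.symm (by rw [mem_supp]; simpa using hgu)
    exact mem_supp.mp this
  set w := g v with hw
  have hwu : w ≠ u := by
    intro h
    have h1 := hg.1 v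
    rw [← hw, h, hgu] at h1
    exact hvu h1.symm
  have hfv : f v = u := hf.1 u
  have hgw : g w = v := hg.1 v
  let g' : V → V := fun x => if x = u then v else if x = v then u else if x = w then w else g x
  have hg' : MF G g' := by
    constructor
    · intro x
      by_cases h1 : x = u
      · subst h1; simp [g', hvu]
      · by_cases h2 : x = v
        · subst h2; simp [g', h1]
        · by_cases h3 : x = w
          · subst h3; simp [g', h1, h2]
          · have e1 : g x ≠ u := by
              intro h; apply h1
              have := hg.1 x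
              rw [h, hgu] at this
              exact this.symm
            have e2 : g x ≠ v := by
              intro h; apply h3
              have := hg.1 x
              rw [h] at this
              rw [← this]
            have e3 : g x ≠ w := by
              intro h; apply h2
              have := hg.1 x
              rw [h, hgw] at this
              exact this.symm
            simp [g', h1, h2, h3, e1, e2, e3, hg.1 x]
    · intro x hx
      by_cases h1 : x = u
      · subst h1
        simp only [g', if_true]
        exact hf.2 _ (hcov _ huP)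
      · by_cases h2 : x = v
        · rw [h2]
          simp only [g', hvu, if_false, if_true]
          exact (hf.2 u (hcov u huP)).symm
        · by_cases h3 : x = w
          · exfalso; apply hx
            rw [h3]
            simp [g', hgv, hwu]
          · simp only [g', h1, h2, h3, if_false] at hx ⊢
            exact hg.2 x hx
  have hsupp : supp g' = insert u ((supp g).erase w) := by
    ext x
    rw [mem_supp, Finset.mem_insert, Finset.mem_erase, mem_supp]
    by_cases h1 : x = u
    · subst h1; simp [g', hvu]
    · by_cases h2 : x = v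
      · rw [h2]
        simp only [g', hvu, if_false, if_true]
        constructor
        · intro _
          exact Or.inr ⟨fun h => hgv h.symm, hgv⟩
        · intro _
          exact hvu.symm
      · by_cases h3 : x = w
        · rw [h3]; simp [g', hwu, hgv]
        · simp [g', h1, h2, h3]
  have hwmem : w ∈ supp g := by
    rw [mem_supp, hgw]; exact fun h => hgv h.symm
  have humem : u ∉ (supp g).erase w := by
    simp [mem_supp, hgu]
  have hcard : (supp g').card = r := by
    rw [hsupp, Finset.card_insert_of_notMem humem, Finset.card_erase_of_mem hwmem, H.card _ hgB]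
    have : 0 < (supp g).card := Finset.card_pos.mpr ⟨w, hwmem⟩
    rw [H.card _ hgB] at this
    omega
  have hbase' : Bas (supp g') := supp_base H hG hg' hcard.ge
  have hwD : D Bas w := ⟨supp g', hbase', by
    rw [hsupp]; simp [hwu]⟩
  have hwP : w ∈ P := by
    have hadj : G.Adj v w := hg.2 v hgv
    exact mem_of_R H hP hvP (R_of_adj H hG (D_of_mem hP hvP) hwD hadj)
  have hgood' : good g' := ⟨hg', hbase', w, hwP, by simp [g', hwu, hgv]⟩
  have hle := hmax g' hgood'
  have hlt : ov g < ov g' := by
    apply Finset.card_lt_card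
    rw [Finset.ssubset_iff_of_subset]
    · refine ⟨u, ?_, ?_⟩
      · simp only [Finset.mem_filter, Finset.mem_univ, true_and]
        refine ⟨by simp [g', hv], hcov u huP⟩
      · simp only [Finset.mem_filter, Finset.mem_univ, true_and, not_and]
        intro h
        exact absurd (h.symm.trans hgu) (hcov u huP)
    · intro x hx
      simp only [Finset.mem_filter, Finset.mem_univ, true_and] at hx ⊢
      refine ⟨?_, hx.2⟩
      have h1 : x ≠ u := by
        rintro rfl
        exact hx.2 (hx.1.symm.trans hgu)
      have h2 : x ≠ v := by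
        intro h
        rw [h, hfv] at hx
        exact hwu hx.1
      have h3 : x ≠ w := by
        intro h
        rw [h, hgw] at hx
        have := hf.1 w
        rw [← hx.1, hfv] at this
        exact hwu this.symm
      simp only [g', h1, h2, h3, if_false]
      exact hx.1
  omega

theorem core_onlyif (H : IsMat Bas r)
    (hG : ∀ S : Finset V, (∃ B, Bas B ∧ S ⊆ B) ↔ ∃ f, MF G f ∧ ∀ v ∈ S, f v ≠ v) :
    Even r ∧ (classes Bas).card + ((classes Bas).filter (fun P => Even P.card)).card
      ≤ (Fintype.card V - r) + (CC Bas).card := by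
  classical
  obtain ⟨B, hB⟩ := H.ne
  obtain ⟨f, hf, hfB⟩ := base_supp H hG hB
  have hrev : Even r := by
    rw [← H.card B hB, ← hfB]
    apply even_of_inv (supp f) f
    · intro v hv
      rw [mem_supp] at hv ⊢
      rw [hf.1 v]
      exact fun h => hv h.symm
    · intro v _; exact hf.1 v
    · intro v hv; exact mem_supp.mp hv
  refine ⟨hrev, ?_⟩
  -- external elements of a class
  let ext : Finset V → Finset V := fun P => P.filter (fun v => v ∈ B ∧ f v ∉ P)
  have hextC : ∀ P ∈ classes Bas, ∀ v ∈ ext P, ¬ D Bas (f v) := by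
    intro P hP v hv hD
    simp only [ext, Finset.mem_filter] at hv
    obtain ⟨hvP, hvB, hfv⟩ := hv
    rw [← hfB, mem_supp] at hvB
    exact hfv (mem_of_R H hP hvP (R_of_adj H hG (D_of_mem hP hvP) hD (hf.2 v hvB)))
  -- termwise inequality
  have hterm : ∀ P ∈ classes Bas, 1 + (if Even P.card then 1 else 0) ≤
      (ext P).card + (P \ B).card := by
    intro P hP
    -- internal part is even
    have hint : Even ((P ∩ B) \ ext P).card := by
      apply even_of_inv _ f
      · intro v hv
        simp only [ext, Finset.mem_sdiff, Finset.mem_inter, Finset.mem_filter, not_and, not_not] at hv ⊢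
        obtain ⟨⟨hvP, hvB⟩, h⟩ := hv
        have hfvP := h hvP hvB
        have hvB' := hvB
        rw [← hfB, mem_supp] at hvB'
        refine ⟨⟨hfvP, ?_⟩, ?_⟩
        · rw [← hfB, mem_supp, hf.1 v]
          exact fun h => hvB' h.symm
        · intro _ _
          rw [hf.1 v]
          exact hvP
      · intro v _; exact hf.1 v
      · intro v hv
        simp only [Finset.mem_sdiff, Finset.mem_inter] at hv
        have := hv.1.2
        rw [← hfB, mem_supp] at this
        exact this
    have hsub : ext P ⊆ P ∩ B := by
      intro v hv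
      simp only [ext, Finset.mem_filter] at hv
      exact Finset.mem_inter.mpr ⟨hv.1, hv.2.1⟩
    have hc1 : ((P ∩ B) \ ext P).card + (ext P).card = (P ∩ B).card := by
      rw [Finset.card_sdiff_add_card_eq_card hsub]
    have hc2 : (P \ B).card + (P ∩ B).card = P.card := Finset.card_sdiff_add_card_inter P B
    have hmiss : (P \ B).card ≤ 1 := by
      rw [Finset.card_le_one]
      intro a ha b hb
      by_contra hab
      rw [Finset.mem_sdiff] at ha hb
      exact hb.2 (mem_base_of_ne H hP hB ha.1 hb.1 hab ha.2)
    obtain ⟨t, ht⟩ := hint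
    by_cases hcov : (P \ B).card = 0
    · -- covered class
      have hPB : ∀ v ∈ P, f v ≠ v := by
        intro v hv
        have : P \ B = ∅ := Finset.card_eq_zero.mp hcov
        have hvB : v ∈ B := by
          by_contra h
          have h2 : v ∈ P \ B := Finset.mem_sdiff.mpr ⟨hv, h⟩
          rw [this] at h2
          exact absurd h2 (Finset.notMem_empty v)
        rw [← hfB, mem_supp] at hvB
        exact hvB
      obtain ⟨v, hvP, hfv⟩ := exists_ext H hG hP hf hPB
      have hvext : v ∈ ext P := by
        simp only [ext, Finset.mem_filter]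
        refine ⟨hvP, ?_, hfv⟩
        rw [← hfB, mem_supp]
        exact hPB v hvP
      have hpos : 0 < (ext P).card := Finset.card_pos.mpr ⟨v, hvext⟩
      by_cases hev : Even P.card
      · obtain ⟨k, hk⟩ := hev
        rw [if_pos ⟨k, hk⟩]
        omega
      · rw [if_neg hev]
        omega
    · by_cases hev : Even P.card
      · obtain ⟨k, hk⟩ := hev
        rw [if_pos ⟨k, hk⟩]
        omega
      · rw [if_neg hev]
        omega
  -- summation
  have hsum := Finset.sum_le_sum hterm
  have hl : ∑ P ∈ classes Bas, (1 + (if Even P.card then 1 else 0)) =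
      (classes Bas).card + ((classes Bas).filter (fun P => Even P.card)).card := by
    rw [Finset.sum_add_distrib, Finset.card_filter]
    simp
  have hr1 : ∑ P ∈ classes Bas, (P \ B).card ≤ Fintype.card V - r := by
    rw [← Finset.card_biUnion]
    · rw [← H.card B hB, ← Finset.card_compl]
      apply Finset.card_le_card
      intro v hv
      simp only [Finset.mem_biUnion, Finset.mem_sdiff] at hv
      obtain ⟨P, _, _, hvB⟩ := hv
      exact Finset.mem_compl.mpr hvB
    · intro P hP Q hQ hPQ
      rw [Function.onFun, Finset.disjoint_left]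
      intro v hv hv'
      rw [Finset.mem_sdiff] at hv hv'
      exact hPQ (class_eq H hP hQ hv.1 hv'.1)
  have hr2 : ∑ P ∈ classes Bas, (ext P).card ≤ (CC Bas).card := by
    rw [← Finset.card_biUnion]
    · apply Finset.card_le_card_of_injOn f
      · intro v hv
        simp only [Finset.coe_biUnion, Set.mem_iUnion, Finset.mem_coe] at hv
        obtain ⟨P, hP, hv⟩ := hv
        exact_mod_cast mem_CC.mpr (hextC P hP v hv)
      · intro a _ b _ hab
        have := hf.1 a
        rw [hab, hf.1 b] at this
        exact this.symm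
    · intro P hP Q hQ hPQ
      rw [Function.onFun, Finset.disjoint_left]
      intro v hv hv'
      simp only [ext, Finset.mem_filter] at hv hv'
      exact hPQ (class_eq H hP hQ hv.1 hv'.1)
  rw [hl, Finset.sum_add_distrib] at hsum
  omega

end onlyif

end core

end Pool.Agent.H46.MatchMat
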