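import Pool.Agent.H46.MatchMatA

set_option autoImplicit false

set_option linter.unusedSectionVars false

namespace Pool.Agent.H46.MatchMat

open Finset

variable {V : Type*} {ι : Type*}

/-- `S` is the vertex set of a matching of `G` -/
def Mble (G : SimpleGraph V) (S : Set V) : Prop := ∃ W : G.Subgraph, W.IsMatching ∧ W.verts = S

theorem Mble.union {G : SimpleGraph V} {S T : Set V} (hS : Mble G S) (hT : Mble G T)
    (hd : Disjoint S T) : Mble G (S ∪ T) := by
  obtain ⟨W, hW, rfl⟩ := hS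
  obtain ⟨W', hW', rfl⟩ := hT
  refine ⟨W ⊔ W', hW.sup hW' ?_, rfl⟩
  rw [hW.support_eq_verts, hW'.support_eq_verts]
  exact hd

theorem Mble.iUnion {G : SimpleGraph V} {κ : Type*} {S : κ → Set V} (hS : ∀ k, Mble G (S k))
    (hd : Pairwise fun i j => Disjoint (S i) (S j)) : Mble G (⋃ k, S k) := by
  choose W hW hWS using hS
  refine ⟨⨆ k, W k, SimpleGraph.Subgraph.IsMatching.iSup hW ?_, ?_⟩
  · intro i j hij
    rw [(hW i).support_eq_verts, (hW j).support_eq_verts, hWS, hWS]
    exact hd hij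
  · rw [SimpleGraph.Subgraph.verts_iSup]
    simp only [hWS]

theorem Mble.clique {G : SimpleGraph V} {S : Finset V} (hS : Even S.card)
    (h : ∀ u ∈ S, ∀ v ∈ S, u ≠ v → G.Adj u v) : Mble G (S : Set V) := by
  have hc : G.IsClique (S : Set V) := by
    intro u hu v hv huv
    exact h u hu v hv huv
  obtain ⟨W, hW, hW'⟩ := (hc.even_iff_exists_isMatching (S.finite_toSet)).mp (by
    rw [Set.ncard_coe_finset]; exact hS)
  exact ⟨W, hW', hW⟩

theorem Mble.bip {G : SimpleGraph V} {S T : Finset V} (hd : Disjoint S T) (hST : S.card = T.card)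
    (h : ∀ u ∈ S, ∀ v ∈ T, G.Adj u v) : Mble G ((S : Set V) ∪ (T : Set V)) := by
  obtain ⟨W, hW, hW'⟩ := SimpleGraph.Subgraph.IsMatching.exists_of_disjoint_sets_of_equiv
    (G := G) (s := (S : Set V)) (t := (T : Set V)) (by exact_mod_cast hd)
    (Finset.equivOfCardEq hST) (fun v => h _ v.2 _ (Finset.equivOfCardEq hST v).2)
  exact ⟨W, hW', hW⟩

section core

variable [Fintype V] [DecidableEq V] [DecidableEq ι]

variable {Bas : Finset V → Prop} {r : ℕ} {A : ι → V → Prop}

theorem CC_subset {B : Finset V} (hB : Bas B) : CC Bas ⊆ B := by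
  intro x hx
  rw [mem_CC] at hx
  by_contra h
  exact hx ⟨B, hB, h⟩

theorem disj_DC : Disjoint (DD Bas) (CC Bas) := by
  rw [Finset.disjoint_left]
  intro x hx hx'
  rw [mem_DD] at hx
  rw [mem_CC] at hx'
  exact hx' hx

theorem card_base_DD (H : IsMat Bas r) {B : Finset V} (hB : Bas B) :
    (B ∩ DD Bas).card + (CC Bas).card = r := by
  rw [← H.card B hB, ← Finset.card_union_of_disjoint]
  · congr 1
    ext x
    simp only [Finset.mem_union, Finset.mem_inter, mem_DD, mem_CC]
    constructor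
    · rintro (h | h)
      · exact h.1
      · exact CC_subset hB (mem_CC.mpr h)
    · intro h
      by_cases h' : D Bas x
      · exact Or.inl ⟨h, h'⟩
      · exact Or.inr h'
  · exact Finset.disjoint_of_subset_left Finset.inter_subset_right disj_DC

/-- independent subsets of `DD` have size at most `r - c` -/
theorem card_indep_le (H : IsMat Bas r) {S B : Finset V} (hB : Bas B) (hS : S ⊆ B)
    (hSD : S ⊆ DD Bas) : S.card + (CC Bas).card ≤ r := by
  rw [← card_base_DD H hB]
  have := Finset.card_le_card (Finset.subset_inter hS hSD)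
  omega

/-- an independent subset of `DD` of size `r - c` is a base when the coloops are added;
  in the form used later. -/
theorem base_of_indep (H : IsMat Bas r) {S B : Finset V} (hB : Bas B) (hS : S ⊆ B)
    (hSD : S ⊆ DD Bas) (hr : r ≤ S.card + (CC Bas).card) :
    ∀ x, x ∈ DD Bas → x ∉ S → x ∉ B := by
  intro x hx hxS hxB
  have h1 : insert x S ⊆ B ∩ DD Bas := by
    intro y hy
    rw [Finset.mem_insert] at hy
    rcases hy with rfl | hy
    · exact Finset.mem_inter.mpr ⟨hxB, hx⟩
    · exact Finset.mem_inter.mpr ⟨hS hy, hSD hy⟩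
  have h2 := Finset.card_le_card h1
  rw [Finset.card_insert_of_notMem hxS] at h2
  have h3 := card_base_DD H hB
  omega

/-- a presentation with exactly `r - c` sets, on the non-coloops -/
theorem exists_J0 (H : IsMat Bas r)
    (hA : ∀ S : Finset V, (∃ B, Bas B ∧ S ⊆ B) ↔
      ∃ g : V → ι, Set.InjOn g S ∧ ∀ v ∈ S, A (g v) v) :
    ∃ J0 : Finset ι, J0.card + (CC Bas).card = r ∧ ∀ B, Bas B → ∃ σ : V → ι,
      Set.InjOn σ (B ∩ DD Bas : Finset V) ∧ (B ∩ DD Bas).image σ = J0 ∧
      ∀ v ∈ B ∩ DD Bas, A (σ v) v := by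
  classical
  obtain ⟨B0, hB0⟩ := H.ne
  obtain ⟨g0, hg0, hg0A⟩ := (hA B0).mp ⟨B0, hB0, Finset.Subset.refl _⟩
  have hg0' : Set.InjOn g0 (B0 ∩ DD Bas : Finset V) :=
    hg0.mono (by exact_mod_cast Finset.inter_subset_left)
  have hcard0 : ((B0 ∩ DD Bas).image g0).card = (B0 ∩ DD Bas).card :=
    Finset.card_image_of_injOn hg0'
  refine ⟨(B0 ∩ DD Bas).image g0, ?_, ?_⟩
  · rw [hcard0]
    exact card_base_DD H hB0
  intro B hB
  obtain ⟨τ, hτ, hτA⟩ := (hA B).mp ⟨B, hB, Finset.Subset.refl _⟩
  set J0 := (B0 ∩ DD Bas).image g0 with hJ0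
  let t : {x // x ∈ B ∩ DD Bas} → Finset ι := fun x => J0.filter (fun j => A j x)
  have hall : ∀ s : Finset {x // x ∈ B ∩ DD Bas}, s.card ≤ (s.biUnion t).card := by
    intro s
    set X : Finset V := s.map (Function.Embedding.subtype _) with hX
    have hXc : X.card = s.card := Finset.card_map _
    have hXmem : ∀ v, v ∈ X ↔ ∃ h : v ∈ B ∩ DD Bas, (⟨v, h⟩ : {x // x ∈ B ∩ DD Bas}) ∈ s := by
      intro v
      simp [hX]
    set N := s.biUnion t with hN
    set Y := (B0 ∩ DD Bas).filter (fun b => g0 b ∉ N) with hY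
    have hkey : ∀ v ∈ X, ∀ j ∈ J0, A j v → j ∈ N := by
      intro v hv j hj hjv
      obtain ⟨h, hs⟩ := (hXmem v).mp hv
      rw [hN, Finset.mem_biUnion]
      exact ⟨⟨v, h⟩, hs, Finset.mem_filter.mpr ⟨hj, hjv⟩⟩
    have hXY : Disjoint X Y := by
      rw [Finset.disjoint_left]
      intro v hv hvY
      rw [hY, Finset.mem_filter] at hvY
      apply hvY.2
      exact hkey v hv _ (Finset.mem_image_of_mem g0 hvY.1)
        (hg0A v (Finset.mem_inter.mp hvY.1).1)
    have hind : ∃ B', Bas B' ∧ X ∪ Y ⊆ B' := by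
      rw [hA]
      refine ⟨fun v => if v ∈ X then τ v else g0 v, ?_, ?_⟩
      · intro a ha b hb hab
        have ha' : a ∈ X ∪ Y := by exact_mod_cast ha
        have hb' : b ∈ X ∪ Y := by exact_mod_cast hb
        rw [Finset.mem_union] at ha' hb'
        by_cases haX : a ∈ X <;> by_cases hbX : b ∈ X
        · simp only [haX, hbX, if_true] at hab
          obtain ⟨h1, _⟩ := (hXmem a).mp haX
          obtain ⟨h2, _⟩ := (hXmem b).mp hbX
          exact hτ (Finset.mem_inter.mp h1).1 (Finset.mem_inter.mp h2).1 hab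
        · exfalso
          simp only [haX, hbX, if_true, if_false] at hab
          have hbY := hb'.resolve_left hbX
          rw [hY, Finset.mem_filter] at hbY
          apply hbY.2
          obtain ⟨h1, _⟩ := (hXmem a).mp haX
          have := hτA a (Finset.mem_inter.mp h1).1
          rw [hab] at this
          exact hkey a haX _ (Finset.mem_image_of_mem g0 hbY.1) this
        · exfalso
          simp only [haX, hbX, if_true, if_false] at hab
          have haY := ha'.resolve_left haX
          rw [hY, Finset.mem_filter] at haY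
          apply haY.2
          obtain ⟨h1, _⟩ := (hXmem b).mp hbX
          have := hτA b (Finset.mem_inter.mp h1).1
          rw [← hab] at this
          exact hkey b hbX _ (Finset.mem_image_of_mem g0 haY.1) this
        · simp only [haX, hbX, if_false] at hab
          have haY := ha'.resolve_left haX
          have hbY := hb'.resolve_left hbX
          rw [hY, Finset.mem_filter] at haY hbY
          exact hg0 (Finset.mem_inter.mp haY.1).1 (Finset.mem_inter.mp hbY.1).1 hab
      · intro v hv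
        rw [Finset.mem_union] at hv
        by_cases hvX : v ∈ X
        · simp only [hvX, if_true]
          obtain ⟨h1, _⟩ := (hXmem v).mp hvX
          exact hτA v (Finset.mem_inter.mp h1).1
        · simp only [hvX, if_false]
          have hvY := hv.resolve_left hvX
          rw [hY, Finset.mem_filter] at hvY
          exact hg0A v (Finset.mem_inter.mp hvY.1).1
    obtain ⟨B', hB', hsub⟩ := hind
    have hsubD : X ∪ Y ⊆ DD Bas := by
      intro v hv
      rw [Finset.mem_union] at hv
      rcases hv with hv | hv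
      · obtain ⟨h1, _⟩ := (hXmem v).mp hv
        exact (Finset.mem_inter.mp h1).2
      · rw [hY, Finset.mem_filter] at hv
        exact (Finset.mem_inter.mp hv.1).2
    have h1 := card_indep_le H hB' hsub hsubD
    rw [Finset.card_union_of_disjoint hXY] at h1
    have h2 := card_base_DD H hB0
    have h3 : Y.card + ((B0 ∩ DD Bas).filter (fun b => g0 b ∈ N)).card = (B0 ∩ DD Bas).card := by
      rw [hY, add_comm]
      exact Finset.card_filter_add_card_filter_not (fun b => g0 b ∈ N)
    have h4 : ((B0 ∩ DD Bas).filter (fun b => g0 b ∈ N)).card ≤ N.card := by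
      apply Finset.card_le_card_of_injOn g0
      · intro b hb
        have : b ∈ (B0 ∩ DD Bas).filter (fun b => g0 b ∈ N) := by exact_mod_cast hb
        exact (Finset.mem_filter.mp this).2
      · exact hg0'.mono (by exact_mod_cast Finset.filter_subset _ _)
    omega
  obtain ⟨f, hf, hft⟩ := (Finset.all_card_le_biUnion_card_iff_exists_injective t).mp hall
  let σ : V → ι := fun v => if h : v ∈ B ∩ DD Bas then f ⟨v, h⟩ else g0 v
  have hσ : ∀ v (h : v ∈ B ∩ DD Bas), σ v = f ⟨v, h⟩ := by
    intro v h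
    simp only [σ, dif_pos h]
  have hinj : Set.InjOn σ (B ∩ DD Bas : Finset V) := by
    intro a ha b hb hab
    have ha' : a ∈ B ∩ DD Bas := by exact_mod_cast ha
    have hb' : b ∈ B ∩ DD Bas := by exact_mod_cast hb
    rw [hσ a ha', hσ b hb'] at hab
    have := hf hab
    exact congrArg Subtype.val this
  refine ⟨σ, hinj, ?_, ?_⟩
  · apply Finset.eq_of_subset_of_card_le
    · intro j hj
      rw [Finset.mem_image] at hj
      obtain ⟨v, hv, rfl⟩ := hj
      rw [hσ v hv]
      exact (Finset.mem_filter.mp (hft ⟨v, hv⟩)).1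
    · rw [Finset.card_image_of_injOn hinj, hcard0]
      have h1 := card_base_DD H hB0
      have h2 := card_base_DD H hB
      omega
  · intro v hv
    rw [hσ v hv]
    exact (Finset.mem_filter.mp (hft ⟨v, hv⟩)).2

/-- a presentation of the restriction to the non-coloops by exactly `r - c` sets -/
structure Pres (Bas : Finset V → Prop) (A : ι → V → Prop) (J0 : Finset ι) (r : ℕ) : Prop where
  card : J0.card + (CC Bas).card = r
  match_ : ∀ B, Bas B → ∃ σ : V → ι, Set.InjOn σ (B ∩ DD Bas : Finset V) ∧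
    (B ∩ DD Bas).image σ = J0 ∧ ∀ v ∈ B ∩ DD Bas, A (σ v) v
  ind : ∀ S : Finset V, S ⊆ DD Bas → ∀ g : V → ι, Set.InjOn g S → (∀ v ∈ S, A (g v) v) →
    ∃ B, Bas B ∧ S ⊆ B

open Classical in
/-- the sets of the presentation inside the class `P` -/
noncomputable def JP (Bas : Finset V → Prop) (A : ι → V → Prop) (J0 : Finset ι) (P : Finset V) :
    Finset ι := J0.filter (fun j => ∀ v, D Bas v → A j v → v ∈ P)

variable {J0 : Finset ι}

theorem mem_JP {P : Finset V} {j : ι} : j ∈ JP Bas A J0 P ↔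
    j ∈ J0 ∧ ∀ v, D Bas v → A j v → v ∈ P := by simp [JP]

theorem violator (H : IsMat Bas r) (hp : Pres Bas A J0 r) {P : Finset V} (hP : P ∈ classes Bas)
    {x y : V} (hx : x ∈ P) (hy : y ∈ P) (hxy : x ≠ y) :
    ∃ J' : Finset ι, J' ⊆ J0 ∧ ∀ (N : Finset V), (∀ v, v ∈ N ↔ D Bas v ∧ ∃ j ∈ J', A j v) →
      ((N.erase x).erase y).card < J'.card := by
  classical
  let t : {j // j ∈ J0} → Finset V := fun j =>
    (DD Bas).filter (fun v => A j v ∧ v ≠ x ∧ v ≠ y)
  by_cases hall : ∀ s : Finset {j // j ∈ J0}, s.card ≤ (s.biUnion t).card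
  · exfalso
    obtain ⟨φ, hφ, hφt⟩ := (Finset.all_card_le_biUnion_card_iff_exists_injective t).mp hall
    set X : Finset V := univ.image φ with hX
    have hXc : X.card = J0.card := by
      rw [hX, Finset.card_image_of_injective _ hφ, Finset.card_univ, Fintype.card_coe]
    have hXD : X ⊆ DD Bas := by
      intro v hv
      rw [hX, Finset.mem_image] at hv
      obtain ⟨j, _, rfl⟩ := hv
      exact (Finset.mem_filter.mp (hφt j)).1
    have hXx : x ∉ X := by
      intro h
      rw [hX, Finset.mem_image] at h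
      obtain ⟨j, _, hj⟩ := h
      exact (Finset.mem_filter.mp (hφt j)).2.2.1 hj
    have hXy : y ∉ X := by
      intro h
      rw [hX, Finset.mem_image] at h
      obtain ⟨j, _, hj⟩ := h
      exact (Finset.mem_filter.mp (hφt j)).2.2.2 hj
    obtain ⟨B1, hB1⟩ := H.ne
    obtain ⟨σ1, _, _, _⟩ := hp.match_ B1 hB1
    let g : V → ι := fun v => if h : ∃ j : {j // j ∈ J0}, φ j = v then (h.choose : ι) else σ1 v
    have hg : ∀ j : {j // j ∈ J0}, g (φ j) = j := by
      intro j
      have h : ∃ j' : {j // j ∈ J0}, φ j' = φ j := ⟨j, rfl⟩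
      simp only [g, dif_pos h]
      have := hφ h.choose_spec
      rw [this]
    obtain ⟨B, hB, hXB⟩ := hp.ind X hXD g (by
      intro a ha b hb hab
      have ha' : a ∈ X := by exact_mod_cast ha
      have hb' : b ∈ X := by exact_mod_cast hb
      rw [hX, Finset.mem_image] at ha' hb'
      obtain ⟨j, _, rfl⟩ := ha'
      obtain ⟨j', _, rfl⟩ := hb'
      rw [hg, hg] at hab
      rw [Subtype.ext hab]) (by
      intro v hv
      rw [hX, Finset.mem_image] at hv
      obtain ⟨j, _, rfl⟩ := hv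
      rw [hg]
      exact (Finset.mem_filter.mp (hφt j)).2.1)
    have hb := base_of_indep H hB hXB hXD (by rw [hXc]; exact hp.card.ge)
    rcases (R_of_mem H hP hx hy).2.2 with h | h
    · exact hxy h
    · rcases h B hB with h1 | h1
      · exact hb x (mem_DD.mpr (D_of_mem hP hx)) hXx h1
      · exact hb y (mem_DD.mpr (D_of_mem hP hy)) hXy h1
  · push Not at hall
    obtain ⟨s, hs⟩ := hall
    refine ⟨s.map (Function.Embedding.subtype _), ?_, ?_⟩
    · intro j hj
      rw [Finset.mem_map] at hj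
      obtain ⟨j', _, rfl⟩ := hj
      exact j'.2
    · intro N hN
      rw [Finset.card_map]
      refine lt_of_le_of_lt (Finset.card_le_card ?_) hs
      intro v hv
      rw [Finset.mem_erase, Finset.mem_erase, hN] at hv
      obtain ⟨hvy, hvx, hvD, j, hj, hjv⟩ := hv
      rw [Finset.mem_map] at hj
      obtain ⟨j', hj', rfl⟩ := hj
      rw [Finset.mem_biUnion]
      exact ⟨j', hj', Finset.mem_filter.mpr ⟨mem_DD.mpr hvD, hjv, hvx, hvy⟩⟩

theorem sigma_mem_JP (H : IsMat Bas r) (hp : Pres Bas A J0 r) {P : Finset V}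
    (hP : P ∈ classes Bas) {B : Finset V} (hB : Bas B) {σ : V → ι}
    (hσ : Set.InjOn σ (B ∩ DD Bas : Finset V)) (hσJ : (B ∩ DD Bas).image σ = J0)
    (hσA : ∀ v ∈ B ∩ DD Bas, A (σ v) v) {x y : V} (hx : x ∈ P) (hxB : x ∉ B) (hy : y ∈ P)
    (hxy : x ≠ y) : σ y ∈ JP Bas A J0 P := by
  classical
  obtain ⟨J', hJ', hviol⟩ := violator H hp hP hx hy hxy
  set N : Finset V := (DD Bas).filter (fun v => ∃ j ∈ J', A j v) with hN
  have hNmem : ∀ v, v ∈ N ↔ D Bas v ∧ ∃ j ∈ J', A j v := by
    intro v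
    rw [hN, Finset.mem_filter, mem_DD]
  have hlt := hviol N hNmem
  -- every base contains at least `J'.card` elements of `N`
  have hge : ∀ B', Bas B' → J'.card ≤ (N ∩ B').card := by
    intro B' hB'
    obtain ⟨σ', _, hσ'J, hσ'A⟩ := hp.match_ B' hB'
    have : J' ⊆ (N ∩ B').image σ' := by
      intro j hj
      have hj0 := hJ' hj
      rw [← hσ'J, Finset.mem_image] at hj0
      obtain ⟨v, hv, rfl⟩ := hj0
      rw [Finset.mem_image]
      refine ⟨v, Finset.mem_inter.mpr ⟨(hNmem v).mpr ⟨mem_DD.mp (Finset.mem_inter.mp hv).2,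
        σ' v, hj, hσ'A v hv⟩, (Finset.mem_inter.mp hv).1⟩, rfl⟩
    exact le_trans (Finset.card_le_card this) Finset.card_image_le
  have hyB : y ∈ B := mem_base_of_ne H hP hB hx hy hxy hxB
  -- `y ∈ N`
  have hyN : y ∈ N := by
    by_contra h
    have h1 := hge B hB
    have h2 : N ∩ B ⊆ (N.erase x).erase y := by
      intro v hv
      rw [Finset.mem_inter] at hv
      rw [Finset.mem_erase, Finset.mem_erase]
      refine ⟨?_, ?_, hv.1⟩
      · rintro rfl; exact h hv.1
      · rintro rfl; exact hxB hv.2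
    have := Finset.card_le_card h2
    omega
  have hxN : x ∈ N := by
    by_contra h
    obtain ⟨B'', hB'', hyB''⟩ := D_of_mem hP hy
    have h1 := hge B'' hB''
    have h2 : N ∩ B'' ⊆ (N.erase x).erase y := by
      intro v hv
      rw [Finset.mem_inter] at hv
      rw [Finset.mem_erase, Finset.mem_erase]
      refine ⟨?_, ?_, hv.1⟩
      · rintro rfl; exact hyB'' hv.2
      · rintro rfl; exact h hv.1
    have := Finset.card_le_card h2
    omega
  have hNcard : N.card < J'.card + 2 := by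
    have h1 : ((N.erase x).erase y).card = N.card - 1 - 1 := by
      rw [Finset.card_erase_of_mem (Finset.mem_erase.mpr ⟨hxy.symm, hyN⟩),
        Finset.card_erase_of_mem hxN]
    have h2 : 2 ≤ N.card := by
      have : ({x, y} : Finset V) ⊆ N := by
        intro v hv
        simp only [Finset.mem_insert, Finset.mem_singleton] at hv
        rcases hv with rfl | rfl
        · exact hxN
        · exact hyN
      have h3 := Finset.card_le_card this
      rwa [Finset.card_pair hxy] at h3
    omega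
  -- `N ⊆ P`
  have hNP : ∀ z ∈ N, z ∈ P := by
    intro z hz
    by_cases hzx : z = x
    · rw [hzx]; exact hx
    refine mem_of_R H hP hx ⟨D_of_mem hP hx, ((hNmem z).mp hz).1, Or.inr ?_⟩
    intro B' hB'
    by_contra hcon
    push Not at hcon
    have h1 := hge B' hB'
    have h2 : N ∩ B' ⊆ (N.erase x).erase z := by
      intro v hv
      rw [Finset.mem_inter] at hv
      rw [Finset.mem_erase, Finset.mem_erase]
      refine ⟨?_, ?_, hv.1⟩
      · rintro rfl; exact hcon.2 hv.2
      · rintro rfl; exact hcon.1 hv.2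
    have h3 := Finset.card_le_card h2
    rw [Finset.card_erase_of_mem (Finset.mem_erase.mpr ⟨hzx, hz⟩),
        Finset.card_erase_of_mem hxN] at h3
    have h4 : 0 < J'.card := by omega
    omega
  -- `σ y ∈ J'`
  have hsub : J' ⊆ (N ∩ B).image σ := by
    intro j hj
    have hj0 := hJ' hj
    rw [← hσJ, Finset.mem_image] at hj0
    obtain ⟨v, hv, rfl⟩ := hj0
    rw [Finset.mem_image]
    refine ⟨v, Finset.mem_inter.mpr ⟨(hNmem v).mpr ⟨mem_DD.mp (Finset.mem_inter.mp hv).2,
      σ v, hj, hσA v hv⟩, (Finset.mem_inter.mp hv).1⟩, rfl⟩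
  have hNB : (N ∩ B).card ≤ J'.card := by
    have : N ∩ B ⊆ N.erase x := by
      intro v hv
      rw [Finset.mem_inter] at hv
      rw [Finset.mem_erase]
      refine ⟨?_, hv.1⟩
      rintro rfl; exact hxB hv.2
    have h3 := Finset.card_le_card this
    rw [Finset.card_erase_of_mem hxN] at h3
    omega
  have heq : J' = (N ∩ B).image σ :=
    Finset.eq_of_subset_of_card_le hsub (le_trans Finset.card_image_le hNB)
  have hσy : σ y ∈ J' := by
    rw [heq]
    exact Finset.mem_image_of_mem σ (Finset.mem_inter.mpr ⟨hyN, hyB⟩)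
  rw [mem_JP]
  refine ⟨hJ' hσy, fun v hv hAv => hNP v ((hNmem v).mpr ⟨hv, σ y, hσy, hAv⟩)⟩

theorem mem_image_of_JP (hp : Pres Bas A J0 r) {P : Finset V} {B : Finset V} {σ : V → ι}
    (hσJ : (B ∩ DD Bas).image σ = J0)
    (hσA : ∀ v ∈ B ∩ DD Bas, A (σ v) v) {j : ι} (hj : j ∈ JP Bas A J0 P) :
    ∃ v ∈ P, v ∈ B ∧ D Bas v ∧ σ v = j := by
  rw [mem_JP, ← hσJ, Finset.mem_image] at hj
  obtain ⟨⟨v, hv, rfl⟩, h⟩ := hj
  have hvD := mem_DD.mp (Finset.mem_inter.mp hv).2
  exact ⟨v, h v hvD (hσA v hv), (Finset.mem_inter.mp hv).1, hvD, rfl⟩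

/-- the local structure of a class -/
theorem class_match (H : IsMat Bas r) (hp : Pres Bas A J0 r) {P : Finset V}
    (hP : P ∈ classes Bas) {z : V} (hz : z ∈ P) :
    ∃ σ : V → ι, Set.InjOn σ (P.erase z : Finset V) ∧ (P.erase z).image σ = JP Bas A J0 P ∧
      ∀ v ∈ P.erase z, A (σ v) v := by
  obtain ⟨B, hB, hzB⟩ := D_of_mem hP hz
  obtain ⟨σ, hσ, hσJ, hσA⟩ := hp.match_ B hB
  have hsub : P.erase z ⊆ B ∩ DD Bas := by
    intro v hv
    rw [Finset.mem_erase] at hv
    exact Finset.mem_inter.mpr ⟨mem_base_of_ne H hP hB hz hv.2 hv.1.symm hzB,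
      mem_DD.mpr (D_of_mem hP hv.2)⟩
  refine ⟨σ, hσ.mono (by exact_mod_cast hsub), ?_, fun v hv => hσA v (hsub hv)⟩
  apply Finset.Subset.antisymm
  · intro j hj
    rw [Finset.mem_image] at hj
    obtain ⟨v, hv, rfl⟩ := hj
    rw [Finset.mem_erase] at hv
    exact sigma_mem_JP H hp hP hB hσ hσJ hσA hz hzB hv.2 hv.1.symm
  · intro j hj
    obtain ⟨v, hvP, hvB, _, rfl⟩ := mem_image_of_JP hp hσJ hσA hj
    rw [Finset.mem_image]
    refine ⟨v, Finset.mem_erase.mpr ⟨?_, hvP⟩, rfl⟩
    rintro rfl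
    exact hzB hvB

theorem card_JP (H : IsMat Bas r) (hp : Pres Bas A J0 r) {P : Finset V}
    (hP : P ∈ classes Bas) : (JP Bas A J0 P).card = P.card - 1 := by
  obtain ⟨z, hz⟩ := class_nonempty hP
  obtain ⟨σ, hσ, hσJ, _⟩ := class_match H hp hP hz
  rw [← hσJ, Finset.card_image_of_injOn hσ, Finset.card_erase_of_mem hz]

theorem JP_disjoint (H : IsMat Bas r) (hp : Pres Bas A J0 r) {P Q : Finset V}
    (hP : P ∈ classes Bas) (hQ : Q ∈ classes Bas) {j : ι} (hj : j ∈ JP Bas A J0 P)
    (hj' : j ∈ JP Bas A J0 Q) : P = Q := by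
  obtain ⟨B, hB⟩ := H.ne
  obtain ⟨σ, _, hσJ, hσA⟩ := hp.match_ B hB
  obtain ⟨v, hvP, hvB, hvD, rfl⟩ := mem_image_of_JP hp hσJ hσA hj
  have hvQ := (mem_JP.mp hj').2 v hvD (hσA v (Finset.mem_inter.mpr ⟨hvB, mem_DD.mpr hvD⟩))
  exact class_eq H hP hQ hvP hvQ

theorem sum_card_classes (H : IsMat Bas r) : ∑ P ∈ classes Bas, P.card = (DD Bas).card := by
  rw [← Finset.card_biUnion]
  · congr 1
    ext v
    rw [Finset.mem_biUnion, mem_DD]
    constructor
    · rintro ⟨P, hP, hv⟩
      exact D_of_mem hP hv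
    · intro hv
      exact ⟨cl Bas v, cl_mem_classes hv, self_mem_cl hv⟩
  · intro P hP Q hQ hPQ
    rw [Function.onFun, Finset.disjoint_left]
    intro v hv hv'
    exact hPQ (class_eq H hP hQ hv hv')

end core

end Pool.Agent.H46.MatchMat
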