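import Pool.Agent.H46.MatchMatB

set_option autoImplicit false

set_option linter.unusedSectionVars false

namespace Pool.Agent.H46.MatchMat

open Finset

variable {V : Type*} {ι : Type*}

section core

variable [Fintype V] [DecidableEq V] [DecidableEq ι]

variable {Bas : Finset V → Prop} {r : ℕ} {A : ι → V → Prop} {J0 : Finset ι}

/-- the sets of the class `P` that are replaced by edges inside `P` -/
noncomputable def Rem (Bas : Finset V → Prop) (A : ι → V → Prop) (J0 : Finset ι)
    (jp : Finset V → ι) (P : Finset V) : Finset ι :=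
  if Even P.card then (JP Bas A J0 P).erase (jp P) else JP Bas A J0 P

theorem Rem_subset (jp : Finset V → ι) (P : Finset V) : Rem Bas A J0 jp P ⊆ JP Bas A J0 P := by
  unfold Rem
  split_ifs
  · exact Finset.erase_subset _ _
  · exact Finset.Subset.refl _

theorem card_Rem (H : IsMat Bas r) (hp : Pres Bas A J0 r) {jp : Finset V → ι}
    (hjp : ∀ P ∈ classes Bas, Even P.card → jp P ∈ JP Bas A J0 P) {P : Finset V}
    (hP : P ∈ classes Bas) :
    (Rem Bas A J0 jp P).card + 1 + (if Even P.card then 1 else 0) = P.card := by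
  have h1 := card_JP H hp hP
  have h2 : 0 < P.card := Finset.card_pos.mpr (class_nonempty hP)
  unfold Rem
  by_cases h : Even P.card
  · have h3 := Finset.card_erase_of_mem (hjp P hP h)
    simp only [h, if_true]
    rw [h3, h1]
    obtain ⟨k, hk⟩ := h
    omega
  · simp only [h, if_false]
    omega

theorem even_card_Rem (H : IsMat Bas r) (hp : Pres Bas A J0 r) {jp : Finset V → ι}
    (hjp : ∀ P ∈ classes Bas, Even P.card → jp P ∈ JP Bas A J0 P) {P : Finset V}
    (hP : P ∈ classes Bas) : Even (Rem Bas A J0 jp P).card := by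
  have h := card_Rem H hp hjp hP
  by_cases h1 : Even P.card
  · rw [if_pos h1] at h
    obtain ⟨k, hk⟩ := h1
    exact ⟨k - 1, by omega⟩
  · rw [if_neg h1] at h
    rw [Nat.not_even_iff_odd] at h1
    obtain ⟨k, hk⟩ := h1
    exact ⟨k, by omega⟩

/-- the remaining sets -/
noncomputable def J1 (Bas : Finset V → Prop) (A : ι → V → Prop) (J0 : Finset ι)
    (jp : Finset V → ι) : Finset ι :=
  J0 \ (classes Bas).biUnion (Rem Bas A J0 jp)

theorem card_biUnion_Rem (H : IsMat Bas r) (hp : Pres Bas A J0 r) {jp : Finset V → ι} :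
    ((classes Bas).biUnion (Rem Bas A J0 jp)).card =
      ∑ P ∈ classes Bas, (Rem Bas A J0 jp P).card := by
  rw [Finset.card_biUnion]
  intro P hP Q hQ hPQ
  rw [Function.onFun, Finset.disjoint_left]
  intro j hj hj'
  exact hPQ (JP_disjoint H hp hP hQ (Rem_subset jp P hj) (Rem_subset jp Q hj'))

theorem card_J1 (H : IsMat Bas r) (hp : Pres Bas A J0 r) {jp : Finset V → ι} :
    (J1 Bas A J0 jp).card + ∑ P ∈ classes Bas, (Rem Bas A J0 jp P).card = J0.card := by
  rw [← card_biUnion_Rem H hp]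
  unfold J1
  apply Finset.card_sdiff_add_card_eq_card
  intro j hj
  rw [Finset.mem_biUnion] at hj
  obtain ⟨P, _, hj⟩ := hj
  exact (mem_JP.mp (Rem_subset jp P hj)).1

theorem sum_Rem (H : IsMat Bas r) (hp : Pres Bas A J0 r) {jp : Finset V → ι}
    (hjp : ∀ P ∈ classes Bas, Even P.card → jp P ∈ JP Bas A J0 P) :
    ∑ P ∈ classes Bas, (Rem Bas A J0 jp P).card + (classes Bas).card +
      ((classes Bas).filter (fun P => Even P.card)).card = (DD Bas).card := by
  rw [← sum_card_classes H, ← Finset.sum_congr rfl (fun P hP => card_Rem H hp hjp hP),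
    Finset.sum_add_distrib, Finset.sum_add_distrib, Finset.card_filter]
  simp

theorem even_sum_Rem (H : IsMat Bas r) (hp : Pres Bas A J0 r) {jp : Finset V → ι}
    (hjp : ∀ P ∈ classes Bas, Even P.card → jp P ∈ JP Bas A J0 P) :
    Even (∑ P ∈ classes Bas, (Rem Bas A J0 jp P).card) :=
  Finset.even_sum _ (fun P hP => even_card_Rem H hp hjp hP)

/-- the special vertices -/
def Spec (Bas : Finset V → Prop) (sp : Finset V → V) (z : V) : Prop :=
  Even (cl Bas z).card ∧ sp (cl Bas z) = z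

/-- the graph -/
def GG (Bas : Finset V → Prop) (A : ι → V → Prop) (sp : Finset V → V) (C1 : Finset V)
    (φ : V → ι) : SimpleGraph V :=
  SimpleGraph.fromRel (fun u v => (R Bas u v ∧ ¬ Spec Bas sp u ∧ ¬ Spec Bas sp v) ∨
    (u ∈ C1 ∧ ∃ z, A (φ u) z ∧ R Bas v z) ∨ (u ∈ CC Bas \ C1 ∧ v ∈ CC Bas \ C1))

variable {sp : Finset V → V} {C1 : Finset V} {φ : V → ι} {jp : Finset V → ι}

theorem GG_adj {u v : V} : (GG Bas A sp C1 φ).Adj u v ↔ u ≠ v ∧
    (((R Bas u v ∧ ¬ Spec Bas sp u ∧ ¬ Spec Bas sp v) ∨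
    (u ∈ C1 ∧ ∃ z, A (φ u) z ∧ R Bas v z) ∨ (u ∈ CC Bas \ C1 ∧ v ∈ CC Bas \ C1)) ∨
    ((R Bas v u ∧ ¬ Spec Bas sp v ∧ ¬ Spec Bas sp u) ∨
    (v ∈ C1 ∧ ∃ z, A (φ v) z ∧ R Bas u z) ∨ (v ∈ CC Bas \ C1 ∧ u ∈ CC Bas \ C1))) := by
  rw [GG, SimpleGraph.fromRel_adj]

/-- every base is covered by a matching -/
theorem base_covered (H : IsMat Bas r) (hp : Pres Bas A J0 r)
    (hjp : ∀ P ∈ classes Bas, Even P.card → jp P ∈ JP Bas A J0 P)
    (hC1 : C1 ⊆ CC Bas) (hφ : Set.InjOn φ C1) (hφJ : C1.image φ = J1 Bas A J0 jp)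
    (hpar : Even (CC Bas \ C1).card) {B : Finset V} (hB : Bas B) :
    ∃ W : (GG Bas A sp C1 φ).Subgraph, W.IsMatching ∧ (B : Set V) ⊆ W.verts := by
  classical
  obtain ⟨σ, hσ, hσJ, hσA⟩ := hp.match_ B hB
  set G := GG Bas A sp C1 φ with hG
  let Y : Finset V → Finset V := fun P => C1.filter (fun u => ∃ v ∈ P, v ∈ B ∧ σ v = φ u)
  have hYmem : ∀ P u, u ∈ Y P ↔ u ∈ C1 ∧ ∃ v ∈ P, v ∈ B ∧ σ v = φ u := by
    intro P u
    simp only [Y, Finset.mem_filter]
  have hPD : ∀ P ∈ classes Bas, ∀ v ∈ P, v ∈ B → v ∈ B ∩ DD Bas := by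
    intro P hP v hv hvB
    exact Finset.mem_inter.mpr ⟨hvB, mem_DD.mpr (D_of_mem hP hv)⟩
  -- local matching
  have hloc : ∀ P ∈ classes Bas, Mble G (((B ∩ P : Finset V) : Set V) ∪ (Y P : Set V)) := by
    intro P hP
    -- size of `Y P`
    have himg : (Y P).image φ = ((B ∩ P).image σ) \ Rem Bas A J0 jp P := by
      ext j
      simp only [Finset.mem_image, Finset.mem_sdiff, Finset.mem_inter]
      constructor
      · rintro ⟨u, hu, rfl⟩
        obtain ⟨huC, v, hvP, hvB, hvu⟩ := (hYmem P u).mp hu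
        refine ⟨⟨v, ⟨hvB, hvP⟩, hvu⟩, ?_⟩
        intro hrem
        have hmem : φ u ∈ J1 Bas A J0 jp := by
          rw [← hφJ]; exact Finset.mem_image_of_mem φ huC
        unfold J1 at hmem
        rw [Finset.mem_sdiff, Finset.mem_biUnion] at hmem
        exact hmem.2 ⟨P, hP, hrem⟩
      · rintro ⟨⟨v, ⟨hvB, hvP⟩, rfl⟩, hrem⟩
        have hJ0 : σ v ∈ J0 := by
          rw [← hσJ]; exact Finset.mem_image_of_mem σ (hPD P hP v hvP hvB)
        have hJ1 : σ v ∈ J1 Bas A J0 jp := by
          unfold J1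
          rw [Finset.mem_sdiff, Finset.mem_biUnion]
          refine ⟨hJ0, ?_⟩
          rintro ⟨Q, hQ, hvQ⟩
          have h1 := (mem_JP.mp (Rem_subset jp Q hvQ)).2 v (D_of_mem hP hvP)
            (hσA v (hPD P hP v hvP hvB))
          have := class_eq H hP hQ hvP h1
          rw [← this] at hvQ
          exact hrem hvQ
        rw [← hφJ, Finset.mem_image] at hJ1
        obtain ⟨u, hu, huv⟩ := hJ1
        exact ⟨u, (hYmem P u).mpr ⟨hu, v, hvP, hvB, huv.symm⟩, huv⟩
    have hYinj : Set.InjOn φ (Y P) := hφ.mono (by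
      exact_mod_cast Finset.filter_subset _ _)
    have hσP : Set.InjOn σ (B ∩ P : Finset V) := by
      apply hσ.mono
      intro v hv
      have : v ∈ B ∩ P := by exact_mod_cast hv
      rw [Finset.mem_inter] at this
      exact_mod_cast hPD P hP v this.2 this.1
    have hRsub : Rem Bas A J0 jp P ⊆ (B ∩ P).image σ := by
      intro j hj
      obtain ⟨v, hvP, hvB, _, rfl⟩ := mem_image_of_JP hp hσJ hσA (Rem_subset jp P hj)
      exact Finset.mem_image_of_mem σ (Finset.mem_inter.mpr ⟨hvB, hvP⟩)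
    have hYcard : (Y P).card + (Rem Bas A J0 jp P).card = (B ∩ P).card := by
      rw [← Finset.card_image_of_injOn hYinj, himg, Finset.card_sdiff_add_card_eq_card hRsub,
        Finset.card_image_of_injOn hσP]
    -- special part
    have hmiss : P.card ≤ (B ∩ P).card + 1 := by
      have h1 : (P \ B).card ≤ 1 := by
        rw [Finset.card_le_one]
        intro a ha b hb
        by_contra hab
        rw [Finset.mem_sdiff] at ha hb
        exact hb.2 (mem_base_of_ne H hP hB ha.1 hb.1 hab ha.2)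
      have h2 : (P \ B).card + (P ∩ B).card = P.card := Finset.card_sdiff_add_card_inter P B
      rw [Finset.inter_comm] at h2
      omega
    set Sp : Finset V := (B ∩ P).filter (fun z => Spec Bas sp z) with hSp
    have hSpcard : Sp.card ≤ (Y P).card := by
      by_cases hne : Sp.Nonempty
      · obtain ⟨z, hz⟩ := hne
        have hz' := hz
        rw [hSp, Finset.mem_filter, Finset.mem_inter] at hz'
        have hclz : cl Bas z = P := cl_eq_of_mem H hP hz'.1.2
        have hev : Even P.card := hclz ▸ hz'.2.1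
        have h1 : Sp.card ≤ 1 := by
          rw [Finset.card_le_one]
          intro a ha b hb
          rw [hSp, Finset.mem_filter, Finset.mem_inter] at ha hb
          have ea := cl_eq_of_mem H hP ha.1.2
          have eb := cl_eq_of_mem H hP hb.1.2
          rw [← ha.2.2, ← hb.2.2, ea, eb]
        have h2 := card_Rem H hp hjp hP
        rw [if_pos hev] at h2
        omega
      · rw [Finset.not_nonempty_iff_eq_empty] at hne
        rw [hne]; simp
    obtain ⟨X, hSX, hXB, hXcard⟩ := Finset.exists_subsuperset_card_eq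
      (Finset.filter_subset (fun z => Spec Bas sp z) (B ∩ P)) hSpcard (by omega)
    have hcl : Mble G (((B ∩ P) \ X : Finset V) : Set V) := by
      apply Mble.clique
      · have h1 := Finset.card_sdiff_add_card_eq_card hXB
        have h2 := even_card_Rem H hp hjp hP
        obtain ⟨k, hk⟩ := h2
        exact ⟨k, by omega⟩
      · intro u hu v hv huv
        rw [Finset.mem_sdiff, Finset.mem_inter] at hu hv
        rw [hG, GG_adj]
        refine ⟨huv, Or.inl (Or.inl ⟨R_of_mem H hP hu.1.2 hv.1.2, ?_, ?_⟩)⟩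
        · intro hs
          exact hu.2 (hSX (Finset.mem_filter.mpr ⟨Finset.mem_inter.mpr hu.1, hs⟩))
        · intro hs
          exact hv.2 (hSX (Finset.mem_filter.mpr ⟨Finset.mem_inter.mpr hv.1, hs⟩))
    have hYC : ∀ u ∈ Y P, ¬ D Bas u := fun u hu => mem_CC.mp (hC1 ((hYmem P u).mp hu).1)
    have hbip : Mble G ((X : Set V) ∪ (Y P : Set V)) := by
      apply Mble.bip
      · rw [Finset.disjoint_left]
        intro v hv hv'
        exact hYC v hv' (D_of_mem hP (Finset.mem_inter.mp (hXB hv)).2)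
      · exact hXcard
      · intro x hx u hu
        rw [hG, GG_adj]
        have hxP := (Finset.mem_inter.mp (hXB hx)).2
        obtain ⟨huC, v, hvP, hvB, hvu⟩ := (hYmem P u).mp hu
        refine ⟨?_, Or.inr (Or.inr (Or.inl ⟨huC, v, ?_, R_of_mem H hP hxP hvP⟩))⟩
        · rintro rfl
          exact hYC x hu (D_of_mem hP hxP)
        · rw [← hvu]
          exact hσA v (hPD P hP v hvP hvB)
    have hun := hcl.union hbip (by
      rw [Set.disjoint_left]
      intro v hv hv'
      have h1 : v ∈ (B ∩ P) \ X := by exact_mod_cast hv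
      rw [Finset.mem_sdiff, Finset.mem_inter] at h1
      rcases hv' with h2 | h2
      · exact h1.2 (by exact_mod_cast h2)
      · exact hYC v (by exact_mod_cast h2) (D_of_mem hP h1.1.2))
    have heq : (((B ∩ P) \ X : Finset V) : Set V) ∪ ((X : Set V) ∪ (Y P : Set V)) =
        ((B ∩ P : Finset V) : Set V) ∪ (Y P : Set V) := by
      rw [← Set.union_assoc]
      congr 1
      rw [← Finset.coe_union, Finset.sdiff_union_of_subset hXB]
    rw [heq] at hun
    exact hun
  -- glue
  have hglue : Mble G (⋃ P : {P // P ∈ classes Bas},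
      (((B ∩ P.1 : Finset V) : Set V) ∪ (Y P.1 : Set V))) := by
    apply Mble.iUnion
    · intro P
      exact hloc P.1 P.2
    · intro P Q hPQ
      have hne : P.1 ≠ Q.1 := fun h => hPQ (Subtype.ext h)
      rw [Set.disjoint_left]
      intro v hv hv'
      have hYC : ∀ (S : Finset V) u, u ∈ Y S → ¬ D Bas u :=
        fun S u hu => mem_CC.mp (hC1 ((hYmem S u).mp hu).1)
      rcases hv with hv | hv <;> rcases hv' with hv' | hv'
      · have h1 : v ∈ B ∩ P.1 := by exact_mod_cast hv
        have h2 : v ∈ B ∩ Q.1 := by exact_mod_cast hv'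
        exact hne (class_eq H P.2 Q.2 (Finset.mem_inter.mp h1).2 (Finset.mem_inter.mp h2).2)
      · have h1 : v ∈ B ∩ P.1 := by exact_mod_cast hv
        exact hYC _ v (by exact_mod_cast hv') (D_of_mem P.2 (Finset.mem_inter.mp h1).2)
      · have h1 : v ∈ B ∩ Q.1 := by exact_mod_cast hv'
        exact hYC _ v (by exact_mod_cast hv) (D_of_mem Q.2 (Finset.mem_inter.mp h1).2)
      · have h1 : v ∈ Y P.1 := by exact_mod_cast hv
        have h2 : v ∈ Y Q.1 := by exact_mod_cast hv'
        obtain ⟨_, a, haP, haB, ha⟩ := (hYmem _ _).mp h1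
        obtain ⟨_, b, hbQ, hbB, hb⟩ := (hYmem _ _).mp h2
        have hab : a = b := hσ (by exact_mod_cast hPD _ P.2 a haP haB)
          (by exact_mod_cast hPD _ Q.2 b hbQ hbB) (ha.trans hb.symm)
        rw [← hab] at hbQ
        exact hne (class_eq H P.2 Q.2 haP hbQ)
  have hrest : Mble G ((CC Bas \ C1 : Finset V) : Set V) := by
    apply Mble.clique hpar
    intro u hu v hv huv
    rw [hG, GG_adj]
    exact ⟨huv, Or.inl (Or.inr (Or.inr ⟨hu, hv⟩))⟩
  obtain ⟨W, hW, hWv⟩ := hglue.union hrest (by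
    rw [Set.disjoint_left]
    intro v hv hv'
    have h2 : v ∈ CC Bas \ C1 := by exact_mod_cast hv'
    rw [Finset.mem_sdiff, mem_CC] at h2
    rw [Set.mem_iUnion] at hv
    obtain ⟨P, hv | hv⟩ := hv
    · have h1 : v ∈ B ∩ P.1 := by exact_mod_cast hv
      exact h2.1 (D_of_mem P.2 (Finset.mem_inter.mp h1).2)
    · have h1 : v ∈ Y P.1 := by exact_mod_cast hv
      exact h2.2 ((hYmem _ _).mp h1).1)
  refine ⟨W, hW, ?_⟩
  rw [hWv]
  intro v hv
  have hvB : v ∈ B := by exact_mod_cast hv
  by_cases hD : D Bas v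
  · left
    rw [Set.mem_iUnion]
    refine ⟨⟨cl Bas v, cl_mem_classes hD⟩, Or.inl ?_⟩
    exact_mod_cast Finset.mem_inter.mpr ⟨hvB, self_mem_cl hD⟩
  · by_cases hC : v ∈ C1
    · left
      have hJ : φ v ∈ J1 Bas A J0 jp := by
        rw [← hφJ]; exact Finset.mem_image_of_mem φ hC
      unfold J1 at hJ
      rw [Finset.mem_sdiff, ← hσJ, Finset.mem_image] at hJ
      obtain ⟨⟨u, hu, huv⟩, _⟩ := hJ
      rw [Finset.mem_inter, mem_DD] at hu
      rw [Set.mem_iUnion]
      refine ⟨⟨cl Bas u, cl_mem_classes hu.2⟩, Or.inr ?_⟩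
      have : v ∈ Y (cl Bas u) := (hYmem _ _).mpr ⟨hC, u, self_mem_cl hu.2, hu.1, huv⟩
      exact_mod_cast this
    · right
      exact_mod_cast Finset.mem_sdiff.mpr ⟨mem_CC.mpr hD, hC⟩

end core

end Pool.Agent.H46.MatchMat
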