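import Pool.Agent.H46.MatchMatC

set_option autoImplicit false

set_option linter.unusedSectionVars false

namespace Pool.Agent.H46.MatchMat

open Finset

variable {V : Type*} {ι : Type*}

section core

variable [Fintype V] [DecidableEq V] [DecidableEq ι]

variable {Bas : Finset V → Prop} {r : ℕ} {A : ι → V → Prop} {J0 : Finset ι}
variable {sp : Finset V → V} {C1 : Finset V} {φ : V → ι} {jp : Finset V → ι}

/-- a fully covered class has an external partner whose set is outside the class -/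
theorem exists_external (H : IsMat Bas r)
    (hsp : ∀ P ∈ classes Bas, sp P ∈ P)
    (hC1 : C1 ⊆ CC Bas) (hφ : Set.InjOn φ C1) (hφJ : C1.image φ = J1 Bas A J0 jp)
    {f : V → V} (hf : MF (GG Bas A sp C1 φ) f) {P : Finset V} (hP : P ∈ classes Bas)
    (hcov : ∀ v ∈ P, f v ≠ v) :
    ∃ y ∈ P, f y ∈ C1 ∧ φ (f y) ∉ JP Bas A J0 P ∧ ∃ z ∈ P, A (φ (f y)) z := by
  classical
  have hCD : ∀ u ∈ C1, ¬ D Bas u := fun u hu => mem_CC.mp (hC1 hu)
  -- possible partners of an element of `P`
  have hpart : ∀ v ∈ P, (f v ∈ P ∧ ¬ Spec Bas sp v ∧ ¬ Spec Bas sp (f v)) ∨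
      (f v ∈ C1 ∧ ∃ z ∈ P, A (φ (f v)) z) := by
    intro v hv
    have hD := D_of_mem hP hv
    have hadj := hf.2 v (hcov v hv)
    rw [GG_adj] at hadj
    rcases hadj.2 with (h | h | h) | (h | h | h)
    · exact Or.inl ⟨mem_of_R H hP hv h.1, h.2.1, h.2.2⟩
    · exact absurd hD (hCD v h.1)
    · exact absurd hD (mem_CC.mp (Finset.mem_sdiff.mp h.1).1)
    · exact Or.inl ⟨mem_of_R H hP hv (R_symm h.1), h.2.2, h.2.1⟩
    · obtain ⟨h1, z, hz, hR⟩ := h
      exact Or.inr ⟨h1, z, mem_of_R H hP hv hR, hz⟩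
    · exact absurd hD (mem_CC.mp (Finset.mem_sdiff.mp h.2).1)
  set E : Finset V := P.filter (fun v => f v ∈ C1) with hE
  have hint : Even (P \ E).card := by
    apply even_of_inv _ f
    · intro v hv
      rw [Finset.mem_sdiff, hE, Finset.mem_filter] at hv
      have hv2 : f v ∉ C1 := fun h => hv.2 ⟨hv.1, h⟩
      have h1 := (hpart v hv.1).resolve_right (fun h => hv2 h.1)
      rw [Finset.mem_sdiff, hE, Finset.mem_filter]
      refine ⟨h1.1, ?_⟩
      rintro ⟨_, h⟩
      rw [hf.1 v] at h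
      exact hCD v h (D_of_mem hP hv.1)
    · intro v _; exact hf.1 v
    · intro v hv
      exact hcov v (Finset.mem_sdiff.mp hv).1
  have hEP : E ⊆ P := Finset.filter_subset _ _
  have hcard := Finset.card_sdiff_add_card_eq_card hEP
  have hJ1 : ∀ y ∈ E, φ (f y) ∈ J1 Bas A J0 jp := by
    intro y hy
    rw [hE, Finset.mem_filter] at hy
    rw [← hφJ]
    exact Finset.mem_image_of_mem φ hy.2
  have hnotRem : ∀ y ∈ E, φ (f y) ∉ Rem Bas A J0 jp P := by
    intro y hy h
    have := hJ1 y hy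
    unfold J1 at this
    rw [Finset.mem_sdiff, Finset.mem_biUnion] at this
    exact this.2 ⟨P, hP, h⟩
  have hout : ∀ y ∈ E, φ (f y) ∉ JP Bas A J0 P →
      ∃ y ∈ P, f y ∈ C1 ∧ φ (f y) ∉ JP Bas A J0 P ∧ ∃ z ∈ P, A (φ (f y)) z := by
    intro y hy h
    rw [hE, Finset.mem_filter] at hy
    rcases hpart y hy.1 with h1 | h1
    · exact absurd (D_of_mem hP h1.1) (hCD _ hy.2)
    · exact ⟨y, hy.1, hy.2, h, h1.2⟩
  by_cases hev : Even P.card
  · -- the special vertex is external
    have hs : sp P ∈ E := by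
      rw [hE, Finset.mem_filter]
      refine ⟨hsp P hP, ?_⟩
      rcases hpart (sp P) (hsp P hP) with h1 | h1
      · exfalso
        apply h1.2.1
        have hcl := cl_eq_of_mem H hP (hsp P hP)
        exact ⟨by rw [hcl]; exact hev, by rw [hcl]⟩
      · exact h1.1
    have hpos : 0 < E.card := Finset.card_pos.mpr ⟨_, hs⟩
    have h2 : 1 < E.card := by
      obtain ⟨a, ha⟩ := hint
      obtain ⟨b, hb⟩ := hev
      omega
    obtain ⟨y, hy, y', hy', hne⟩ := Finset.one_lt_card.mp h2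
    by_cases hy1 : φ (f y) ∈ JP Bas A J0 P
    · by_cases hy2 : φ (f y') ∈ JP Bas A J0 P
      · exfalso
        have e1 : φ (f y) = jp P := by
          by_contra h
          apply hnotRem y hy
          unfold Rem
          rw [if_pos hev]
          exact Finset.mem_erase.mpr ⟨h, hy1⟩
        have e2 : φ (f y') = jp P := by
          by_contra h
          apply hnotRem y' hy'
          unfold Rem
          rw [if_pos hev]
          exact Finset.mem_erase.mpr ⟨h, hy2⟩
        apply hne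
        rw [hE, Finset.mem_filter] at hy hy'
        have e3 : f y = f y' := hφ (by exact_mod_cast hy.2) (by exact_mod_cast hy'.2)
          (e1.trans e2.symm)
        rw [← hf.1 y, e3, hf.1 y']
      · exact hout y' hy' hy2
    · exact hout y hy hy1
  · have hpos : 0 < E.card := by
      rw [Nat.not_even_iff_odd] at hev
      obtain ⟨a, ha⟩ := hint
      obtain ⟨b, hb⟩ := hev
      omega
    obtain ⟨y, hy⟩ := Finset.card_pos.mp hpos
    apply hout y hy
    intro h
    apply hnotRem y hy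
    unfold Rem
    rw [if_neg hev]
    exact h

/-- the vertex set of a matching is contained in a base -/
theorem covered_indep (H : IsMat Bas r) (hp : Pres Bas A J0 r)
    (hsp : ∀ P ∈ classes Bas, sp P ∈ P)
    (hC1 : C1 ⊆ CC Bas) (hφ : Set.InjOn φ C1) (hφJ : C1.image φ = J1 Bas A J0 jp)
    {f : V → V} (hf : MF (GG Bas A sp C1 φ) f) :
    ∃ B, Bas B ∧ supp f ⊆ B := by
  classical
  -- local choice
  have hloc : ∀ P : Finset V, ∃ (z : V) (e : ι) (σ : V → ι), P ∈ classes Bas →
      (z ∈ P ∧ Set.InjOn σ (P.erase z : Finset V) ∧ (P.erase z).image σ = JP Bas A J0 P ∧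
      (∀ v ∈ P.erase z, A (σ v) v) ∧
      ((z ∉ supp f) ∨ (A e z ∧ e ∉ JP Bas A J0 P ∧ ∃ y ∈ P, f y ∈ C1 ∧ φ (f y) = e))) := by
    intro P
    obtain ⟨B1, hB1⟩ := H.ne
    obtain ⟨σ1, _, _, _⟩ := hp.match_ B1 hB1
    by_cases hP : P ∈ classes Bas
    · by_cases hcov : ∀ v ∈ P, f v ≠ v
      · obtain ⟨y, hyP, hyC, hyJ, z, hz, hAz⟩ := exists_external H hsp hC1 hφ hφJ hf hP hcov
        obtain ⟨σ, h1, h2, h3⟩ := class_match H hp hP hz
        exact ⟨z, φ (f y), σ, fun _ => ⟨hz, h1, h2, h3, Or.inr ⟨hAz, hyJ, y, hyP, hyC, rfl⟩⟩⟩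
      · push Not at hcov
        obtain ⟨z, hz, hfz⟩ := hcov
        obtain ⟨σ, h1, h2, h3⟩ := class_match H hp hP hz
        refine ⟨z, σ1 z, σ, fun _ => ⟨hz, h1, h2, h3, Or.inl ?_⟩⟩
        rw [mem_supp]
        simpa using hfz
    · by_cases hV : Nonempty V
      · obtain ⟨v⟩ := hV
        exact ⟨v, σ1 v, σ1, fun h => absurd h hP⟩
      · exfalso
        apply hP
        -- no vertices: impossible branch handled by choosing arbitrary data
        exact absurd ⟨sp P⟩ hV
  choose z e σ hall using hloc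
  let g : V → ι := fun v => if v = z (cl Bas v) then e (cl Bas v) else σ (cl Bas v) v
  set S : Finset V := supp f ∩ DD Bas with hS
  have hSD : S ⊆ DD Bas := Finset.inter_subset_right
  have hgval : ∀ v ∈ S, (v = z (cl Bas v) ∧ g v = e (cl Bas v)) ∨
      (v ≠ z (cl Bas v) ∧ g v = σ (cl Bas v) v ∧ g v ∈ JP Bas A J0 (cl Bas v)) := by
    intro v hv
    have hD : D Bas v := mem_DD.mp (hSD hv)
    have hcl := cl_mem_classes hD
    by_cases h : v = z (cl Bas v)
    · left
      refine ⟨h, ?_⟩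
      simp only [g, if_pos h]
    · right
      refine ⟨h, ?_, ?_⟩
      · simp only [g, if_neg h]
      · simp only [g, if_neg h]
        rw [← (hall (cl Bas v) hcl).2.2.1]
        exact Finset.mem_image_of_mem _ (Finset.mem_erase.mpr ⟨h, self_mem_cl hD⟩)
  have hext : ∀ v ∈ S, v = z (cl Bas v) → A (e (cl Bas v)) v ∧
      e (cl Bas v) ∉ JP Bas A J0 (cl Bas v) ∧
      ∃ y ∈ cl Bas v, f y ∈ C1 ∧ φ (f y) = e (cl Bas v) := by
    intro v hv h
    have hD : D Bas v := mem_DD.mp (hSD hv)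
    have hcl := cl_mem_classes hD
    rcases (hall (cl Bas v) hcl).2.2.2.2 with h1 | h1
    · exfalso
      rw [← h] at h1
      exact h1 (Finset.mem_inter.mp hv).1
    · rw [← h] at h1
      exact h1
  have hgA : ∀ v ∈ S, A (g v) v := by
    intro v hv
    have hD : D Bas v := mem_DD.mp (hSD hv)
    have hcl := cl_mem_classes hD
    rcases hgval v hv with h | h
    · rw [h.2]
      exact (hext v hv h.1).1
    · rw [h.2.1]
      exact (hall (cl Bas v) hcl).2.2.2.1 v (Finset.mem_erase.mpr ⟨h.1, self_mem_cl hD⟩)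
  have hmixed : ∀ a ∈ S, ∀ b ∈ S, a = z (cl Bas a) → g b ∈ JP Bas A J0 (cl Bas b) →
      g a = e (cl Bas a) → g a ≠ g b := by
    intro a ha b hb h1 h2 h3 h4
    have hDa : D Bas a := mem_DD.mp (hSD ha)
    have hDb : D Bas b := mem_DD.mp (hSD hb)
    obtain ⟨hA1, hnot, _⟩ := hext a ha h1
    rw [← h4, h3] at h2
    have hab : a ∈ cl Bas b := (mem_JP.mp h2).2 a hDa hA1
    have hcl : cl Bas a = cl Bas b :=
      class_eq H (cl_mem_classes hDa) (cl_mem_classes hDb) (self_mem_cl hDa) hab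
    rw [← hcl] at h2
    exact hnot h2
  have hginj : Set.InjOn g S := by
    intro a ha b hb hab
    have ha' : a ∈ S := by exact_mod_cast ha
    have hb' : b ∈ S := by exact_mod_cast hb
    have hDa : D Bas a := mem_DD.mp (hSD ha')
    have hDb : D Bas b := mem_DD.mp (hSD hb')
    have hca := cl_mem_classes hDa
    have hcb := cl_mem_classes hDb
    rcases hgval a ha' with h1 | h1 <;> rcases hgval b hb' with h2 | h2
    · -- both external
      obtain ⟨_, _, y, hy, hyC, hye⟩ := hext a ha' h1.1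
      obtain ⟨_, _, y', hy', hyC', hye'⟩ := hext b hb' h2.1
      have h3 : φ (f y) = φ (f y') := by
        rw [hye, hye', ← h1.2, ← h2.2, hab]
      have h4 : f y = f y' := hφ (by exact_mod_cast hyC) (by exact_mod_cast hyC') h3
      have h5 : y = y' := by rw [← hf.1 y, h4, hf.1 y']
      rw [← h5] at hy'
      have h6 : cl Bas a = cl Bas b := class_eq H hca hcb hy hy'
      rw [h1.1, h2.1, h6]
    · exact absurd hab (hmixed a ha' b hb' h1.1 h2.2.2 h1.2)
    · exact absurd hab.symm (hmixed b hb' a ha' h2.1 h1.2.2 h2.2)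
    · have h3 := h1.2.2
      rw [hab] at h3
      have h6 : cl Bas a = cl Bas b := JP_disjoint H hp hca hcb h3 h2.2.2
      have h7 : σ (cl Bas a) a = σ (cl Bas a) b := by
        rw [← h1.2.1, hab, h2.2.1, h6]
      refine (hall (cl Bas a) hca).2.1 ?_ ?_ h7
      · exact_mod_cast Finset.mem_erase.mpr ⟨h1.1, self_mem_cl hDa⟩
      · have : b ∈ (cl Bas a).erase (z (cl Bas a)) := by
          rw [h6]
          exact Finset.mem_erase.mpr ⟨h2.1, self_mem_cl hDb⟩
        exact_mod_cast this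
  obtain ⟨B, hB, hSB⟩ := hp.ind S hSD g hginj hgA
  refine ⟨B, hB, ?_⟩
  intro v hv
  by_cases hD : D Bas v
  · exact hSB (Finset.mem_inter.mpr ⟨hv, mem_DD.mpr hD⟩)
  · exact CC_subset hB (mem_CC.mpr hD)

theorem core_if (H : IsMat Bas r)
    (hA : ∀ S : Finset V, (∃ B, Bas B ∧ S ⊆ B) ↔
      ∃ g : V → ι, Set.InjOn g S ∧ ∀ v ∈ S, A (g v) v)
    (hr : Even r)
    (hc : (classes Bas).card + ((classes Bas).filter (fun P => Even P.card)).card
      ≤ (Fintype.card V - r) + (CC Bas).card) :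
    ∃ G : SimpleGraph V, ∀ S : Finset V, (∃ B, Bas B ∧ S ⊆ B) ↔
      ∃ W : G.Subgraph, W.IsMatching ∧ (S : Set V) ⊆ W.verts := by
  classical
  obtain ⟨J0, hJ0, hmatch⟩ := exists_J0 H hA
  have hp : Pres Bas A J0 r :=
    { card := hJ0
      match_ := hmatch
      ind := fun S _ g hg hgA => (hA S).mpr ⟨g, hg, hgA⟩ }
  obtain ⟨B1, hB1⟩ := H.ne
  obtain ⟨σ1, _⟩ := hmatch B1 hB1
  by_cases hV : Nonempty V
  swap
  · -- empty vertex set
    refine ⟨⊥, fun S => ⟨fun _ => ⟨⊥, ?_, ?_⟩, fun _ => ⟨B1, hB1, ?_⟩⟩⟩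
    · intro v hv
      exact absurd ⟨v⟩ hV
    · intro v hv
      exact absurd ⟨v⟩ hV
    · intro v hv
      exact absurd ⟨v⟩ hV
  obtain ⟨v0⟩ := hV
  -- choices
  let sp : Finset V → V := fun P => if h : P.Nonempty then h.choose else v0
  have hsp : ∀ P ∈ classes Bas, sp P ∈ P := by
    intro P hP
    have h := class_nonempty hP
    simp only [sp, dif_pos h]
    exact h.choose_spec
  let jp : Finset V → ι := fun P => if h : (JP Bas A J0 P).Nonempty then h.choose else σ1 v0
  have hjp : ∀ P ∈ classes Bas, Even P.card → jp P ∈ JP Bas A J0 P := by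
    intro P hP hev
    have h : (JP Bas A J0 P).Nonempty := by
      rw [← Finset.card_pos, card_JP H hp hP]
      have := Finset.card_pos.mpr (class_nonempty hP)
      obtain ⟨k, hk⟩ := hev
      omega
    simp only [jp, dif_pos h]
    exact h.choose_spec
  have e1 := card_J1 (jp := jp) H hp
  have e2 := sum_Rem H hp hjp
  obtain ⟨t, ht⟩ := even_sum_Rem H hp hjp
  have e3 : (DD Bas).card + (CC Bas).card = Fintype.card V := by
    rw [← Finset.card_union_of_disjoint disj_DC]
    rw [← Finset.card_univ]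
    congr 1
    ext v
    simp only [Finset.mem_union, mem_DD, mem_CC, Finset.mem_univ, iff_true]
    exact em _
  have e4 : r ≤ Fintype.card V := by
    rw [← H.card B1 hB1]
    exact Finset.card_le_univ _
  have hle : (J1 Bas A J0 jp).card ≤ (CC Bas).card := by omega
  obtain ⟨C1, hC1, hC1card⟩ := Finset.exists_subset_card_eq hle
  have hpar : Even (CC Bas \ C1).card := by
    have h1 := Finset.card_sdiff_add_card_eq_card hC1
    obtain ⟨k, hk⟩ := hr
    have : (CC Bas \ C1).card + r = 2 * (CC Bas).card + (t + t) := by omega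
    exact ⟨(CC Bas).card + t - k, by omega⟩
  let ee := Finset.equivOfCardEq hC1card
  let φ : V → ι := fun v => if h : v ∈ C1 then ((ee ⟨v, h⟩ : {j // j ∈ J1 Bas A J0 jp}) : ι)
    else σ1 v
  have hφv : ∀ v (h : v ∈ C1), φ v = ((ee ⟨v, h⟩ : {j // j ∈ J1 Bas A J0 jp}) : ι) := by
    intro v h
    simp only [φ, dif_pos h]
  have hφ : Set.InjOn φ C1 := by
    intro a ha b hb hab
    have ha' : a ∈ C1 := by exact_mod_cast ha
    have hb' : b ∈ C1 := by exact_mod_cast hb
    rw [hφv a ha', hφv b hb'] at hab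
    have := ee.injective (Subtype.ext hab)
    exact congrArg Subtype.val this
  have hφJ : C1.image φ = J1 Bas A J0 jp := by
    ext j
    rw [Finset.mem_image]
    constructor
    · rintro ⟨v, hv, rfl⟩
      rw [hφv v hv]
      exact (ee ⟨v, hv⟩).2
    · intro hj
      refine ⟨(ee.symm ⟨j, hj⟩ : {v // v ∈ C1}), (ee.symm ⟨j, hj⟩).2, ?_⟩
      rw [hφv _ (ee.symm ⟨j, hj⟩).2]
      simp
  refine ⟨GG Bas A sp C1 φ, fun S => ⟨?_, ?_⟩⟩
  · rintro ⟨B, hB, hSB⟩
    obtain ⟨W, hW, hWB⟩ := base_covered (sp := sp) H hp hjp hC1 hφ hφJ hpar hB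
    exact ⟨W, hW, (by exact_mod_cast hSB : (S : Set V) ⊆ B).trans hWB⟩
  · rintro ⟨W, hW, hWS⟩
    obtain ⟨f, hf, hfW⟩ := exists_MF_of_matching W hW
    obtain ⟨B, hB, hfB⟩ := covered_indep H hp hsp hC1 hφ hφJ hf
    refine ⟨B, hB, fun v hv => hfB ?_⟩
    rw [mem_supp, hfW]
    exact hWS (by exact_mod_cast hv)

end core

end Pool.Agent.H46.MatchMat
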