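import Mathlib

/-!
# The Motzkin–Straus inequality

For a graph `G` without cliques on `r + 1` vertices and a nonnegative weight `x`,
`r * ∑ᵤ ∑ᵥ x u A u v x v ≤ (r - 1) (∑ x)²`.
-/

set_option autoImplicit false

namespace Pool.Agent.H46.Brouwer

open Finset Matrix

variable {V : Type*} [Fintype V] [DecidableEq V]

theorem motzkin_straus (G : SimpleGraph V) [DecidableRel G.Adj] {r : ℕ} (hr : 1 ≤ r)
    (hG : G.CliqueFree (r + 1)) (x : V → ℝ) (hx : ∀ v, 0 ≤ x v) :
    (r : ℝ) * ∑ u, ∑ v, x u * G.adjMatrix ℝ u v * x v ≤ ((r : ℝ) - 1) * (∑ u, x u) ^ 2 := by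
  -- induction on the size of the support
  obtain ⟨N, hN⟩ : ∃ N, (univ.filter fun v => x v ≠ 0).card = N := ⟨_, rfl⟩
  induction N using Nat.strong_induction_on generalizing x with
  | _ N ih =>
  by_cases hclq : ∀ u v, x u ≠ 0 → x v ≠ 0 → u ≠ v → G.Adj u v
  · -- the support is a clique
    set s := univ.filter fun v => x v ≠ 0 with hs
    have hcl : G.IsClique (s : Set V) := by
      intro u hu v hv huv
      simp only [hs, coe_filter, mem_univ, true_and, Set.mem_setOf_eq] at hu hv
      exact hclq u v hu hv huv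
    have hcard : s.card ≤ r := by
      by_contra hlt
      push Not at hlt
      obtain ⟨t, hts, htc⟩ := Finset.exists_subset_card_eq (Nat.succ_le_of_lt hlt)
      exact hG t ⟨hcl.subset (by exact_mod_cast hts), htc⟩
    have h1 : ∑ u, ∑ v, x u * G.adjMatrix ℝ u v * x v = (∑ u, x u) ^ 2 - ∑ u, x u ^ 2 := by
      have : ∀ u v, x u * G.adjMatrix ℝ u v * x v = x u * x v - (if v = u then x u ^ 2 else 0) := by
        intro u v
        by_cases huv : v = u
        · subst huv; simp; ring
        · simp only [huv, if_false, SimpleGraph.adjMatrix_apply, sub_zero]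
          by_cases hu : x u = 0
          · simp [hu]
          by_cases hv : x v = 0
          · simp [hv]
          rw [if_pos (hclq u v hu hv (Ne.symm huv))]
          ring
      simp only [this, Finset.sum_sub_distrib, Finset.sum_ite_eq', mem_univ, if_true]
      rw [← Finset.sum_mul_sum, sq]
    have h2 : (∑ u, x u) ^ 2 ≤ (r : ℝ) * ∑ u, x u ^ 2 := by
      have e1 : ∑ u, x u = ∑ u ∈ s, x u := by
        rw [hs, Finset.sum_filter_ne_zero]
      have e2 : ∑ u, x u ^ 2 = ∑ u ∈ s, x u ^ 2 := by
        symm
        apply Finset.sum_subset (Finset.subset_univ _)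
        intro u _ hu
        simp only [hs, mem_filter, mem_univ, true_and, not_not] at hu
        simp [hu]
      rw [e1, e2]
      have h3 : (∑ u ∈ s, x u) ^ 2 ≤ (s.card : ℝ) * ∑ u ∈ s, x u ^ 2 := sq_sum_le_card_mul_sum_sq
      have h4 : (s.card : ℝ) ≤ r := by exact_mod_cast hcard
      have h5 : 0 ≤ ∑ u ∈ s, x u ^ 2 := Finset.sum_nonneg fun _ _ => sq_nonneg _
      nlinarith
    rw [h1]
    nlinarith
  · push Not at hclq
    obtain ⟨u, v, hu, hv, huv, hadj⟩ := hclq
    -- the quadratic form
    set M := G.adjMatrix ℝ with hM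
    have hMs : M.transpose = M := SimpleGraph.transpose_adjMatrix ..
    have hform : ∀ y : V → ℝ, ∑ a, ∑ b, y a * M a b * y b = y ⬝ᵥ (M *ᵥ y) := by
      intro y
      simp only [dotProduct, mulVec, Finset.mul_sum]
      exact Finset.sum_congr rfl fun a _ => Finset.sum_congr rfl fun b _ => by ring
    -- it suffices to find a better vector with smaller support
    have key : ∀ a b : V, x a ≠ 0 → x b ≠ 0 → a ≠ b → ¬ G.Adj a b →
        (M *ᵥ x) b ≤ (M *ᵥ x) a →
        (r : ℝ) * ∑ u, ∑ v, x u * M u v * x v ≤ ((r : ℝ) - 1) * (∑ u, x u) ^ 2 := by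
      intro a b ha hb hab hnad hle
      set d : V → ℝ := Pi.single a 1 - Pi.single b 1 with hd
      set y : V → ℝ := x + x b • d with hy
      have hya : y a = x a + x b := by simp [hy, hd, hab]
      have hyb : y b = 0 := by simp [hy, hd, Ne.symm hab]
      have hyc : ∀ c, c ≠ a → c ≠ b → y c = x c := by
        intro c h1 h2; simp [hy, hd, h1, h2]
      have hypos : ∀ c, 0 ≤ y c := by
        intro c
        by_cases h1 : c = a
        · rw [h1, hya]; exact add_nonneg (hx _) (hx _)
        by_cases h2 : c = b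
        · rw [h2, hyb]
        rw [hyc c h1 h2]; exact hx c
      have hsum : ∑ c, y c = ∑ c, x c := by
        simp only [hy, hd, Pi.add_apply, Pi.smul_apply, Pi.sub_apply, smul_eq_mul,
          Finset.sum_add_distrib, ← Finset.mul_sum, Finset.sum_sub_distrib]
        simp
      have hlt : (univ.filter fun v => y v ≠ 0).card < N := by
        rw [← hN]
        apply Finset.card_lt_card
        refine ⟨?_, ?_⟩
        · intro c hc
          simp only [mem_filter, mem_univ, true_and] at hc ⊢
          by_cases h1 : c = a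
          · rw [h1]; exact ha
          by_cases h2 : c = b
          · rw [h2] at hc; exact absurd hyb hc
          rwa [hyc c h1 h2] at hc
        · intro hsub
          have : b ∈ univ.filter fun v => y v ≠ 0 := hsub (by simp [hb])
          simp only [mem_filter, mem_univ, true_and] at this
          exact this hyb
      have h1 := ih _ hlt y hypos rfl
      rw [hsum] at h1
      refine le_trans ?_ h1
      rw [hform, hform]
      have hdd : d ⬝ᵥ (M *ᵥ d) = 0 := by
        have hMd : M *ᵥ d = M.col a - M.col b := by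
          rw [hd, mulVec_sub, mulVec_single_one, mulVec_single_one]
        rw [hMd, hd, sub_dotProduct, single_one_dotProduct, single_one_dotProduct]
        simp [hM, hnad, G.adj_comm b a]
      have hdx : d ⬝ᵥ (M *ᵥ x) = (M *ᵥ x) a - (M *ᵥ x) b := by
        rw [hd, sub_dotProduct, single_one_dotProduct, single_one_dotProduct]
      have hxd : x ⬝ᵥ (M *ᵥ d) = (M *ᵥ x) a - (M *ᵥ x) b := by
        rw [← hdx, dotProduct_mulVec, ← mulVec_transpose, hMs, dotProduct_comm]
      have hexp : y ⬝ᵥ (M *ᵥ y) = x ⬝ᵥ (M *ᵥ x) + 2 * x b * ((M *ᵥ x) a - (M *ᵥ x) b) := by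
        rw [hy, mulVec_add, mulVec_smul, add_dotProduct, dotProduct_add, dotProduct_add,
          smul_dotProduct, dotProduct_smul, smul_dotProduct, dotProduct_smul, hdd, hdx, hxd]
        simp only [smul_eq_mul]
        ring
      rw [hexp]
      have : 0 ≤ x b * ((M *ᵥ x) a - (M *ᵥ x) b) := mul_nonneg (hx b) (by linarith)
      have hr0 : (0 : ℝ) ≤ r := by positivity
      nlinarith
    rcases le_total ((M *ᵥ x) v) ((M *ᵥ x) u) with h | h
    · exact key u v hu hv huv hadj h
    · exact key v u hv hu huv.symm (by rwa [G.adj_comm]) h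

end Pool.Agent.H46.Brouwer
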